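import Pool.Agent.Halving.Block

/-!
# Integer decoders: expressing a low-degree function at a set by its values at far sets
-/

namespace Halving

open Finset

/-- The weights `w` decode polynomials of degree less than `s` on the cube of dimension `r`. -/
def IsDec (r s : ℕ) (w : ℕ → ℤ) : Prop :=
  s ≤ r + 1 ∧ ∀ j < s, ∀ a ≤ j,
    ∑ i ∈ range (r - j + 1), ((r - j).choose i : ℤ) * w (a + i) = if a = 0 then 1 else 0

section diff

theorem diff_choose (n : ℕ) : ∀ t x : ℕ, t < n →
    ∑ i ∈ range (n + 1), (-1 : ℤ) ^ i * (n.choose i) * ((x + i).choose t) = 0 := by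
  induction n with
  | zero => intro t x h; omega
  | succ n ih =>
    intro t x h
    have h1 : ∑ i ∈ range (n + 1 + 1), (-1 : ℤ) ^ i * ((n + 1).choose i) * ((x + i).choose t)
        = ∑ i ∈ range (n + 1), (-1 : ℤ) ^ i * (n.choose i) * ((x + i).choose t)
          - ∑ i ∈ range (n + 1), (-1 : ℤ) ^ i * (n.choose i) * ((x + 1 + i).choose t) := by
      rw [sum_range_succ' _ (n + 1)]
      have h2 : ∀ i ∈ range (n + 1), (-1 : ℤ) ^ (i + 1) * ((n + 1).choose (i + 1)) *
          ((x + (i + 1)).choose t)
          = (-1 : ℤ) ^ (i + 1) * (n.choose (i + 1)) * ((x + (i + 1)).choose t) -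
            (-1 : ℤ) ^ i * (n.choose i) * ((x + 1 + i).choose t) := by
        intro i _
        rw [Nat.choose_succ_succ]
        have e : x + 1 + i = x + (i + 1) := by ring
        rw [e]
        push_cast
        ring
      rw [sum_congr rfl h2, sum_sub_distrib]
      have h3 : ∑ i ∈ range (n + 1), (-1 : ℤ) ^ i * (n.choose i) * ((x + i).choose t)
          = ∑ i ∈ range (n + 1), (-1 : ℤ) ^ (i + 1) * (n.choose (i + 1)) *
            ((x + (i + 1)).choose t) + (-1 : ℤ) ^ 0 * (n.choose 0) * ((x + 0).choose t) := by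
        rw [← sum_range_succ' (fun i => (-1 : ℤ) ^ i * (n.choose i) * ((x + i).choose t))
          (n + 1)]
        rw [sum_range_succ _ (n + 1), Nat.choose_succ_self]
        simp
      rw [h3]
      simp only [Nat.choose_zero_right]
      ring
    rw [h1, ← sum_sub_distrib]
    cases t with
    | zero =>
      refine sum_eq_zero ?_
      intro i _
      simp
    | succ t =>
      have h4 : ∀ i ∈ range (n + 1), (-1 : ℤ) ^ i * (n.choose i) * ((x + i).choose (t + 1)) -
          (-1 : ℤ) ^ i * (n.choose i) * ((x + 1 + i).choose (t + 1))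
          = - ((-1 : ℤ) ^ i * (n.choose i) * ((x + i).choose t)) := by
        intro i _
        have e : x + 1 + i = (x + i) + 1 := by ring
        rw [e, Nat.choose_succ_succ]
        push_cast
        ring
      rw [sum_congr rfl h4, sum_neg_distrib, ih t x (by omega), neg_zero]

/-- The weights of the far decoder. -/
def farW (s m : ℕ) : ℤ := if m = 0 then 0 else (-1) ^ (m + s) * ((m - 1).choose (s - 1))

theorem far_zero (t n : ℕ) (h : t < n) :
    ∑ i ∈ range n, (-1 : ℤ) ^ (i + 1) * (n.choose (i + 1)) * (i.choose t) = (-1) ^ (t + 1) := by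
  induction n with
  | zero => omega
  | succ n ih =>
    have h1 : ∑ i ∈ range (n + 1), (-1 : ℤ) ^ (i + 1) * ((n + 1).choose (i + 1)) * (i.choose t)
        = ∑ i ∈ range (n + 1), (-1 : ℤ) ^ (i + 1) * (n.choose (i + 1)) * (i.choose t)
          - ∑ i ∈ range (n + 1), (-1 : ℤ) ^ i * (n.choose i) * ((0 + i).choose t) := by
      rw [← sum_sub_distrib]
      refine sum_congr rfl ?_
      intro i _
      rw [Nat.choose_succ_succ, zero_add]
      push_cast
      ring
    rcases Nat.lt_or_ge t n with h2 | h2
    · rw [h1, diff_choose n t 0 h2, sub_zero, sum_range_succ, Nat.choose_succ_self]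
      simp only [Nat.cast_zero, mul_zero, zero_mul, add_zero]
      exact ih h2
    · have h3 : t = n := by omega
      subst h3
      rw [sum_range_succ, Nat.choose_self, Nat.choose_self]
      rw [sum_eq_zero]
      · simp
      · intro i hi
        rw [mem_range] at hi
        rw [Nat.choose_eq_zero_of_lt hi]
        simp

theorem isDec_far (m t : ℕ) : IsDec (m + 1 + t) (t + 1) (farW (m + 1)) := by
  refine ⟨by omega, ?_⟩
  intro j hj a ha
  obtain ⟨n, hn⟩ : ∃ n, n = m + 1 + t - j := ⟨_, rfl⟩
  rw [← hn]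
  have htn : m < n := by omega
  split_ifs with ha0
  · subst ha0
    rw [sum_range_succ']
    have h0 : farW (m + 1) (0 + 0) = 0 := by simp [farW]
    rw [h0, mul_zero, add_zero]
    have h1 : ∀ i ∈ range n, (n.choose (i + 1) : ℤ) * farW (m + 1) (0 + (i + 1))
        = (-1) ^ (m + 1) * ((-1 : ℤ) ^ (i + 1) * (n.choose (i + 1)) * (i.choose m)) := by
      intro i _
      unfold farW
      have e1 : 0 + (i + 1) ≠ 0 := by omega
      rw [if_neg e1]
      have e2 : 0 + (i + 1) - 1 = i := by omega
      have e3 : m + 1 - 1 = m := by omega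
      rw [e2, e3, zero_add]
      rw [pow_add]
      ring
    rw [sum_congr rfl h1, ← mul_sum, far_zero m n htn, ← mul_pow]
    norm_num
  · have h1 : ∀ i ∈ range (n + 1), (n.choose i : ℤ) * farW (m + 1) (a + i)
        = (-1) ^ (a + (m + 1)) * ((-1 : ℤ) ^ i * (n.choose i) * ((a - 1 + i).choose m)) := by
      intro i _
      unfold farW
      have e1 : a + i ≠ 0 := by omega
      rw [if_neg e1]
      have e2 : a + i - 1 = a - 1 + i := by omega
      have e3 : m + 1 - 1 = m := by omega
      rw [e2, e3]
      have e4 : a + i + (m + 1) = a + (m + 1) + i := by ring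
      rw [e4, pow_add _ (a + (m + 1)) i]
      ring
    rw [sum_congr rfl h1, ← mul_sum, diff_choose n m _ htn, mul_zero]

/-- The far decoder only uses sets of size at least `m + 1`. -/
theorem farW_of_lt {m j : ℕ} (h : j < m + 1) : farW (m + 1) j = 0 := by
  unfold farW
  split_ifs with h0
  · rfl
  · rw [Nat.choose_eq_zero_of_lt (by omega)]
    simp

theorem abs_farW_le (m j : ℕ) : |farW (m + 1) j| ≤ (j.choose (m + 1) : ℤ) := by
  unfold farW
  split_ifs with h0
  · simp
  · rw [abs_mul, abs_pow, abs_neg, abs_one, one_pow, one_mul, Nat.abs_cast]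
    obtain ⟨i, rfl⟩ : ∃ i, j = i + 1 := ⟨j - 1, by omega⟩
    have h1 : (i + 1) * i.choose m = (i + 1).choose (m + 1) * (m + 1) :=
      Nat.add_one_mul_choose_eq i m
    rcases Nat.lt_or_ge i m with h2 | h2
    · have e2 : i + 1 - 1 = i := by omega
      have e3 : m + 1 - 1 = m := by omega
      rw [e2, e3, Nat.choose_eq_zero_of_lt h2]
      simp
    · have e2 : i + 1 - 1 = i := by omega
      have e3 : m + 1 - 1 = m := by omega
      rw [e2, e3]
      have h3 : i.choose m ≤ (i + 1).choose (m + 1) := by
        rw [Nat.choose_succ_succ]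
        exact Nat.le_add_right _ _
      exact_mod_cast h3

end diff

section dec

variable {α : Type*} [DecidableEq α]

theorem swp_inter {r : ℕ} {B C : Fin r → Finset α} {S T : Finset α} (J : Finset (Fin r))
    (hJ : ∀ i, i ∉ J → Disjoint T (B i ∪ C i)) (I : Finset (Fin r)) :
    T ⊆ swp B C S I ↔ T ⊆ swp B C S (I ∩ J) := by
  have hx : ∀ x ∈ T, (x ∈ swp B C S I ↔ x ∈ swp B C S (I ∩ J)) := by
    intro x hxT
    have hb : x ∈ I.biUnion B ↔ x ∈ (I ∩ J).biUnion B := by
      simp only [mem_biUnion, mem_inter]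
      constructor
      · rintro ⟨i, hi, hxi⟩
        refine ⟨i, ⟨hi, ?_⟩, hxi⟩
        by_contra hc
        exact disjoint_left.1 (hJ i hc) hxT (mem_union_left _ hxi)
      · rintro ⟨i, ⟨hi, -⟩, hxi⟩
        exact ⟨i, hi, hxi⟩
    have hc : x ∈ I.biUnion C ↔ x ∈ (I ∩ J).biUnion C := by
      simp only [mem_biUnion, mem_inter]
      constructor
      · rintro ⟨i, hi, hxi⟩
        refine ⟨i, ⟨hi, ?_⟩, hxi⟩
        by_contra hc
        exact disjoint_left.1 (hJ i hc) hxT (mem_union_right _ hxi)
      · rintro ⟨i, ⟨hi, -⟩, hxi⟩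
        exact ⟨i, hi, hxi⟩
    simp only [swp, mem_union, mem_sdiff, hb, hc]
  constructor
  · intro h x hxT
    exact (hx x hxT).1 (h hxT)
  · intro h x hxT
    exact (hx x hxT).2 (h hxT)

theorem dec_indicator {r s : ℕ} {w : ℕ → ℤ} (hw : IsDec r s w) {B C : Fin r → Finset α}
    {S T : Finset α} (hdisj : ∀ i j, i ≠ j → Disjoint (B i ∪ C i) (B j ∪ C j))
    (hT : T.card < s) :
    ∑ I : Finset (Fin r), (w I.card : ℝ) * (if T ⊆ swp B C S I then 1 else 0)
      = if T ⊆ S then 1 else 0 := by
  classical
  obtain ⟨J, hJ⟩ : ∃ J : Finset (Fin r), J = univ.filter (fun i => ¬ Disjoint T (B i ∪ C i)) :=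
    ⟨_, rfl⟩
  have hJc : J.card ≤ T.card := by
    have h1 : ∀ i ∈ J, ∃ x ∈ T, x ∈ B i ∪ C i := by
      intro i hi
      rw [hJ, mem_filter] at hi
      have := hi.2
      rw [not_disjoint_iff] at this
      exact this
    have h2 : ∀ i : {i // i ∈ J}, ∃ x ∈ T, x ∈ B i ∪ C i := fun i => h1 i.1 i.2
    choose g hg hg' using h2
    have h3 : (univ.image g).card = J.card := by
      rw [card_image_of_injective, card_univ, Fintype.card_coe]
      intro i j hij
      by_contra hne
      have hne' : (i : Fin r) ≠ j := fun h => hne (Subtype.ext h)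
      exact disjoint_left.1 (hdisj i j hne') (hg' i) (hij ▸ hg' j)
    rw [← h3]
    refine card_le_card ?_
    intro x hx
    rw [mem_image] at hx
    obtain ⟨i, _, rfl⟩ := hx
    exact hg i
  have hJd : ∀ i, i ∉ J → Disjoint T (B i ∪ C i) := by
    intro i hi
    rw [hJ, mem_filter] at hi
    by_contra hc
    exact hi ⟨mem_univ _, hc⟩
  have h1 : ∑ I : Finset (Fin r), (w I.card : ℝ) * (if T ⊆ swp B C S I then 1 else 0)
      = ∑ p ∈ J.powerset ×ˢ Jᶜ.powerset, (w (p.1.card + p.2.card) : ℝ) *
          (if T ⊆ swp B C S p.1 then 1 else 0) := by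
    refine sum_nbij' (fun I => (I ∩ J, I ∩ Jᶜ)) (fun p => p.1 ∪ p.2) ?_ ?_ ?_ ?_ ?_
    · intro I _
      rw [mem_product, mem_powerset, mem_powerset]
      exact ⟨inter_subset_right, inter_subset_right⟩
    · intro p _
      exact mem_univ _
    · intro I _
      show I ∩ J ∪ I ∩ Jᶜ = I
      rw [← inter_union_distrib_left, union_compl, inter_univ]
    · intro p hp
      rw [mem_product, mem_powerset, mem_powerset] at hp
      have hd : Disjoint J Jᶜ := disjoint_compl_right
      refine Prod.ext ?_ ?_
      · show (p.1 ∪ p.2) ∩ J = p.1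
        ext i
        simp only [mem_inter, mem_union]
        constructor
        · rintro ⟨h | h, hi⟩
          · exact h
          · exact absurd (hp.2 h) (disjoint_left.1 hd hi)
        · intro h
          exact ⟨Or.inl h, hp.1 h⟩
      · show (p.1 ∪ p.2) ∩ Jᶜ = p.2
        ext i
        simp only [mem_inter, mem_union]
        constructor
        · rintro ⟨h | h, hi⟩
          · exact absurd hi (disjoint_left.1 hd (hp.1 h))
          · exact h
        · intro h
          exact ⟨Or.inr h, hp.2 h⟩
    · intro I _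
      have hc : (I ∩ J).card + (I ∩ Jᶜ).card = I.card := by
        rw [← card_union_of_disjoint, ← inter_union_distrib_left, union_compl, inter_univ]
        exact (disjoint_compl_right : Disjoint J Jᶜ).mono inter_subset_right inter_subset_right
      rw [hc]
      simp only [swp_inter J hJd I]
  rw [h1, sum_product]
  have hjr : J.card ≤ r := by
    have := card_le_univ J
    simpa using this
  have h2 : ∀ A ∈ J.powerset, ∑ I' ∈ Jᶜ.powerset, (w (A.card + I'.card) : ℝ) *
      (if T ⊆ swp B C S A then 1 else 0)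
      = (if A.card = 0 then 1 else 0) * (if T ⊆ swp B C S A then 1 else 0) := by
    intro A hA
    rw [mem_powerset] at hA
    rw [← sum_mul]
    congr 1
    rw [sum_powerset_apply_card (fun m => (w (A.card + m) : ℝ)), card_compl, Fintype.card_fin]
    have h3 := hw.2 J.card (by omega) A.card (card_le_card hA)
    have h4 : ((∑ i ∈ range (r - J.card + 1), ((r - J.card).choose i : ℤ) * w (A.card + i) : ℤ)
        : ℝ) = ((if A.card = 0 then 1 else 0 : ℤ) : ℝ) := by rw [h3]
    push_cast at h4
    simp only [nsmul_eq_mul]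
    exact h4
  rw [sum_congr rfl h2, sum_eq_single ∅]
  · have hs0 : swp B C S ∅ = S := by simp [swp]
    rw [hs0]
    simp
  · intro A _ hA
    have : A.card ≠ 0 := by rw [Ne, card_eq_zero]; exact hA
    rw [if_neg this, zero_mul]
  · intro h
    exact absurd (empty_mem_powerset J) h

/-- The decoding identity. -/
theorem dec_poly {r s : ℕ} {w : ℕ → ℤ} (hw : IsDec r s w) {B C : Fin r → Finset α}
    {S X : Finset α} {c : Finset α → ℝ}
    (hdisj : ∀ i j, i ≠ j → Disjoint (B i ∪ C i) (B j ∪ C j))
    (hX : ∀ I, swp B C S I ⊆ X) :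
    ∑ I : Finset (Fin r), (w I.card : ℝ) * poly s c (swp B C S I) = poly s c S := by
  have hind : ∀ S' ⊆ X, poly s c S' = ∑ T ∈ X.powerset with T.card < s,
      c T * (if T ⊆ S' then 1 else 0) := by
    intro S' hS'
    unfold poly
    have : ∀ T ∈ X.powerset.filter (fun T => T.card < s), c T * (if T ⊆ S' then (1 : ℝ) else 0)
        = if T ⊆ S' then c T else 0 := by
      intro T _
      split_ifs <;> simp
    rw [sum_congr rfl this, ← sum_filter]
    refine sum_congr ?_ (fun _ _ => rfl)
    ext T
    simp only [mem_filter, mem_powerset]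
    constructor
    · rintro ⟨h1, h2⟩
      exact ⟨⟨h1.trans hS', h2⟩, h1⟩
    · rintro ⟨⟨-, h2⟩, h3⟩
      exact ⟨h3, h2⟩
  have hSX : S ⊆ X := by
    have := hX ∅
    have hs0 : swp B C S ∅ = S := by simp [swp]
    rwa [hs0] at this
  rw [hind S hSX]
  have h1 : ∀ I : Finset (Fin r), (w I.card : ℝ) * poly s c (swp B C S I)
      = ∑ T ∈ X.powerset with T.card < s,
        c T * ((w I.card : ℝ) * (if T ⊆ swp B C S I then 1 else 0)) := by
    intro I
    rw [hind _ (hX I), mul_sum]
    refine sum_congr rfl ?_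
    intro T _
    ring
  rw [sum_congr rfl (fun I _ => h1 I), sum_comm]
  refine sum_congr rfl ?_
  intro T hT
  rw [mem_filter] at hT
  rw [← mul_sum, dec_indicator hw hdisj hT.2]

end dec

end Halving
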