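import Pool.Agent.Halving.Good
import Pool.Agent.Halving.Dec

/-!
# Choice of the blocks by averaging the quadratic energy
-/

namespace Halving

open Finset

section perm

variable {β : Type*} [Fintype β] [DecidableEq β]

/-- Averaging over permutations, real weights. -/
theorem perm_average_real {U : Finset β} (w : Finset β → ℝ) :
    (∑ σ : Equiv.Perm β, w (U.map σ.toEmbedding)) * ((Fintype.card β).choose U.card : ℝ)
      = ((Fintype.card β).factorial : ℝ) *
        ∑ W ∈ powersetCard U.card (univ : Finset β), w W := by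
  have h2 : ∀ σ ∈ (univ : Finset (Equiv.Perm β)), U.map σ.toEmbedding ∈
      powersetCard U.card (univ : Finset β) := by
    intro σ _
    rw [mem_powersetCard, card_map]
    exact ⟨subset_univ _, rfl⟩
  rw [← sum_fiberwise_of_maps_to h2, sum_mul, mul_sum]
  refine sum_congr rfl ?_
  intro W hW
  rw [mem_powersetCard] at hW
  have h3 : ∑ σ ∈ (univ : Finset (Equiv.Perm β)) with U.map σ.toEmbedding = W,
      w (U.map σ.toEmbedding)
      = (((univ : Finset (Equiv.Perm β)).filter
          (fun σ => U.map σ.toEmbedding = W)).card : ℝ) * w W := by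
    rw [← nsmul_eq_mul, ← sum_const]
    refine sum_congr rfl ?_
    intro σ hσ
    rw [(mem_filter.1 hσ).2]
  rw [h3]
  have h4 : (((univ : Finset (Equiv.Perm β)).filter
      (fun σ => U.map σ.toEmbedding = W)).card : ℝ) * ((Fintype.card β).choose U.card : ℝ)
      = ((Fintype.card β).factorial : ℝ) := by
    exact_mod_cast card_perm_map hW.2.symm
  rw [← h4]
  ring

end perm

section good

variable {α : Type*} [DecidableEq α]

/-- The random choice of the blocks, energy version. -/
theorem exists_blocks_energy {S S' : Finset α} (hd : Disjoint S S') {r b : ℕ}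
    (hk : r * b ≤ S.card) (hv : r * b ≤ S'.card) (P : Finset (Finset α)) (g : Finset α → ℝ)
    (hP : ∀ (W : Finset S) (W' : Finset S'), W.card = W'.card → rep S S' W W' ∈ P)
    {E : ℝ} (hE : ∑ Z ∈ P, g Z ^ 2 ≤ E) (a : ℕ → ℝ) (ha : ∀ m, 0 ≤ a m) :
    ∃ B C : Fin r → Finset α, (∀ i, B i ⊆ S) ∧ (∀ i, C i ⊆ S') ∧
      (∀ i j, i ≠ j → Disjoint (B i) (B j)) ∧ (∀ i j, i ≠ j → Disjoint (C i) (C j)) ∧
      (∀ i, (B i).card = b) ∧ (∀ i, (C i).card = b) ∧
      ∑ I : Finset (Fin r), a I.card * g (swp B C S I) ≤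
        ∑ I : Finset (Fin r), a I.card * Real.sqrt (E /
          ((S.card.choose (b * I.card) : ℝ) * (S'.card.choose (b * I.card) : ℝ))) := by
  obtain ⟨U, hU, hUc⟩ := exists_fam (β := S) (s := r) (b := b) (by simpa using hk)
  obtain ⟨V, hV, hVc⟩ := exists_fam (β := S') (s := r) (b := b) (by simpa using hv)
  have hbu : ∀ I : Finset (Fin r), (I.biUnion U).card = b * I.card := by
    intro I
    rw [card_biUnion (fun i _ j _ hij => hU i j hij), sum_congr rfl (fun i _ => hUc i),
      sum_const, smul_eq_mul, mul_comm]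
  have hbv : ∀ I : Finset (Fin r), (I.biUnion V).card = b * I.card := by
    intro I
    rw [card_biUnion (fun i _ j _ hij => hV i j hij), sum_congr rfl (fun i _ => hVc i),
      sum_const, smul_eq_mul, mul_comm]
  have hsw : ∀ (σ : Equiv.Perm S) (τ : Equiv.Perm S') (I : Finset (Fin r)),
      swp (fun i => ((U i).map σ.toEmbedding).map (Function.Embedding.subtype _))
        (fun i => ((V i).map τ.toEmbedding).map (Function.Embedding.subtype _)) S I
      = rep S S' ((I.biUnion U).map σ.toEmbedding) ((I.biUnion V).map τ.toEmbedding) := by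
    intro σ τ I
    unfold swp rep
    congr 1
    · congr 1
      ext x
      simp only [mem_biUnion, mem_map]
      constructor
      · rintro ⟨i, hi, y, ⟨z, hz, rfl⟩, rfl⟩
        exact ⟨_, ⟨z, ⟨i, hi, hz⟩, rfl⟩, rfl⟩
      · rintro ⟨y, ⟨z, ⟨i, hi, hz⟩, rfl⟩, rfl⟩
        exact ⟨i, hi, _, ⟨z, hz, rfl⟩, rfl⟩
    · ext x
      simp only [mem_biUnion, mem_map]
      constructor
      · rintro ⟨i, hi, y, ⟨z, hz, rfl⟩, rfl⟩
        exact ⟨_, ⟨z, ⟨i, hi, hz⟩, rfl⟩, rfl⟩
      · rintro ⟨y, ⟨z, ⟨i, hi, hz⟩, rfl⟩, rfl⟩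
        exact ⟨i, hi, _, ⟨z, hz, rfl⟩, rfl⟩
  obtain ⟨R, hR⟩ : ∃ R : ℝ, R = ∑ I : Finset (Fin r), a I.card * Real.sqrt (E /
      ((S.card.choose (b * I.card) : ℝ) * (S'.card.choose (b * I.card) : ℝ))) := ⟨_, rfl⟩
  rw [← hR]
  by_contra hcon
  have hno : ∀ (σ : Equiv.Perm S) (τ : Equiv.Perm S'), R < ∑ I : Finset (Fin r), a I.card *
      g (rep S S' ((I.biUnion U).map σ.toEmbedding) ((I.biUnion V).map τ.toEmbedding)) := by
    intro σ τ
    by_contra hno
    apply hcon
    refine ⟨fun i => ((U i).map σ.toEmbedding).map (Function.Embedding.subtype _),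
      fun i => ((V i).map τ.toEmbedding).map (Function.Embedding.subtype _), ?_, ?_, ?_, ?_,
      ?_, ?_, ?_⟩
    · intro i x hx
      simp only [mem_map] at hx
      obtain ⟨y, -, rfl⟩ := hx
      exact y.2
    · intro i x hx
      simp only [mem_map] at hx
      obtain ⟨y, -, rfl⟩ := hx
      exact y.2
    · intro i j hij
      rw [disjoint_map, disjoint_map]
      exact hU i j hij
    · intro i j hij
      rw [disjoint_map, disjoint_map]
      exact hV i j hij
    · intro i
      rw [card_map, card_map, hUc]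
    · intro i
      rw [card_map, card_map, hVc]
    · simp only [hsw]
      exact not_lt.1 hno
  have hcS : Fintype.card S = S.card := by simp
  have hcS' : Fintype.card S' = S'.card := by simp
  -- sum over all pairs of permutations
  have hlt : (S.card.factorial : ℝ) * (S'.card.factorial : ℝ) * R
      < ∑ σ : Equiv.Perm S, ∑ τ : Equiv.Perm S', ∑ I : Finset (Fin r), a I.card *
        g (rep S S' ((I.biUnion U).map σ.toEmbedding) ((I.biUnion V).map τ.toEmbedding)) := by
    have h1 : (S.card.factorial : ℝ) * (S'.card.factorial : ℝ) * R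
        = ∑ _σ : Equiv.Perm S, ∑ _τ : Equiv.Perm S', R := by
      rw [sum_const, sum_const, card_univ, card_univ, Fintype.card_perm, Fintype.card_perm,
        hcS, hcS', nsmul_eq_mul, nsmul_eq_mul, mul_assoc]
    rw [h1]
    refine sum_lt_sum_of_nonempty ⟨1, mem_univ _⟩ ?_
    intro σ _
    refine sum_lt_sum_of_nonempty ⟨1, mem_univ _⟩ ?_
    intro τ _
    exact hno σ τ
  have hone : ∀ I : Finset (Fin r), ∑ σ : Equiv.Perm S, ∑ τ : Equiv.Perm S',
      g (rep S S' ((I.biUnion U).map σ.toEmbedding) ((I.biUnion V).map τ.toEmbedding))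
      ≤ (S.card.factorial : ℝ) * (S'.card.factorial : ℝ) * Real.sqrt (E /
      ((S.card.choose (b * I.card) : ℝ) * (S'.card.choose (b * I.card) : ℝ))) := by
    intro I
    obtain ⟨Q, hQ⟩ : ∃ Q, Q = powersetCard (b * I.card) (univ : Finset S) ×ˢ
        powersetCard (b * I.card) (univ : Finset S') := ⟨_, rfl⟩
    have hQc : (Q.card : ℝ) = (S.card.choose (b * I.card) : ℝ) *
        (S'.card.choose (b * I.card) : ℝ) := by
      rw [hQ, card_product, card_powersetCard, card_powersetCard, card_univ, card_univ, hcS, hcS']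
      push_cast
      rfl
    have hQsum : ∑ p ∈ Q, g (rep S S' p.1 p.2) ^ 2 ≤ E := by
      refine le_trans ?_ hE
      have hinj : Set.InjOn (fun p : Finset S × Finset S' => rep S S' p.1 p.2) (Q : Set _) := by
        intro p _ p' _ h
        obtain ⟨h1, h2⟩ := rep_inj hd h
        exact Prod.ext h1 h2
      rw [← sum_image (f := fun Z => g Z ^ 2) hinj]
      refine sum_le_sum_of_subset_of_nonneg ?_ (fun Z _ _ => sq_nonneg _)
      intro Z hZ
      rw [mem_image] at hZ
      obtain ⟨p, hp, rfl⟩ := hZ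
      rw [hQ, mem_product, mem_powersetCard, mem_powersetCard] at hp
      exact hP _ _ (by rw [hp.1.2, hp.2.2])
    have hkI : b * I.card ≤ S.card := by
      rw [← hbu I, ← hcS]
      exact card_le_univ _
    have hvI : b * I.card ≤ S'.card := by
      rw [← hbv I, ← hcS']
      exact card_le_univ _
    have hc1 : (0 : ℝ) < (S.card.choose (b * I.card) : ℝ) := by
      exact_mod_cast Nat.choose_pos hkI
    have hc2 : (0 : ℝ) < (S'.card.choose (b * I.card) : ℝ) := by
      exact_mod_cast Nat.choose_pos hvI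
    have hE0 : 0 ≤ E := le_trans (sum_nonneg fun _ _ => sq_nonneg _) hE
    -- Cauchy-Schwarz
    have hCS : ∑ p ∈ Q, g (rep S S' p.1 p.2) ≤ Real.sqrt ((Q.card : ℝ) * E) := by
      apply Real.le_sqrt_of_sq_le
      refine (sq_sum_le_card_mul_sum_sq).trans ?_
      exact mul_le_mul_of_nonneg_left hQsum (Nat.cast_nonneg _)
    have h1 : ∀ W : Finset S, (∑ τ : Equiv.Perm S',
        g (rep S S' W ((I.biUnion V).map τ.toEmbedding))) *
        (S'.card.choose (b * I.card) : ℝ) = (S'.card.factorial : ℝ) *
          ∑ W' ∈ powersetCard (b * I.card) (univ : Finset S'), g (rep S S' W W') := by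
      intro W
      have := perm_average_real (U := I.biUnion V) (fun W' => g (rep S S' W W'))
      rw [hbv, hcS'] at this
      exact this
    have h2 := perm_average_real (U := I.biUnion U)
      (fun W => ∑ W' ∈ powersetCard (b * I.card) (univ : Finset S'), g (rep S S' W W'))
    rw [hbu, hcS] at h2
    have h3 : (∑ σ : Equiv.Perm S, ∑ τ : Equiv.Perm S',
        g (rep S S' ((I.biUnion U).map σ.toEmbedding) ((I.biUnion V).map τ.toEmbedding))) *
        ((S.card.choose (b * I.card) : ℝ) * (S'.card.choose (b * I.card) : ℝ))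
        = (S.card.factorial : ℝ) * (S'.card.factorial : ℝ) *
          ∑ p ∈ Q, g (rep S S' p.1 p.2) := by
      have h4 : (∑ σ : Equiv.Perm S, ∑ τ : Equiv.Perm S',
          g (rep S S' ((I.biUnion U).map σ.toEmbedding) ((I.biUnion V).map τ.toEmbedding))) *
          (S'.card.choose (b * I.card) : ℝ) = (S'.card.factorial : ℝ) *
          ∑ σ : Equiv.Perm S, ∑ W' ∈ powersetCard (b * I.card) (univ : Finset S'),
            g (rep S S' ((I.biUnion U).map σ.toEmbedding) W') := by
        rw [sum_mul, mul_sum]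
        exact sum_congr rfl (fun σ _ => h1 _)
      rw [hQ, sum_product]
      calc (∑ σ : Equiv.Perm S, ∑ τ : Equiv.Perm S',
            g (rep S S' ((I.biUnion U).map σ.toEmbedding) ((I.biUnion V).map τ.toEmbedding))) *
            ((S.card.choose (b * I.card) : ℝ) * (S'.card.choose (b * I.card) : ℝ))
          = ((∑ σ : Equiv.Perm S, ∑ τ : Equiv.Perm S',
            g (rep S S' ((I.biUnion U).map σ.toEmbedding) ((I.biUnion V).map τ.toEmbedding))) *
            (S'.card.choose (b * I.card) : ℝ)) * (S.card.choose (b * I.card) : ℝ) := by ring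
        _ = (S'.card.factorial : ℝ) * ((∑ σ : Equiv.Perm S,
            ∑ W' ∈ powersetCard (b * I.card) (univ : Finset S'),
            g (rep S S' ((I.biUnion U).map σ.toEmbedding) W')) *
              (S.card.choose (b * I.card) : ℝ)) := by
            rw [h4]; ring
        _ = _ := by rw [h2]; ring
    have h5 : (∑ σ : Equiv.Perm S, ∑ τ : Equiv.Perm S',
        g (rep S S' ((I.biUnion U).map σ.toEmbedding) ((I.biUnion V).map τ.toEmbedding))) *
        ((S.card.choose (b * I.card) : ℝ) * (S'.card.choose (b * I.card) : ℝ))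
        ≤ (S.card.factorial : ℝ) * (S'.card.factorial : ℝ) * Real.sqrt ((Q.card : ℝ) * E) := by
      rw [h3]
      exact mul_le_mul_of_nonneg_left hCS (by positivity)
    have hQpos : (0 : ℝ) < (Q.card : ℝ) := by
      rw [hQc]
      exact mul_pos hc1 hc2
    rw [← hQc] at h5 ⊢
    rw [← le_div_iff₀ hQpos] at h5
    refine h5.trans (le_of_eq ?_)
    rw [mul_div_assoc]
    congr 1
    rw [Real.sqrt_mul hQpos.le, Real.sqrt_div hE0]
    have h6 : Real.sqrt (Q.card : ℝ) ≠ 0 := (Real.sqrt_pos.2 hQpos).ne'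
    rw [div_eq_div_iff hQpos.ne' h6]
    rw [mul_right_comm, Real.mul_self_sqrt hQpos.le]
    ring
  have hle : ∑ σ : Equiv.Perm S, ∑ τ : Equiv.Perm S', ∑ I : Finset (Fin r), a I.card *
        g (rep S S' ((I.biUnion U).map σ.toEmbedding) ((I.biUnion V).map τ.toEmbedding))
      ≤ (S.card.factorial : ℝ) * (S'.card.factorial : ℝ) * R := by
    have h1 : ∑ σ : Equiv.Perm S, ∑ τ : Equiv.Perm S', ∑ I : Finset (Fin r), a I.card *
        g (rep S S' ((I.biUnion U).map σ.toEmbedding) ((I.biUnion V).map τ.toEmbedding))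
        = ∑ I : Finset (Fin r), a I.card * ∑ σ : Equiv.Perm S, ∑ τ : Equiv.Perm S',
        g (rep S S' ((I.biUnion U).map σ.toEmbedding) ((I.biUnion V).map τ.toEmbedding)) := by
      rw [sum_congr rfl (fun σ _ => sum_comm), sum_comm]
      refine sum_congr rfl ?_
      intro I _
      rw [mul_sum]
      refine sum_congr rfl ?_
      intro σ _
      rw [mul_sum]
    rw [h1, hR, mul_sum]
    refine sum_le_sum ?_
    intro I _
    calc a I.card * ∑ σ : Equiv.Perm S, ∑ τ : Equiv.Perm S',
          g (rep S S' ((I.biUnion U).map σ.toEmbedding) ((I.biUnion V).map τ.toEmbedding))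
        ≤ a I.card * ((S.card.factorial : ℝ) * (S'.card.factorial : ℝ) * Real.sqrt (E /
      ((S.card.choose (b * I.card) : ℝ) * (S'.card.choose (b * I.card) : ℝ)))) :=
          mul_le_mul_of_nonneg_left (hone I) (ha _)
      _ = _ := by ring
  exact absurd (hlt.trans_le hle) (lt_irrefl _)

end good

end Halving
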