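import Mathlib

/-!
# Halving conjecture: signings of strength `r`
`Solv r F`: the family `F` has a signing whose sums over all blocks containing `T` vanish
for all `T` with fewer than `r` elements.
-/

namespace Halving

open Finset

/-- The family `F` has a `±1` signing `f` such that for every set `T` with fewer than `r`
elements the sum of `f` over the members of `F` that contain `T` is zero. -/
def Solv {α : Type*} [DecidableEq α] (r : ℕ) (F : Finset (Finset α)) : Prop :=
  ∃ f : Finset α → ℤ, (∀ S ∈ F, f S = 1 ∨ f S = -1) ∧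
    ∀ T : Finset α, T.card < r → ∑ S ∈ F with T ⊆ S, f S = 0

section basic

variable {α β : Type*} [DecidableEq α] [DecidableEq β]

theorem Solv.mono {r s : ℕ} {F : Finset (Finset α)} (h : Solv s F) (hrs : r ≤ s) :
    Solv r F := by
  obtain ⟨f, h1, h2⟩ := h
  exact ⟨f, h1, fun T hT => h2 T (lt_of_lt_of_le hT hrs)⟩

theorem solv_empty (r : ℕ) : Solv r (∅ : Finset (Finset α)) :=
  ⟨fun _ => 1, by simp, by simp⟩

theorem solv_zero (F : Finset (Finset α)) : Solv 0 F :=
  ⟨fun _ => 1, by simp, by simp⟩

theorem solv_powersetCard_of_lt {r k : ℕ} {X : Finset α} (h : X.card < k) :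
    Solv r (powersetCard k X) := by
  rw [powersetCard_eq_empty.2 h]; exact solv_empty r

/-- Gluing along a two-part split. -/
theorem solv_split {r : ℕ} {F : Finset (Finset α)} (p : Finset α → Prop) [DecidablePred p]
    (h1 : Solv r (F.filter p)) (h2 : Solv r (F.filter (fun S => ¬ p S))) : Solv r F := by
  obtain ⟨f, hf, hf'⟩ := h1
  obtain ⟨g, hg, hg'⟩ := h2
  refine ⟨fun S => if p S then f S else g S, ?_, ?_⟩
  · intro S hS
    by_cases hp : p S
    · simp only [hp, if_true]; exact hf S (mem_filter.2 ⟨hS, hp⟩)
    · simp only [hp, if_false]; exact hg S (mem_filter.2 ⟨hS, hp⟩)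
  · intro T hT
    have e1 := hf' T hT
    have e2 := hg' T hT
    rw [← sum_filter_add_sum_filter_not _ p]
    have a1 : ∑ S ∈ (F.filter (T ⊆ ·)).filter p, (if p S then f S else g S)
        = ∑ S ∈ (F.filter p).filter (T ⊆ ·), f S := by
      rw [filter_comm]
      refine sum_congr rfl ?_
      intro S hS
      simp only [mem_filter] at hS
      simp [hS.1.2]
    have a2 : ∑ S ∈ (F.filter (T ⊆ ·)).filter (fun S => ¬ p S), (if p S then f S else g S)
        = ∑ S ∈ (F.filter (fun S => ¬ p S)).filter (T ⊆ ·), g S := by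
      rw [filter_comm]
      refine sum_congr rfl ?_
      intro S hS
      simp only [mem_filter] at hS
      simp [hS.1.2]
    rw [a1, a2, e1, e2, add_zero]

/-- Gluing along an arbitrary labelling. -/
theorem solv_fiber {ι : Type*} [DecidableEq ι] {r : ℕ} {F : Finset (Finset α)}
    (h : Finset α → ι) (hh : ∀ c : ι, Solv r (F.filter (fun S => h S = c))) : Solv r F := by
  choose f hf hf' using hh
  refine ⟨fun S => f (h S) S, ?_, ?_⟩
  · intro S hS
    exact hf (h S) S (mem_filter.2 ⟨hS, rfl⟩)
  · intro T hT
    have hm : ∀ S ∈ F.filter (T ⊆ ·), h S ∈ F.image h := by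
      intro S hS
      exact mem_image_of_mem _ (mem_filter.1 hS).1
    rw [← sum_fiberwise_of_maps_to hm]
    refine sum_eq_zero ?_
    intro c _
    rw [← hf' c T hT, filter_comm]
    refine sum_congr rfl ?_
    intro S hS
    simp only [mem_filter] at hS
    rw [hS.1.2]

/-- Transport of a signing along an injection. -/
theorem solv_congr {r k : ℕ} {X : Finset α} {Y : Finset β} (h : X.card = Y.card)
    (hX : Solv r (powersetCard k X)) : Solv r (powersetCard k Y) := by
  obtain ⟨f, hf, hf'⟩ := hX
  obtain ⟨e⟩ : Nonempty (Y ≃ X) := ⟨Finset.equivOfCardEq h.symm⟩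
  by_cases hne : Y.Nonempty
  swap
  · rw [not_nonempty_iff_eq_empty] at hne
    subst hne
    have hXe : X = ∅ := by simpa using h
    subst hXe
    refine ⟨fun _ => f ∅, ?_, ?_⟩
    · intro S hS
      have : (∅ : Finset α) ∈ powersetCard k (∅ : Finset α) := by
        rw [mem_powersetCard] at hS ⊢
        have : S = ∅ := by simpa using hS.1
        subst this
        simpa using hS.2
      exact hf _ this
    · intro T hT
      have h0 := hf' ∅ (by simpa using lt_of_le_of_lt (Nat.zero_le _) hT)
      rcases Nat.eq_zero_or_pos k with hk | hk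
      · subst hk
        simp only [powersetCard_zero] at h0 ⊢
        by_cases hTe : T = ∅
        · subst hTe
          simpa using h0
        · have : ({∅} : Finset (Finset β)).filter (T ⊆ ·) = ∅ := by
            rw [filter_eq_empty_iff]
            intro S hS hT'
            rw [mem_singleton] at hS
            subst hS
            exact hTe (subset_empty.1 hT')
          rw [this, sum_empty]
      · rw [powersetCard_eq_empty.2 (by simpa using hk)]
        simp
  obtain ⟨y0, hy0⟩ := hne
  -- the map Y → X and back as plain functions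
  let g : β → α := fun y => if hy : y ∈ Y then (e ⟨y, hy⟩ : α) else (e ⟨y0, hy0⟩ : α)
  let g' : α → β := fun x => if hx : x ∈ X then (e.symm ⟨x, hx⟩ : β) else y0
  have hgX : ∀ y ∈ Y, g y ∈ X := by
    intro y hy
    simp only [g, hy, dif_pos]
    exact (e ⟨y, hy⟩).2
  have hg'Y : ∀ x ∈ X, g' x ∈ Y := by
    intro x hx
    simp only [g', hx, dif_pos]
    exact (e.symm ⟨x, hx⟩).2
  have hgg' : ∀ x ∈ X, g (g' x) = x := by
    intro x hx
    have h1 : g' x = (e.symm ⟨x, hx⟩ : β) := by simp only [g', hx, dif_pos]
    have h2 : (e.symm ⟨x, hx⟩ : β) ∈ Y := (e.symm ⟨x, hx⟩).2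
    rw [h1]
    simp only [g, h2, dif_pos]
    simp
  have hg'g : ∀ y ∈ Y, g' (g y) = y := by
    intro y hy
    have h1 : g y = (e ⟨y, hy⟩ : α) := by simp only [g, hy, dif_pos]
    have h2 : (e ⟨y, hy⟩ : α) ∈ X := (e ⟨y, hy⟩).2
    rw [h1]
    simp only [g', h2, dif_pos]
    simp
  have hginj : Set.InjOn g Y := by
    intro a ha b hb hab
    rw [← hg'g a ha, ← hg'g b hb, hab]
  have hg'inj : Set.InjOn g' X := by
    intro a ha b hb hab
    rw [← hgg' a ha, ← hgg' b hb, hab]
  have him : ∀ S ∈ powersetCard k Y, S.image g ∈ powersetCard k X := by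
    intro S hS
    rw [mem_powersetCard] at hS ⊢
    refine ⟨?_, ?_⟩
    · intro x hx
      obtain ⟨y, hy, rfl⟩ := mem_image.1 hx
      exact hgX y (hS.1 hy)
    · rw [card_image_of_injOn (hginj.mono (by exact_mod_cast hS.1)), hS.2]
  have him' : ∀ S ∈ powersetCard k X, S.image g' ∈ powersetCard k Y := by
    intro S hS
    rw [mem_powersetCard] at hS ⊢
    refine ⟨?_, ?_⟩
    · intro x hx
      obtain ⟨y, hy, rfl⟩ := mem_image.1 hx
      exact hg'Y y (hS.1 hy)
    · rw [card_image_of_injOn (hg'inj.mono (by exact_mod_cast hS.1)), hS.2]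
  have hback : ∀ S : Finset β, S ⊆ Y → (S.image g).image g' = S := by
    intro S hS
    ext y
    simp only [mem_image, exists_exists_and_eq_and]
    constructor
    · rintro ⟨z, hz, rfl⟩
      rw [hg'g z (hS hz)]; exact hz
    · intro hy
      exact ⟨y, hy, hg'g y (hS hy)⟩
  have hback' : ∀ S : Finset α, S ⊆ X → (S.image g').image g = S := by
    intro S hS
    ext y
    simp only [mem_image, exists_exists_and_eq_and]
    constructor
    · rintro ⟨z, hz, rfl⟩
      rw [hgg' z (hS hz)]; exact hz
    · intro hy
      exact ⟨y, hy, hgg' y (hS hy)⟩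
  refine ⟨fun S => f (S.image g), ?_, ?_⟩
  · intro S hS
    exact hf _ (him S hS)
  · intro T hT
    by_cases hTY : T ⊆ Y
    swap
    · have : (powersetCard k Y).filter (T ⊆ ·) = ∅ := by
        rw [filter_eq_empty_iff]
        intro S hS hTS
        exact hTY (hTS.trans (mem_powersetCard.1 hS).1)
      rw [this, sum_empty]
    · have hcard : (T.image g).card < r := lt_of_le_of_lt card_image_le hT
      rw [← hf' (T.image g) hcard]
      refine sum_nbij' (fun S => S.image g) (fun S => S.image g') ?_ ?_ ?_ ?_ ?_
      · intro S hS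
        rw [mem_filter] at hS ⊢
        exact ⟨him S hS.1, image_subset_image hS.2⟩
      · intro S hS
        rw [mem_filter] at hS ⊢
        refine ⟨him' S hS.1, ?_⟩
        rw [← hback T hTY]
        exact image_subset_image hS.2
      · intro S hS
        rw [mem_filter, mem_powersetCard] at hS
        exact hback S hS.1.1
      · intro S hS
        rw [mem_filter, mem_powersetCard] at hS
        exact hback' S hS.1.1
      · intro S _
        rfl

/-- `Bal r k n`: the `k`-subsets of an `n`-set have a signing of strength `r`. -/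
def Bal (r k n : ℕ) : Prop := Solv r (powersetCard k (range n))

theorem Bal.to {r k n : ℕ} (h : Bal r k n) (X : Finset α) (hX : X.card = n) :
    Solv r (powersetCard k X) :=
  solv_congr (by rw [card_range, hX]) h

theorem Bal.of {r k n : ℕ} {X : Finset α} (h : Solv r (powersetCard k X)) (hX : X.card = n) :
    Bal r k n :=
  solv_congr (by rw [card_range, hX]) h

theorem Bal.mono {r s k n : ℕ} (h : Bal s k n) (hrs : r ≤ s) : Bal r k n := Solv.mono h hrs

theorem bal_zero (k n : ℕ) : Bal 0 k n := solv_zero _

theorem bal_of_lt {r k n : ℕ} (h : n < k) : Bal r k n :=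
  solv_powersetCard_of_lt (by simpa using h)

end basic

end Halving
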