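import Pool.Agent.Halving.Swap

/-!
# Block differences and the choice of good blocks
-/

namespace Halving

open Finset

section diff

variable {α : Type*} [DecidableEq α]

/-- Swap the blocks with indices in `I`. -/
def swp {s : ℕ} (B C : Fin s → Finset α) (S : Finset α) (I : Finset (Fin s)) : Finset α :=
  (S \ I.biUnion B) ∪ I.biUnion C

/-- toggle an index -/
def tog {s : ℕ} (i : Fin s) (I : Finset (Fin s)) : Finset (Fin s) :=
  if i ∈ I then I.erase i else insert i I

theorem tog_tog {s : ℕ} (i : Fin s) (I : Finset (Fin s)) : tog i (tog i I) = I := by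
  unfold tog
  by_cases h : i ∈ I
  · simp [h, insert_erase h]
  · simp [h, erase_insert h]

theorem tog_ne {s : ℕ} (i : Fin s) (I : Finset (Fin s)) : tog i I ≠ I := by
  unfold tog
  by_cases h : i ∈ I
  · simp only [h, if_true]
    intro h1
    rw [← h1] at h
    simp at h
  · simp only [h, if_false]
    intro h1
    exact h (h1 ▸ mem_insert_self i I)

theorem tog_sign {s : ℕ} (i : Fin s) (I : Finset (Fin s)) :
    ((-1 : ℝ)) ^ (tog i I).card = - (-1) ^ I.card := by
  unfold tog
  by_cases h : i ∈ I
  · simp only [h, if_true]
    have h1 := card_erase_of_mem h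
    have h2 : 0 < I.card := card_pos.2 ⟨i, h⟩
    have h3 : I.card = (I.erase i).card + 1 := by omega
    rw [h3, pow_succ]
    ring
  · simp only [h, if_false]
    rw [card_insert_of_notMem h, pow_succ]
    ring

/-- Alternating sums of indicator functions of sets of small size vanish. -/
theorem alt_indicator {s : ℕ} {B C : Fin s → Finset α} {S T : Finset α}
    (hdisj : ∀ i j, i ≠ j → Disjoint (B i ∪ C i) (B j ∪ C j)) (hT : T.card < s) :
    ∑ I : Finset (Fin s), (-1 : ℝ) ^ I.card * (if T ⊆ swp B C S I then 1 else 0) = 0 := by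
  obtain ⟨i, hi⟩ : ∃ i, Disjoint T (B i ∪ C i) := by
    by_contra hcon
    push Not at hcon
    have h1 : ∀ i : Fin s, ∃ x ∈ T, x ∈ B i ∪ C i := by
      intro i
      have := hcon i
      rw [not_disjoint_iff] at this
      exact this
    choose g hg hg' using h1
    have h2 : (univ : Finset (Fin s)).card ≤ T.card := by
      refine card_le_card_of_injOn g (fun i _ => hg i) ?_
      intro i _ j _ hij
      by_contra hne
      exact disjoint_left.1 (hdisj i j hne) (hg' i) (hij ▸ hg' j)
    rw [card_univ, Fintype.card_fin] at h2
    omega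
  have hiff : ∀ I, (T ⊆ swp B C S (tog i I)) ↔ (T ⊆ swp B C S I) := by
    intro I
    have hx : ∀ x ∈ T, (x ∈ swp B C S (tog i I) ↔ x ∈ swp B C S I) := by
      intro x hxT
      have hxi : x ∉ B i ∪ C i := disjoint_left.1 hi hxT
      rw [mem_union] at hxi
      push Not at hxi
      have hb : x ∈ (tog i I).biUnion B ↔ x ∈ I.biUnion B := by
        simp only [mem_biUnion, tog]
        constructor
        · rintro ⟨j, hj, hxj⟩
          refine ⟨j, ?_, hxj⟩
          by_cases h : i ∈ I
          · simp only [h, if_true] at hj; exact mem_of_mem_erase hj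
          · simp only [h, if_false] at hj
            rcases mem_insert.1 hj with h1 | h1
            · subst h1; exact absurd hxj hxi.1
            · exact h1
        · rintro ⟨j, hj, hxj⟩
          refine ⟨j, ?_, hxj⟩
          have hji : j ≠ i := by rintro rfl; exact hxi.1 hxj
          by_cases h : i ∈ I
          · simp only [h, if_true]; exact mem_erase.2 ⟨hji, hj⟩
          · simp only [h, if_false]; exact mem_insert_of_mem hj
      have hc : x ∈ (tog i I).biUnion C ↔ x ∈ I.biUnion C := by
        simp only [mem_biUnion, tog]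
        constructor
        · rintro ⟨j, hj, hxj⟩
          refine ⟨j, ?_, hxj⟩
          by_cases h : i ∈ I
          · simp only [h, if_true] at hj; exact mem_of_mem_erase hj
          · simp only [h, if_false] at hj
            rcases mem_insert.1 hj with h1 | h1
            · subst h1; exact absurd hxj hxi.2
            · exact h1
        · rintro ⟨j, hj, hxj⟩
          refine ⟨j, ?_, hxj⟩
          have hji : j ≠ i := by rintro rfl; exact hxi.2 hxj
          by_cases h : i ∈ I
          · simp only [h, if_true]; exact mem_erase.2 ⟨hji, hj⟩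
          · simp only [h, if_false]; exact mem_insert_of_mem hj
      simp only [swp, mem_union, mem_sdiff, hb, hc]
    constructor
    · intro h x hxT
      exact (hx x hxT).1 (h hxT)
    · intro h x hxT
      exact (hx x hxT).2 (h hxT)
  refine sum_involution (fun I _ => tog i I) ?_ ?_ ?_ ?_
  · intro I _
    rw [tog_sign]
    simp only [hiff I]
    ring
  · intro I _ _
    exact tog_ne i I
  · intro I _
    exact mem_univ _
  · intro I _
    exact tog_tog i I

/-- The alternating sum of a polynomial of degree less than `s`. -/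
theorem alt_poly {s : ℕ} {B C : Fin s → Finset α} {S : Finset α} {c : Finset α → ℝ}
    {X : Finset α} (hdisj : ∀ i j, i ≠ j → Disjoint (B i ∪ C i) (B j ∪ C j))
    (hX : ∀ I, swp B C S I ⊆ X) :
    ∑ I : Finset (Fin s), (-1 : ℝ) ^ I.card * poly s c (swp B C S I) = 0 := by
  have h1 : ∀ I : Finset (Fin s), (-1 : ℝ) ^ I.card * poly s c (swp B C S I)
      = ∑ T ∈ X.powerset with T.card < s,
        c T * ((-1 : ℝ) ^ I.card * (if T ⊆ swp B C S I then 1 else 0)) := by
    intro I
    have h2 : poly s c (swp B C S I) = ∑ T ∈ X.powerset with T.card < s,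
        if T ⊆ swp B C S I then c T else 0 := by
      unfold poly
      rw [← sum_filter]
      refine sum_congr ?_ (fun _ _ => rfl)
      ext T
      simp only [mem_filter, mem_powerset]
      constructor
      · rintro ⟨h1, h2⟩
        exact ⟨⟨h1.trans (hX I), h2⟩, h1⟩
      · rintro ⟨⟨-, h2⟩, h3⟩
        exact ⟨h3, h2⟩
    rw [h2, mul_sum]
    refine sum_congr rfl ?_
    intro T _
    split_ifs <;> ring
  rw [sum_congr rfl (fun I _ => h1 I), sum_comm]
  refine sum_eq_zero ?_
  intro T hT
  rw [mem_filter] at hT
  rw [← mul_sum, alt_indicator hdisj hT.2, mul_zero]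

end diff

section perm

variable {β : Type*} [Fintype β] [DecidableEq β]

theorem exists_perm_map {W W' : Finset β} (h : W.card = W'.card) :
    ∃ ρ : Equiv.Perm β, W.map ρ.toEmbedding = W' := by
  have e : {x // x ∈ W} ≃ {x // x ∈ W'} := Finset.equivOfCardEq h
  refine ⟨e.extendSubtype, ?_⟩
  refine eq_of_subset_of_card_le ?_ (by rw [card_map, h])
  intro y hy
  rw [mem_map] at hy
  obtain ⟨x, hx, rfl⟩ := hy
  exact e.extendSubtype_mem x hx

/-- Each target is hit equally often. -/
theorem card_perm_map {U W : Finset β} (h : U.card = W.card) :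
    ((univ : Finset (Equiv.Perm β)).filter (fun σ => U.map σ.toEmbedding = W)).card *
      (Fintype.card β).choose U.card = (Fintype.card β).factorial := by
  have h1 : ∀ W' ∈ powersetCard U.card (univ : Finset β),
      ((univ : Finset (Equiv.Perm β)).filter (fun σ => U.map σ.toEmbedding = W')).card
      = ((univ : Finset (Equiv.Perm β)).filter (fun σ => U.map σ.toEmbedding = W)).card := by
    intro W' hW'
    rw [mem_powersetCard] at hW'
    obtain ⟨ρ, hρ⟩ := exists_perm_map (W := W) (W' := W') (by rw [← h, hW'.2])
    have hρ' : W'.map ρ.symm.toEmbedding = W := by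
      rw [← hρ, map_map]
      ext x
      simp
    refine card_nbij' (fun σ => σ.trans ρ.symm) (fun σ => σ.trans ρ) ?_ ?_ ?_ ?_
    · intro σ hσ
      simp only [coe_filter, mem_univ, true_and, Set.mem_ofPred_eq] at hσ ⊢
      rw [← hρ', ← hσ, map_map]
      rfl
    · intro σ hσ
      simp only [coe_filter, mem_univ, true_and, Set.mem_ofPred_eq] at hσ ⊢
      rw [← hρ, ← hσ, map_map]
      rfl
    · intro σ _
      ext x; simp
    · intro σ _
      ext x; simp
  have h2 : ∀ σ ∈ (univ : Finset (Equiv.Perm β)), U.map σ.toEmbedding ∈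
      powersetCard U.card (univ : Finset β) := by
    intro σ _
    rw [mem_powersetCard, card_map]
    exact ⟨subset_univ _, rfl⟩
  have h3 := card_eq_sum_card_fiberwise h2
  rw [sum_congr rfl h1, sum_const, card_powersetCard, card_univ, Fintype.card_perm,
    card_univ, smul_eq_mul] at h3
  rw [h3, mul_comm]

/-- Averaging over permutations. -/
theorem perm_average {U : Finset β} (w : Finset β → ℕ) :
    (∑ σ : Equiv.Perm β, w (U.map σ.toEmbedding)) * (Fintype.card β).choose U.card
      = (Fintype.card β).factorial * ∑ W ∈ powersetCard U.card (univ : Finset β), w W := by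
  have h2 : ∀ σ ∈ (univ : Finset (Equiv.Perm β)), U.map σ.toEmbedding ∈
      powersetCard U.card (univ : Finset β) := by
    intro σ _
    rw [mem_powersetCard, card_map]
    exact ⟨subset_univ _, rfl⟩
  rw [← sum_fiberwise_of_maps_to h2, sum_mul, mul_sum]
  refine sum_congr rfl ?_
  intro W hW
  rw [mem_powersetCard] at hW
  have h3 : ∑ σ ∈ (univ : Finset (Equiv.Perm β)) with U.map σ.toEmbedding = W,
      w (U.map σ.toEmbedding)
      = ((univ : Finset (Equiv.Perm β)).filter (fun σ => U.map σ.toEmbedding = W)).card * w W := by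
    rw [← smul_eq_mul, ← sum_const]
    refine sum_congr rfl ?_
    intro σ hσ
    rw [(mem_filter.1 hσ).2]
  rw [h3, ← card_perm_map hW.2.symm]
  ring

end perm

end Halving
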