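import Pool.Agent.Halving.Energy

/-!
# The arithmetic criterion
-/

namespace Halving

open Finset

theorem sum_choose_choose (n l : ℕ) :
    ∑ j ∈ range (l + n + 1), (l + n).choose j * j.choose l = (l + n).choose l * 2 ^ n := by
  have h1 : ∀ j ∈ range (l + n + 1), (l + n).choose j * j.choose l
      = if l ≤ j then (l + n).choose l * n.choose (j - l) else 0 := by
    intro j hj
    rw [mem_range] at hj
    split_ifs with h
    · have h2 := Nat.choose_mul (n := l + n) (k := j) (s := l) h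
      rw [Nat.add_sub_cancel_left] at h2
      exact h2
    · rw [Nat.choose_eq_zero_of_lt (by omega : j < l), mul_zero]
  rw [sum_congr rfl h1, ← sum_filter]
  have h2 : (range (l + n + 1)).filter (fun j => l ≤ j) = (range (n + 1)).map
      (addLeftEmbedding l) := by
    ext j
    simp only [mem_filter, mem_range, mem_map, addLeftEmbedding_apply]
    constructor
    · rintro ⟨h3, h4⟩
      exact ⟨j - l, by omega, by omega⟩
    · rintro ⟨i, h3, h4⟩
      omega
  rw [h2, sum_map]
  have h3 : ∀ i ∈ range (n + 1), (l + n).choose l * n.choose ((addLeftEmbedding l) i - l)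
      = (l + n).choose l * n.choose i := by
    intro i _
    rw [addLeftEmbedding_apply, Nat.add_sub_cancel_left]
  rw [sum_congr rfl h3, ← mul_sum, Nat.sum_range_choose]

theorem sum_weight_le (m t : ℕ) :
    ∑ I : Finset (Fin (m + 1 + t)), |(farW (m + 1) I.card : ℝ)|
      ≤ ((m + 1 + t).choose t : ℝ) * 2 ^ t := by
  have h1 : ∑ I : Finset (Fin (m + 1 + t)), |(farW (m + 1) I.card : ℝ)|
      ≤ ∑ I ∈ (univ : Finset (Fin (m + 1 + t))).powerset, ((I.card.choose (m + 1) : ℕ) : ℝ) := by
    rw [powerset_univ]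
    refine sum_le_sum ?_
    intro I _
    have := abs_farW_le m I.card
    exact_mod_cast this
  refine h1.trans (le_of_eq ?_)
  rw [sum_powerset_apply_card (fun j => ((j.choose (m + 1) : ℕ) : ℝ)), card_univ, Fintype.card_fin]
  have h2 := sum_choose_choose t (m + 1)
  have h3 : (m + 1 + t).choose (m + 1) = (m + 1 + t).choose t := by
    have := Nat.choose_symm_add (a := m + 1) (b := t)
    exact this
  rw [h3] at h2
  have h4 : ((∑ j ∈ range (m + 1 + t + 1), (m + 1 + t).choose j * j.choose (m + 1) : ℕ) : ℝ)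
      = (((m + 1 + t).choose t * 2 ^ t : ℕ) : ℝ) := by rw [h2]
  push_cast at h4
  simp only [nsmul_eq_mul]
  exact h4

/-- the analytic part -/
theorem two_pow_exp_lt {v A : ℕ} (hA : 0 < v * A) :
    (((2 ^ v : ℕ) : ℝ)) ^ A * Real.exp (-(2 * (349 / 1000 * ((v * A : ℕ) : ℝ)))) < 1 := by
  have h3 : (((2 ^ v : ℕ) : ℝ)) ^ A = Real.exp (Real.log 2 * ((v * A : ℕ) : ℝ)) := by
    push_cast
    rw [← pow_mul, Real.exp_mul, Real.exp_log (by norm_num)]
    rw [← Real.rpow_natCast]
    push_cast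
    rfl
  rw [h3, ← Real.exp_add, Real.exp_lt_one_iff]
  have h4 := Real.log_two_lt_d9
  have h5 : (0 : ℝ) < ((v * A : ℕ) : ℝ) := by exact_mod_cast hA
  have h7 : Real.log 2 * ((v * A : ℕ) : ℝ) < 0.6931471808 * ((v * A : ℕ) : ℝ) :=
    mul_lt_mul_of_pos_right h4 h5
  linarith

/-- The arithmetic criterion. -/
theorem bal_of_crit {t k v b m : ℕ} (hfeas : ∀ i ≤ t, 2 ∣ (v - i).choose (k - i))
    (htk : t + 1 ≤ k) (hkv : k ≤ v) (hk : (m + 1 + t) * b ≤ k) (hv : (m + 1 + t) * b ≤ v - k)
    (hcrit : ∀ j, m + 1 ≤ j → j ≤ m + 1 + t →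
      7 * (16 ^ t * ((m + 1 + t).choose t) ^ 2 * (v * v.choose t))
        ≤ 5 * (k.choose (b * j) * (v - k).choose (b * j))) : Bal (t + 1) k v := by
  unfold Bal
  have hA : 0 < v * v.choose t := Nat.mul_pos (by omega) (Nat.choose_pos (by omega))
  obtain ⟨A, hAd⟩ : ∃ A : ℕ, A = (m + 1 + t).choose t := ⟨_, rfl⟩
  have hA1 : 0 < A := by rw [hAd]; exact Nat.choose_pos (by omega)
  have hA1' : (0 : ℝ) < A := by exact_mod_cast hA1
  have hsum := sum_weight_le m t
  rw [← hAd] at hcrit hsum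
  obtain ⟨V, hVd⟩ : ∃ V : ℕ, V = v * v.choose t := ⟨_, rfl⟩
  rw [← hVd] at hA hcrit
  have hV : (0 : ℝ) < V := by exact_mod_cast hA
  refine solv_of_energy (b := b) (r := m + 1 + t) (q := 2 ^ v) (w := farW (m + 1))
    (E := 349 / 1000 * (V : ℝ)) (isDec_far m t) ?_ htk hk ?_ ?_ ?_ ?_
  · rw [card_range]; exact hfeas
  · rw [card_range]; exact hv
  · rw [card_range]; exact Nat.choose_lt_two_pow _ _ (by omega)
  · rw [card_range]
    have hone : ∀ I : Finset (Fin (m + 1 + t)), |(farW (m + 1) I.card : ℝ)| *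
        Real.sqrt (349 / 1000 * (V : ℝ) /
        ((k.choose (b * I.card) : ℝ) * ((v - k).choose (b * I.card) : ℝ)))
        ≤ |(farW (m + 1) I.card : ℝ)| * (4994 / 10000 / (4 ^ t * A)) := by
      intro I
      rcases Nat.lt_or_ge I.card (m + 1) with hI | hI
      · rw [farW_of_lt hI]
        simp
      · refine mul_le_mul_of_nonneg_left ?_ (abs_nonneg _)
        have hIc : I.card ≤ m + 1 + t := by
          have := card_le_univ I
          simpa using this
        have h1 := hcrit I.card hI hIc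
        have h2 : (7 : ℝ) * (16 ^ t * (A : ℝ) ^ 2 * V) ≤
            5 * ((k.choose (b * I.card) : ℝ) * ((v - k).choose (b * I.card) : ℝ)) := by
          exact_mod_cast h1
        have h3 : (0 : ℝ) < (k.choose (b * I.card) : ℝ) * ((v - k).choose (b * I.card) : ℝ) := by
          have : (0 : ℝ) < 7 * (16 ^ t * (A : ℝ) ^ 2 * V) := by positivity
          linarith
        apply Real.sqrt_le_iff.2
        refine ⟨by positivity, ?_⟩
        rw [div_le_iff₀ h3, div_pow, mul_pow, ← pow_mul, mul_comm t 2, pow_mul]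
        norm_num only
        obtain ⟨P, hP⟩ : ∃ P : ℝ, P = 16 ^ t * (A : ℝ) ^ 2 := ⟨_, rfl⟩
        obtain ⟨Q, hQ⟩ : ∃ Q : ℝ, Q = (k.choose (b * I.card) : ℝ) *
          ((v - k).choose (b * I.card) : ℝ) := ⟨_, rfl⟩
        rw [← hP, ← hQ] at h2
        rw [← hP, ← hQ]
        have hP0 : 0 < P := by rw [hP]; positivity
        have h6 : 6235009 / 25000000 / P * Q = (6235009 / 25000000 * Q) / P := by ring
        rw [h6, le_div_iff₀ hP0]
        nlinarith [h2]
    have htot : ∑ I : Finset (Fin (m + 1 + t)), |(farW (m + 1) I.card : ℝ)| *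
        Real.sqrt (349 / 1000 * (V : ℝ) /
        ((k.choose (b * I.card) : ℝ) * ((v - k).choose (b * I.card) : ℝ)))
        ≤ (A * 2 ^ t) * (4994 / 10000 / (4 ^ t * A)) := by
      refine (sum_le_sum (fun I _ => hone I)).trans ?_
      rw [← sum_mul]
      exact mul_le_mul_of_nonneg_right hsum (by positivity)
    refine lt_of_le_of_lt (mul_le_mul_of_nonneg_left htot (by positivity)) ?_
    have h4 : (4 : ℝ) ^ t = 2 ^ t * 2 ^ t := by
      rw [← mul_pow]; norm_num
    rw [h4, pow_succ]
    have h5 : (2 : ℝ) ^ t * 2 * (↑A * 2 ^ t * (4994 / 10000 / (2 ^ t * 2 ^ t * ↑A)))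
        = 9988 / 10000 := by
      have h2t : (2 : ℝ) ^ t ≠ 0 := by positivity
      field_simp
      norm_num
    rw [h5]
    norm_num
  · rw [card_range, hVd]
    exact two_pow_exp_lt (by rw [← hVd]; exact hA)

end Halving
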