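import Pool.Agent.Halving.Types

/-!
# The root cases (8, 19) and (9, 19)
The tables were found by a computer search; the kernel checks them.
-/

namespace Halving

/-- The table for `(8, 19)`. -/
def tab8_19 : ℕ := 0x20000000100010110000000000000000000000000000100130000000000000020000000000116132000000000000000010000000100020136000100130110034400100020020416800000000100010106000000100124132c00020130002406080020122814082400000000000000000000000000000000100000000100030014000100110014004400000000000100130000000100110036000100010134110c00020032016c26c80000000100130114000000010000110400130124106404000026110420804400000100030130134000000032114432400020010c34486c80106836c86480400000000000000100000000000100020016000000130104024400010026122426080000000000100000000100030020132c00100000122030800124030c20882c80000000110104036c00000126006824880006032816482400012016880800080000010102016804400116132430802400014020804000080014082c80800000000000000000000116000000130000006c00010106136420080114024c06000880000000020112132000130132116c02400136010c34800c00116c02c80480880000100102034010800020110c20884400034404000480480014406c80400080000006030014c06000006c36c06480c00024480c00400080000480080000000000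

theorem chk8_19 : chk [2 ^ 1024, 2 ^ 256, 2 ^ 64, 2 ^ 16, 2 ^ 4, 2 ^ 1] [3, 3, 3, 3, 3, 3, 1]
    8 tab8_19 4368 (taus [3, 3, 3, 3, 3, 3, 1] 3) = true := by
  decide +kernel

theorem bal8_19 : Bal 4 8 19 :=
  bal_of_chk (t := 3) (by simp only [List.length_cons, List.length_nil]) (by norm_num)
    (by norm_num) (by decide +kernel) rfl chk8_19

/-- The table for `(9, 19)`. -/
def tab9_19 : ℕ := 0x100100000000100130012000000000030126800000000000100120000000000020122000100100122120800020002022002000000000100000036000100110032014800130114102c32c00012012004086400000000120036130000000122000412880022106c16804480126836084800480000000000000100000000000000020010000100030106002400120034132814c80000000000110122000000120006120000100110034432c80034004814c84080000100020032000400020006122014c80034034402806880104832c84080c00000100122014812880010120014c84800006036080c00000000402800800080000000000100130022000100100034006000000032112814000132010024484800000100100114106c00030110034436080032006820402800120436084400800000130122102c16800106034402800c00112820400400480022c86880480080000012120832c04480002432c86880000014002800480080000c80880080000000000000020012126800120034104800400132120422c80c80004c30482c00480000000002012036080034004832c82800010036086880880030484800000080000030022004084800132814c84080800024484400480080002c00000080000000126802006400480014c84080c000800048008000800000004800800000000000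

theorem chk9_19 : chk [2 ^ 1024, 2 ^ 256, 2 ^ 64, 2 ^ 16, 2 ^ 4, 2 ^ 1] [3, 3, 3, 3, 3, 3, 1]
    9 tab9_19 8008 (taus [3, 3, 3, 3, 3, 3, 1] 3) = true := by
  decide +kernel

theorem bal9_19 : Bal 4 9 19 :=
  bal_of_chk (t := 3) (by simp only [List.length_cons, List.length_nil]) (by norm_num)
    (by norm_num) (by decide +kernel) rfl chk9_19

end Halving
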