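import Pool.Agent.Halving.Types

/-!
# The root cases (4, 11), (5, 11), (3, 6) and (1, 2)
The tables were found by a computer search; the kernel checks them.
-/

namespace Halving

/-- The table for `(4, 11)`. -/
def tab4_11 : ℕ := 0x1000001120000000100000103000100100015034c00000001000100050000001400131606000000050112116801060732140618e00000000000010015000100110104061a00010102000605700002154e1334602800000106010412320111032c016a54c00013125414160e88055860282ac06800

theorem chk4_11 : chk [2 ^ 512, 2 ^ 256, 2 ^ 128, 2 ^ 64, 2 ^ 32, 2 ^ 16, 2 ^ 8, 2 ^ 4, 2 ^ 2, 2 ^ 1] [1, 1, 1, 1, 1, 1, 1, 1, 1, 1, 1]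
    4 tab4_11 8 (taus [1, 1, 1, 1, 1, 1, 1, 1, 1, 1, 1] 3) = true := by
  decide +kernel

theorem bal4_11 : Bal 4 4 11 :=
  bal_of_chk (t := 3) (by simp only [List.length_cons, List.length_nil]) (by norm_num)
    (by norm_num) (by decide +kernel) rfl chk4_11

/-- The table for `(5, 11)`. -/
def tab5_11 : ℕ := 0x100010011000000130004154a00010012010207060106045811723848000001010114112c00031664163608280007027404385ac01542360806c0a080000101040005026a01051130132a4c6000101646017c7420031c26a8684008800112021e124456a004780ec01248e000151258882e28008060a86000c8008000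

theorem chk5_11 : chk [2 ^ 512, 2 ^ 256, 2 ^ 128, 2 ^ 64, 2 ^ 32, 2 ^ 16, 2 ^ 8, 2 ^ 4, 2 ^ 2, 2 ^ 1] [1, 1, 1, 1, 1, 1, 1, 1, 1, 1, 1]
    5 tab5_11 28 (taus [1, 1, 1, 1, 1, 1, 1, 1, 1, 1, 1] 3) = true := by
  decide +kernel

theorem bal5_11 : Bal 4 5 11 :=
  bal_of_chk (t := 3) (by simp only [List.length_cons, List.length_nil]) (by norm_num)
    (by norm_num) (by decide +kernel) rfl chk5_11


/-- The table for `(3, 6)`. -/
def tab3_6 : ℕ := 0x14261ac0

theorem chk3_6 : chk [2 ^ 16, 2 ^ 8, 2 ^ 4, 2 ^ 2, 2 ^ 1] [1, 1, 1, 1, 1, 1]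
    3 tab3_6 4 (taus [1, 1, 1, 1, 1, 1] 2) = true := by
  decide +kernel

theorem bal3_6 : Bal 3 3 6 :=
  bal_of_chk (t := 2) (by simp only [List.length_cons, List.length_nil]) (by norm_num)
    (by norm_num) (by decide +kernel) rfl chk3_6

/-- The table for `(1, 2)`. -/
def tab1_2 : ℕ := 0x2

theorem chk1_2 : chk [2 ^ 1] [1, 1]
    1 tab1_2 2 (taus [1, 1] 0) = true := by
  decide +kernel

theorem bal1_2 : Bal 1 1 2 :=
  bal_of_chk (t := 0) (by simp only [List.length_cons, List.length_nil]) (by norm_num)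
    (by norm_num) (by decide +kernel) rfl chk1_2

end Halving
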