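import Pool.Agent.Halving.Vec

/-!
# The root case (6, 13)
The tables were found by a computer search; the kernel checks them.
-/

namespace Halving

/-- The table for `(6, 13)`. -/
def tabs6_13 : List ℕ := [0x100000001000001010000000000000105000001140017102a0000000000000106000100140105103a00010106001301700012031607406c48000000010001000200000104001306740001000300141538010502721308464800000013010512540112110e04621e8001100564120e4a28041e788034e020800000000000000013000100030112144c00010016010306500104112602541ea0000101110114024600040738013a66400001141a142c3688136648c058282080000001140114110e00130652050c32a0000313440562286814381c886268c0000007052802325ca013446068784808801658226816c0c00006a0680088008000,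
  0x100010010000000120016074600000013010612460113050c051038e0000101010012053c01010666121c52800005125815422c28142c52a022e84800000000050101156a010711381244182801141618023606c0006266485ca8a000001616420538224801582c606628c080032614a858c0e0007a400880080080000001010400050738000513581522206801100526103c5288025a6860668848000002106e13465820167214080cc0a880077826400a60c0801408a880e000000001120236025a6440142446881ae0c800014e58a07c0028803e4020800080800015141ac0648828800aa8e000600000006028c80028800000c080000080000000]

/-- The levels. -/
def lv6_13 : List (ℕ × List (List ℕ)) :=
  [(173056, [[1, 1], [0, 1]]), (86528, [[1, 1], [0, 1]]), (43264, [[1, 1], [0, 1]]), (21632, [[1,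
  1], [0, 1]]), (10816, [[1, 1], [0, 1]]), (5408, [[1, 1], [0, 1]]), (2704, [[1, 1], [0, 1]]),
  (1352, [[1, 1], [0, 1]]), (676, [[1, 1], [0, 1]]), (338, [[1, 1], [0, 1]]), (169, [[1, 1], [0,
  1]])]

theorem chk6_13 : chkV 13 169 11 6 8
    [[1, 1], [0, 1]]
    [[1, 1], [0, 1]]
    lv6_13 tabs6_13 5 = true := by
  decide +kernel

theorem bal6_13 : Bal 6 6 13 :=
  bal_of_vec (nm := 1) (n1 := 1) (ns := [1, 1, 1, 1, 1, 1, 1, 1, 1, 1, 1]) (v := 13) (by norm_num) (by norm_num)
    (by decide +kernel) (by norm_num) (by norm_num) (by norm_num) (by decide +kernel) rfl
    (by decide +kernel) (by decide +kernel) (by decide +kernel) (by decide +kernel) chk6_13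

end Halving
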