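import Mathlib

/-!
# Feasibility: parity of binomial coefficients and the window condition
-/

namespace Halving

/-- If `C(v, k)` is even then some residue of `v` is smaller than that of `k`. -/
theorem window_zero : ∀ v k : ℕ, k ≤ v → 2 ∣ v.choose k → ∃ n : ℕ, v % 2 ^ n < k % 2 ^ n := by
  intro v
  induction v using Nat.strong_induction_on with
  | _ v ih =>
    intro k hk h
    rcases Nat.eq_zero_or_pos v with hv | hv
    · subst hv
      have : k = 0 := by omega
      subst this
      norm_num at h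
    have hp : Fact (Nat.Prime 2) := ⟨Nat.prime_two⟩
    have h1 := Choose.choose_modEq_choose_mod_mul_choose_div_nat (n := v) (k := k) (p := 2)
    have h2 : 2 ∣ (v % 2).choose (k % 2) * (v / 2).choose (k / 2) :=
      (Nat.modEq_zero_iff_dvd.1 (h1.symm.trans (Nat.modEq_zero_iff_dvd.2 h)))
    rcases (Nat.Prime.dvd_mul Nat.prime_two).1 h2 with h3 | h3
    · refine ⟨1, ?_⟩
      rw [pow_one]
      have h4 := Nat.mod_lt v (show 0 < 2 by norm_num)
      have h5 := Nat.mod_lt k (show 0 < 2 by norm_num)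
      rcases Nat.lt_or_ge (v % 2) (k % 2) with h6 | h6
      · exact h6
      · exfalso
        have h7 : v % 2 = 0 ∨ v % 2 = 1 := by omega
        have h8 : k % 2 = 0 ∨ k % 2 = 1 := by omega
        rcases h7 with h7 | h7 <;> rcases h8 with h8 | h8
        · rw [h7, h8] at h3; norm_num at h3
        · omega
        · rw [h7, h8] at h3; norm_num at h3
        · rw [h7, h8] at h3; norm_num at h3
    · obtain ⟨n, hn⟩ := ih (v / 2) (by omega) (k / 2) (Nat.div_le_div_right hk) h3
      refine ⟨n + 1, ?_⟩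
      rw [pow_succ', Nat.mod_mul, Nat.mod_mul]
      have := Nat.mod_lt v (show 0 < 2 by norm_num)
      omega

/-- Feasible triples satisfy the window condition. -/
theorem window_of_feasible (t : ℕ) : ∀ v k : ℕ, t ≤ k → k ≤ v →
    (∀ i ≤ t, 2 ∣ (v - i).choose (k - i)) → ∃ n : ℕ, t ≤ v % 2 ^ n ∧ v % 2 ^ n < k % 2 ^ n := by
  induction t with
  | zero =>
    intro v k _ hk h
    obtain ⟨n, hn⟩ := window_zero v k hk (by simpa using h 0 le_rfl)
    exact ⟨n, Nat.zero_le _, hn⟩
  | succ t ih =>
    intro v k htk hk h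
    obtain ⟨n, hn1, hn2⟩ := ih v k (by omega) hk (fun i hi => h i (by omega))
    by_cases hc : t + 1 ≤ v % 2 ^ n
    · exact ⟨n, hc, hn2⟩
    have hvn : v % 2 ^ n = t := by omega
    obtain ⟨m, hm1, hm2⟩ := ih (v - 1) (k - 1) (by omega) (by omega) (by
      intro i hi
      have := h (i + 1) (by omega)
      rw [Nat.sub_sub, Nat.sub_sub, add_comm 1 i]
      exact this)
    have hMpos : 0 < 2 ^ m := by positivity
    have hv1 : v - 1 + 1 = v := by omega
    have hk1 : k - 1 + 1 = k := by omega
    have hlt := Nat.mod_lt (k - 1) hMpos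
    by_cases hk2 : (k - 1) % 2 ^ m + 1 < 2 ^ m
    · have e1 : k % 2 ^ m = (k - 1) % 2 ^ m + 1 := by
        conv_lhs => rw [← hk1]
        rw [Nat.add_mod]
        rw [Nat.mod_eq_of_lt (show 1 < 2 ^ m by omega), Nat.mod_eq_of_lt hk2]
      have e2 : v % 2 ^ m = (v - 1) % 2 ^ m + 1 := by
        conv_lhs => rw [← hv1]
        rw [Nat.add_mod]
        rw [Nat.mod_eq_of_lt (show 1 < 2 ^ m by omega), Nat.mod_eq_of_lt (by omega)]
      exact ⟨m, by omega, by omega⟩
    · exfalso
      have e1 : k % 2 ^ m = 0 := by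
        conv_lhs => rw [← hk1]
        rw [Nat.add_mod]
        have : (k - 1) % 2 ^ m = 2 ^ m - 1 := by omega
        rw [this]
        rcases Nat.eq_zero_or_pos m with h0 | h0
        · subst h0; simp [Nat.mod_one]
        · have : 1 < 2 ^ m := Nat.one_lt_two_pow (by omega)
          rw [Nat.mod_eq_of_lt this]
          have e : 2 ^ m - 1 + 1 = 2 ^ m := by omega
          rw [e, Nat.mod_self]
      have hnm : m < n := by
        by_contra hcon
        have hd : 2 ^ n ∣ k := (pow_dvd_pow 2 (by omega)).trans (Nat.dvd_of_mod_eq_zero e1)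
        rw [Nat.mod_eq_zero_of_dvd hd] at hn2
        omega
      have hd : 2 ^ m ∣ 2 ^ n := pow_dvd_pow 2 hnm.le
      have e2 : v % 2 ^ m = t % 2 ^ m := by
        rw [← hvn, Nat.mod_mod_of_dvd _ hd]
      have e3 := Nat.mod_lt (v - 1) hMpos
      have htM : t < 2 ^ m := by omega
      rw [Nat.mod_eq_of_lt htM] at e2
      have e4 : v % 2 ^ m = ((v - 1) % 2 ^ m + 1) % 2 ^ m := by
        conv_lhs => rw [← hv1]
        rw [Nat.add_mod]
        rcases Nat.eq_zero_or_pos m with h0 | h0
        · subst h0; simp [Nat.mod_one]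
        · rw [Nat.mod_eq_of_lt (Nat.one_lt_two_pow (by omega))]
      have h9 : (v - 1) % 2 ^ m + 1 < 2 ^ m := by omega
      rw [Nat.mod_eq_of_lt h9] at e4
      omega

end Halving
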