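import Pool.Agent.Halving.Ops

/-!
# Counting supersets; reduction to the sets `T` of the top size
-/

namespace Halving

open Finset

section top

variable {α : Type*} [DecidableEq α]

/-- Number of `s`-subsets of `A` containing `T`. -/
theorem card_super {A T : Finset α} (hT : T ⊆ A) (s : ℕ) :
    ((powersetCard s A).filter (T ⊆ ·)).card =
      if T.card ≤ s then (A.card - T.card).choose (s - T.card) else 0 := by
  split_ifs with h
  · have h1 : (powersetCard (s - T.card) (A \ T)).card
        = (A.card - T.card).choose (s - T.card) := by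
      rw [card_powersetCard, card_sdiff_of_subset hT]
    rw [← h1]
    refine card_nbij' (fun U => U \ T) (fun W => W ∪ T) ?_ ?_ ?_ ?_
    · intro U hU
      rw [mem_coe, mem_filter, mem_powersetCard] at hU
      rw [mem_coe, mem_powersetCard, card_sdiff_of_subset hU.2, hU.1.2]
      exact ⟨sdiff_subset_sdiff hU.1.1 (Subset.refl _), rfl⟩
    · intro W hW
      rw [mem_coe, mem_powersetCard] at hW
      have hd : Disjoint W T := disjoint_of_subset_left hW.1 sdiff_disjoint
      rw [mem_coe, mem_filter, mem_powersetCard, card_union_of_disjoint hd, hW.2]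
      refine ⟨⟨union_subset (hW.1.trans sdiff_subset) hT, by omega⟩, subset_union_right⟩
    · intro U hU
      rw [mem_coe, mem_filter] at hU
      exact sdiff_union_of_subset hU.2
    · intro W hW
      rw [mem_coe, mem_powersetCard] at hW
      have hd : Disjoint W T := disjoint_of_subset_left hW.1 sdiff_disjoint
      exact union_sdiff_cancel_right hd
  · rw [card_eq_zero, filter_eq_empty_iff]
    intro U hU hTU
    rw [mem_powersetCard] at hU
    have := card_le_card hTU
    omega

/-- It suffices to check the sets `T` of the top size. -/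
theorem sum_zero_of_top {t k : ℕ} {X : Finset α} (htk : t ≤ k) {f : Finset α → ℤ}
    (h : ∀ T ∈ powersetCard t X, ∑ S ∈ powersetCard k X with T ⊆ S, f S = 0) :
    ∀ T : Finset α, T.card < t + 1 → ∑ S ∈ powersetCard k X with T ⊆ S, f S = 0 := by
  have key : ∀ d ≤ t, ∀ T : Finset α, T ⊆ X → T.card = t - d →
      ∑ S ∈ powersetCard k X with T ⊆ S, f S = 0 := by
    intro d
    induction d with
    | zero =>
      intro _ T hTX hT
      exact h T (mem_powersetCard.2 ⟨hTX, by simpa using hT⟩)
    | succ d ih =>
      intro hd T hTX hT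
      have e1 : ∑ x ∈ X \ T, ∑ S ∈ powersetCard k X with insert x T ⊆ S, f S = 0 := by
        refine sum_eq_zero ?_
        intro x hx
        rw [mem_sdiff] at hx
        refine ih (by omega) _ (insert_subset hx.1 hTX) ?_
        rw [card_insert_of_notMem hx.2]
        omega
      have e2 : ∑ x ∈ X \ T, ∑ S ∈ powersetCard k X with insert x T ⊆ S, f S
          = ∑ S ∈ powersetCard k X with T ⊆ S, ((k : ℤ) - T.card) * f S := by
        have e3 : ∀ x ∈ X \ T, ∑ S ∈ powersetCard k X with insert x T ⊆ S, f S
            = ∑ S ∈ powersetCard k X with T ⊆ S, if x ∈ S then f S else 0 := by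
          intro x _
          rw [← sum_filter, filter_filter]
          refine sum_congr ?_ (fun _ _ => rfl)
          ext S
          simp only [mem_filter, insert_subset_iff]
          tauto
        rw [sum_congr rfl e3, sum_comm]
        refine sum_congr rfl ?_
        intro S hS
        rw [mem_filter, mem_powersetCard] at hS
        rw [← sum_filter, sum_const, nsmul_eq_mul]
        have e4 : (X \ T).filter (fun x => x ∈ S) = S \ T := by
          ext x
          simp only [mem_filter, mem_sdiff]
          constructor
          · rintro ⟨⟨-, h1⟩, h2⟩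
            exact ⟨h2, h1⟩
          · rintro ⟨h1, h2⟩
            exact ⟨⟨hS.1.1 h1, h2⟩, h1⟩
        rw [e4, card_sdiff_of_subset hS.2, hS.1.2]
        rw [Nat.cast_sub]
        rw [← hS.1.2]
        exact card_le_card hS.2
      rw [e1, ← mul_sum] at e2
      have h3 : (k : ℤ) - T.card ≠ 0 := by
        have : T.card < k := by omega
        omega
      rcases mul_eq_zero.1 e2.symm with h4 | h4
      · exact absurd h4 h3
      · exact h4
  intro T hT
  by_cases hTX : T ⊆ X
  · refine key (t - T.card) (by omega) T hTX (by omega)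
  · have : (powersetCard k X).filter (T ⊆ ·) = ∅ := by
      rw [filter_eq_empty_iff]
      intro S hS hTS
      exact hTX (hTS.trans (mem_powersetCard.1 hS).1)
    rw [this, sum_empty]

/-- Sum over `S` split by the trace on a part `A`. -/
theorem sum_part {A Y T : Finset α} (hd : Disjoint A Y) (hT : T ⊆ A ∪ Y) (k : ℕ)
    (F : ℕ → Finset α → ℕ) :
    ∑ S ∈ powersetCard k (A ∪ Y) with T ⊆ S, F (S ∩ A).card (S ∩ Y)
      = ∑ s ∈ range (A.card + 1), if s ≤ k then
          (if (T ∩ A).card ≤ s then (A.card - (T ∩ A).card).choose (s - (T ∩ A).card) else 0) *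
            ∑ S' ∈ powersetCard (k - s) Y with T ∩ Y ⊆ S', F s S' else 0 := by
  have hm : ∀ S ∈ (powersetCard k (A ∪ Y)).filter (T ⊆ ·), (S ∩ A).card ∈ range (A.card + 1) := by
    intro S _
    rw [mem_range]
    have := card_le_card (inter_subset_right : S ∩ A ⊆ A)
    omega
  rw [← sum_fiberwise_of_maps_to hm]
  refine sum_congr rfl ?_
  intro s _
  split_ifs with hs h2
  · have h3 := card_super (inter_subset_right : T ∩ A ⊆ A) s
    rw [if_pos h2] at h3
    rw [← h3, ← smul_eq_mul, ← sum_const]
    rw [← sum_product' (f := fun _ S' => F s S')]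
    refine sum_nbij' (fun S => (S ∩ A, S ∩ Y)) (fun p => p.1 ∪ p.2) ?_ ?_ ?_ ?_ ?_
    · intro S hS
      rw [mem_filter, mem_filter, mem_powersetCard] at hS
      obtain ⟨⟨⟨hSX, hSc⟩, hTS⟩, hSs⟩ := hS
      have hu : S = (S ∩ A) ∪ (S ∩ Y) := by
        rw [← inter_union_distrib_left, inter_eq_left.2 hSX]
      have hdd : Disjoint (S ∩ A) (S ∩ Y) := hd.mono inter_subset_right inter_subset_right
      have hc : S.card = (S ∩ A).card + (S ∩ Y).card := by
        rw [← card_union_of_disjoint hdd, ← hu]
      rw [mem_product, mem_filter, mem_filter, mem_powersetCard, mem_powersetCard]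
      refine ⟨⟨⟨inter_subset_right, hSs⟩, inter_subset_inter_right hTS⟩,
        ⟨⟨inter_subset_right, ?_⟩, inter_subset_inter_right hTS⟩⟩
      show (S ∩ Y).card = k - s
      omega
    · intro p hp
      rw [mem_product, mem_filter, mem_filter, mem_powersetCard, mem_powersetCard] at hp
      obtain ⟨⟨⟨h1, h1c⟩, hT1⟩, ⟨⟨h4, h4c⟩, hT4⟩⟩ := hp
      have hdd : Disjoint p.1 p.2 := hd.mono h1 h4
      rw [mem_filter, mem_filter, mem_powersetCard]
      refine ⟨⟨⟨union_subset_union h1 h4, ?_⟩, ?_⟩, ?_⟩
      · show (p.1 ∪ p.2).card = k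
        rw [card_union_of_disjoint hdd, h1c, h4c]
        omega
      · intro x hx
        rcases mem_union.1 (hT hx) with h | h
        · exact mem_union_left _ (hT1 (mem_inter.2 ⟨hx, h⟩))
        · exact mem_union_right _ (hT4 (mem_inter.2 ⟨hx, h⟩))
      · show ((p.1 ∪ p.2) ∩ A).card = s
        have : (p.1 ∪ p.2) ∩ A = p.1 := by
          ext x
          simp only [mem_inter, mem_union]
          constructor
          · rintro ⟨h | h, hA⟩
            · exact h
            · exact absurd (h4 h) (disjoint_left.1 hd hA)
          · intro h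
            exact ⟨Or.inl h, h1 h⟩
        rw [this, h1c]
    · intro S hS
      rw [mem_filter, mem_filter, mem_powersetCard] at hS
      show (S ∩ A) ∪ (S ∩ Y) = S
      rw [← inter_union_distrib_left, inter_eq_left.2 hS.1.1.1]
    · intro p hp
      rw [mem_product, mem_filter, mem_filter, mem_powersetCard, mem_powersetCard] at hp
      obtain ⟨⟨⟨h1, h1c⟩, hT1⟩, ⟨⟨h4, h4c⟩, hT4⟩⟩ := hp
      refine Prod.ext ?_ ?_
      · show (p.1 ∪ p.2) ∩ A = p.1
        ext x
        simp only [mem_inter, mem_union]
        constructor
        · rintro ⟨h | h, hA⟩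
          · exact h
          · exact absurd (h4 h) (disjoint_left.1 hd hA)
        · intro h
          exact ⟨Or.inl h, h1 h⟩
      · show (p.1 ∪ p.2) ∩ Y = p.2
        ext x
        simp only [mem_inter, mem_union]
        constructor
        · rintro ⟨h | h, hA⟩
          · exact absurd hA (disjoint_left.1 hd (h1 h))
          · exact h
        · intro h
          exact ⟨Or.inr h, h4 h⟩
    · intro S hS
      rw [mem_filter] at hS
      show F (S ∩ A).card (S ∩ Y) = F s (S ∩ Y)
      rw [hS.2]
  · rw [zero_mul]
    refine sum_eq_zero ?_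
    intro S hS
    exfalso
    rw [mem_filter, mem_filter] at hS
    have := card_le_card (inter_subset_inter_right hS.1.2 : T ∩ A ⊆ S ∩ A)
    omega
  · refine sum_eq_zero ?_
    intro S hS
    exfalso
    rw [mem_filter, mem_filter, mem_powersetCard] at hS
    have := card_le_card (inter_subset_left : S ∩ A ⊆ S)
    omega

end top

end Halving
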