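import Pool.Agent.Halving.Rec
import Pool.Agent.Halving.Feas
import Pool.Agent.Halving.Top

/-!
# Feasibility of windows; translation of signings into designs
-/

namespace Halving

open Finset

/-- The window condition implies that the binomial coefficient is even. -/
theorem even_of_window' (n : ℕ) : ∀ v k : ℕ, v % 2 ^ n < k % 2 ^ n → 2 ∣ v.choose k := by
  induction n with
  | zero =>
    intro v k h
    rw [pow_zero, Nat.mod_one, Nat.mod_one] at h
    omega
  | succ n ih =>
    intro v k h
    have hp : Fact (Nat.Prime 2) := ⟨Nat.prime_two⟩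
    have h1 := Choose.choose_modEq_choose_mod_mul_choose_div_nat (n := v) (k := k) (p := 2)
    refine Nat.modEq_zero_iff_dvd.1 (h1.trans (Nat.modEq_zero_iff_dvd.2 ?_))
    rw [pow_succ', Nat.mod_mul, Nat.mod_mul] at h
    rcases Nat.lt_or_ge (v / 2 % 2 ^ n) (k / 2 % 2 ^ n) with h2 | h2
    · exact Dvd.dvd.mul_left (ih _ _ h2) _
    · have h3 := Nat.mod_lt v (show 0 < 2 by norm_num)
      have h4 := Nat.mod_lt k (show 0 < 2 by norm_num)
      have h5 : v % 2 = 0 := by omega
      have h6 : k % 2 = 1 := by omega
      rw [h5, h6]
      simp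

/-- Feasibility from the window condition. -/
theorem feasible_of_window' {t v k n : ℕ} (h1 : t ≤ v % 2 ^ n) (h2 : v % 2 ^ n < k % 2 ^ n) :
    ∀ i ≤ t, 2 ∣ (v - i).choose (k - i) := by
  intro i hi
  refine even_of_window' n _ _ ?_
  rw [mod_sub_of_lt (by omega), mod_sub_of_lt (by omega)]
  omega

/-- Translation into designs. -/
theorem large_set_iff' {t k v : ℕ} (htk : t ≤ k) (hkv : k ≤ v) :
    (∃ B₁ B₂ : Finset (Finset (Fin v)), Disjoint B₁ B₂ ∧
      B₁ ∪ B₂ = (Finset.univ : Finset (Fin v)).powersetCard k ∧
      ∃ lam : ℕ, ∀ T : Finset (Fin v), T.card = t →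
        (B₁.filter (fun b => T ⊆ b)).card = lam ∧
        (B₂.filter (fun b => T ⊆ b)).card = lam) ↔ Bal (t + 1) k v := by
  constructor
  · rintro ⟨B₁, B₂, hd, hu, lam, hlam⟩
    refine Bal.of (X := (univ : Finset (Fin v))) ?_ (by simp)
    refine ⟨fun S => if S ∈ B₁ then 1 else -1, ?_, ?_⟩
    · intro S _
      by_cases h : S ∈ B₁
      · simp [h]
      · simp [h]
    · refine sum_zero_of_top htk ?_
      intro T hT
      rw [mem_powersetCard] at hT
      obtain ⟨h1, h2⟩ := hlam T hT.2
      rw [← hu, filter_union, sum_union (disjoint_filter_filter hd)]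
      have e1 : ∑ S ∈ B₁.filter (T ⊆ ·), (if S ∈ B₁ then (1 : ℤ) else -1) = lam := by
        rw [← h1, card_eq_sum_ones, Nat.cast_sum]
        refine sum_congr rfl ?_
        intro S hS
        rw [if_pos (mem_filter.1 hS).1]
        simp
      have e2 : ∑ S ∈ B₂.filter (T ⊆ ·), (if S ∈ B₁ then (1 : ℤ) else -1) = -lam := by
        rw [← h2, card_eq_sum_ones, Nat.cast_sum, ← sum_neg_distrib]
        refine sum_congr rfl ?_
        intro S hS
        rw [if_neg (fun h => disjoint_left.1 hd h (mem_filter.1 hS).1)]
        simp
      rw [e1, e2]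
      ring
  · intro hb
    obtain ⟨f, hf, hf'⟩ := hb.to (univ : Finset (Fin v)) (by simp)
    refine ⟨(powersetCard k univ).filter (fun S => f S = 1),
      (powersetCard k univ).filter (fun S => ¬ f S = 1), ?_, ?_, ?_⟩
    · exact disjoint_filter_filter_not _ _ _
    · exact filter_union_filter_not_eq _ _
    · have key : ∀ T : Finset (Fin v), T.card = t →
          (((powersetCard k univ).filter (fun S => f S = 1)).filter (fun b => T ⊆ b)).card
            = (((powersetCard k univ).filter (fun S => ¬ f S = 1)).filter
              (fun b => T ⊆ b)).card ∧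
          (((powersetCard k univ).filter (fun S => f S = 1)).filter (fun b => T ⊆ b)).card +
            (((powersetCard k univ).filter (fun S => ¬ f S = 1)).filter
              (fun b => T ⊆ b)).card = (v - t).choose (k - t) := by
        intro T hT
        have h1 := hf' T (by omega)
        have h2 := card_super (subset_univ T) k
        rw [card_univ, Fintype.card_fin, hT, if_pos htk] at h2
        rw [filter_comm, filter_comm (fun S => ¬ f S = 1)]
        rw [← sum_filter_add_sum_filter_not _ (fun S => f S = 1)] at h1
        have e1 : ∑ S ∈ ((powersetCard k univ).filter (T ⊆ ·)).filter (fun S => f S = 1), f S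
            = (((powersetCard k univ).filter (T ⊆ ·)).filter (fun S => f S = 1)).card := by
          rw [card_eq_sum_ones, Nat.cast_sum]
          refine sum_congr rfl ?_
          intro S hS
          rw [(mem_filter.1 hS).2]
          simp
        have e2 : ∑ S ∈ ((powersetCard k univ).filter (T ⊆ ·)).filter (fun S => ¬ f S = 1), f S
            = -(((powersetCard k univ).filter (T ⊆ ·)).filter (fun S => ¬ f S = 1)).card := by
          rw [card_eq_sum_ones, Nat.cast_sum, ← sum_neg_distrib]
          refine sum_congr rfl ?_
          intro S hS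
          rw [mem_filter, mem_filter] at hS
          rcases hf S hS.1.1 with h | h
          · exact absurd h hS.2
          · rw [h]; simp
        rw [e1, e2] at h1
        refine ⟨by omega, ?_⟩
        rw [← h2]
        exact card_filter_add_card_filter_not _
      refine ⟨(v - t).choose (k - t) / 2, ?_⟩
      intro T hT
      obtain ⟨h1, h2⟩ := key T hT
      constructor <;> omega

/-- Feasibility is necessary. -/
theorem feasible_of_bal' {t k v : ℕ} (htk : t ≤ k) (hkv : k ≤ v) (h : Bal (t + 1) k v) :
    ∀ i ≤ t, 2 ∣ (v - i).choose (k - i) := by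
  intro i hi
  obtain ⟨T, hT⟩ : ∃ T : Finset ℕ, T ∈ powersetCard i (range v) := by
    have : (powersetCard i (range v)).Nonempty := by
      rw [powersetCard_nonempty, card_range]; omega
    exact this
  rw [mem_powersetCard] at hT
  obtain ⟨f, hf, hf'⟩ := h
  have h1 := hf' T (by omega)
  have h2 := card_super hT.1 k
  rw [card_range, hT.2, if_pos (by omega)] at h2
  rw [← h2]
  have h3 : (((powersetCard k (range v)).filter (T ⊆ ·)).card : ℤ)
      = 2 * (((powersetCard k (range v)).filter (T ⊆ ·)).filter (fun S => f S = 1)).card := by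
    have h4 : ∑ S ∈ (powersetCard k (range v)).filter (T ⊆ ·), (f S + 1)
        = ((powersetCard k (range v)).filter (T ⊆ ·)).card := by
      rw [sum_add_distrib, h1, zero_add, sum_const, nsmul_eq_mul, mul_one]
    rw [← h4, ← sum_filter_add_sum_filter_not _ (fun S => f S = 1)]
    have e1 : ∑ S ∈ ((powersetCard k (range v)).filter (T ⊆ ·)).filter (fun S => f S = 1),
        (f S + 1) = 2 * (((powersetCard k (range v)).filter (T ⊆ ·)).filter
          (fun S => f S = 1)).card := by
      rw [sum_congr rfl (g := fun _ => (2 : ℤ))]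
      · rw [sum_const, nsmul_eq_mul, mul_comm]
      · intro S hS
        rw [(mem_filter.1 hS).2]
        norm_num
    have e2 : ∑ S ∈ ((powersetCard k (range v)).filter (T ⊆ ·)).filter (fun S => ¬ f S = 1),
        (f S + 1) = 0 := by
      refine sum_eq_zero ?_
      intro S hS
      rw [mem_filter, mem_filter] at hS
      rcases hf S hS.1.1 with h | h
      · exact absurd h hS.2
      · rw [h]; norm_num
    rw [e1, e2, add_zero]
  refine ⟨(((powersetCard k (range v)).filter (T ⊆ ·)).filter (fun S => f S = 1)).card, ?_⟩
  exact_mod_cast h3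

end Halving
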