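import Pool.Agent.Halving.Four
import Pool.Agent.Halving.Avg

/-!
# The energy criterion
-/

namespace Halving

open Finset

section energy

variable {α : Type*} [DecidableEq α]

/-- the distance to the nearest integer -/
noncomputable def nint (x : ℝ) : ℝ := |x - round x|

theorem nint_nonneg (x : ℝ) : 0 ≤ nint x := abs_nonneg _

theorem abs_cos_le (x : ℝ) : |Real.cos (Real.pi * x)| ≤ Real.exp (-(2 * nint x ^ 2)) := by
  have e : Real.pi * x = Real.pi * (x - round x) + (round x : ℤ) * Real.pi := by
    ring
  have h1 : |Real.cos (Real.pi * x)| = |Real.cos (Real.pi * (x - round x))| := by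
    rw [e, Real.cos_add_int_mul_pi, abs_mul, abs_zpow, abs_neg, abs_one, one_zpow, one_mul]
  have h3 : |x - round x| ≤ 1 / 2 := abs_sub_round _
  have hpi := Real.pi_pos
  have h4 : |Real.pi * (x - round x)| ≤ Real.pi / 2 := by
    rw [abs_mul, abs_of_pos hpi]
    nlinarith
  have h5 : 0 ≤ Real.cos (Real.pi * (x - round x)) := by
    refine Real.cos_nonneg_of_mem_Icc ?_
    rw [abs_le] at h4
    exact ⟨by linarith [h4.1], h4.2⟩
  rw [h1, abs_of_nonneg h5]
  have h6 : Real.cos (Real.pi * (x - round x)) ≤ 1 - 2 * (x - round x) ^ 2 := by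
    refine (Real.cos_le_one_sub_mul_cos_sq (h4.trans (by linarith))).trans ?_
    apply le_of_eq
    field_simp
  have h7 : nint x ^ 2 = (x - round x) ^ 2 := sq_abs _
  rw [h7]
  have h8 := Real.add_one_le_exp (-(2 * (x - round x) ^ 2))
  linarith

omit [DecidableEq α] in
/-- If the energy is large the product of cosines is small. -/
theorem prod_small_energy (F : Finset (Finset α)) (G : Finset α → ℝ) {E : ℝ}
    (hE : E ≤ ∑ S ∈ F, nint (G S) ^ 2) :
    |∏ S ∈ F, (2 * Real.cos (Real.pi * G S))| ≤ 2 ^ F.card * Real.exp (-(2 * E)) := by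
  rw [prod_mul_distrib, prod_const, abs_mul, abs_of_pos (by positivity : (0 : ℝ) < 2 ^ F.card),
    abs_prod]
  refine mul_le_mul_of_nonneg_left ?_ (by positivity)
  calc ∏ S ∈ F, |Real.cos (Real.pi * G S)|
      ≤ ∏ S ∈ F, Real.exp (-(2 * nint (G S) ^ 2)) :=
        prod_le_prod (fun S _ => abs_nonneg _) (fun S _ => abs_cos_le _)
    _ = Real.exp (∑ S ∈ F, -(2 * nint (G S) ^ 2)) := (Real.exp_sum _ _).symm
    _ ≤ Real.exp (-(2 * E)) := by
        apply Real.exp_le_exp.2
        rw [sum_neg_distrib, ← mul_sum]
        linarith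

/-- If the energy is small the product of cosines is nonnegative. -/
theorem prod_nonneg_of_energy {t k b r : ℕ} {X : Finset α} {w : ℕ → ℤ}
    (hw : IsDec r (t + 1) w) (c : Finset α → ℝ)
    (hfeas : ∀ i ≤ t, 2 ∣ (X.card - i).choose (k - i)) (htk : t + 1 ≤ k)
    (hk : r * b ≤ k) (hv : r * b ≤ X.card - k) {E : ℝ}
    (hE : ∑ S ∈ powersetCard k X, nint (poly (t + 1) c S) ^ 2 ≤ E)
    (hsum : 2 ^ (t + 1) * ∑ I : Finset (Fin r), |(w I.card : ℝ)| * Real.sqrt (E /
      ((k.choose (b * I.card) : ℝ) * ((X.card - k).choose (b * I.card) : ℝ))) < 1) :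
    0 ≤ ∏ S ∈ powersetCard k X, (2 * Real.cos (Real.pi * poly (t + 1) c S)) := by
  classical
  obtain ⟨G, hG⟩ : ∃ G : Finset α → ℝ, G = poly (t + 1) c := ⟨_, rfl⟩
  rw [← hG] at hE
  rw [← hG]
  obtain ⟨R, hR⟩ : ∃ R : ℝ, R = ∑ I : Finset (Fin r), |(w I.card : ℝ)| * Real.sqrt (E /
      ((k.choose (b * I.card) : ℝ) * ((X.card - k).choose (b * I.card) : ℝ))) := ⟨_, rfl⟩
  rw [← hR] at hsum
  -- every set is close to an integer
  have hclose : ∀ S ∈ powersetCard k X, |G S - round (G S)| ≤ R := by
    intro S hS
    rw [mem_powersetCard] at hS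
    have hcS : (X \ S).card = X.card - k := by rw [card_sdiff_of_subset hS.1, hS.2]
    have hrep : ∀ (W : Finset S) (W' : Finset (X \ S : Finset α)), W.card = W'.card →
        rep S (X \ S) W W' ∈ powersetCard k X := by
      intro W W' hWW
      rw [mem_powersetCard]
      unfold rep
      have h1 : W.map (Function.Embedding.subtype _) ⊆ S := by
        intro x hx
        simp only [mem_map] at hx
        obtain ⟨y, -, rfl⟩ := hx
        exact y.2
      have h2 : W'.map (Function.Embedding.subtype _) ⊆ X \ S := by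
        intro x hx
        simp only [mem_map] at hx
        obtain ⟨y, -, rfl⟩ := hx
        exact y.2
      refine ⟨union_subset (sdiff_subset.trans hS.1) (h2.trans sdiff_subset), ?_⟩
      rw [card_union_of_disjoint, card_sdiff_of_subset h1, card_map, card_map, hS.2, ← hWW]
      · have h3 := card_le_card h1
        rw [card_map, hS.2] at h3
        omega
      · exact disjoint_of_subset_left sdiff_subset (disjoint_of_subset_right h2 disjoint_sdiff)
    obtain ⟨B, C, hB, hC, hBd, hCd, hBc, hCc, hgood⟩ := exists_blocks_energy (S := S)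
      (S' := X \ S) disjoint_sdiff (r := r) (b := b) (by rw [hS.2]; exact hk)
      (by rw [hcS]; exact hv) (powersetCard k X) (fun Z => nint (G Z)) hrep hE
      (fun m => |(w m : ℝ)|) (fun m => abs_nonneg _)
    rw [hS.2, hcS, ← hR] at hgood
    have hBC : ∀ i j, Disjoint (B i) (C j) := by
      intro i j
      exact disjoint_of_subset_left (hB i) (disjoint_of_subset_right (hC j) disjoint_sdiff)
    have hdisj : ∀ i j, i ≠ j → Disjoint (B i ∪ C i) (B j ∪ C j) := by
      intro i j hij
      rw [disjoint_union_left, disjoint_union_right, disjoint_union_right]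
      exact ⟨⟨hBd i j hij, hBC i j⟩, ⟨(hBC j i).symm, hCd i j hij⟩⟩
    have hIC : ∀ I : Finset (Fin r), I.biUnion C ⊆ X \ S := by
      intro I
      rw [biUnion_subset]
      exact fun i _ => hC i
    have hsX : ∀ I, swp B C S I ⊆ X := by
      intro I
      unfold swp
      exact union_subset (sdiff_subset.trans hS.1) ((hIC I).trans sdiff_subset)
    have hdec := dec_poly (c := c) hw (S := S) (X := X) hdisj hsX
    rw [← hG] at hdec
    obtain ⟨m, hm⟩ : ∃ m : ℤ, m = ∑ I : Finset (Fin r),
        w I.card * round (G (swp B C S I)) := ⟨_, rfl⟩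
    refine (round_le (G S) m).trans ?_
    have h1 : G S - m = ∑ I : Finset (Fin r),
        (w I.card : ℝ) * (G (swp B C S I) - round (G (swp B C S I))) := by
      rw [hm, ← hdec]
      push_cast
      simp only [mul_sub, sum_sub_distrib]
    rw [h1]
    refine (abs_sum_le_sum_abs _ _).trans (le_trans (le_of_eq ?_) hgood)
    refine sum_congr rfl ?_
    intro I _
    rw [abs_mul]
    rfl
  -- the rounded function is a polynomial with integer coefficients
  have hk' : k - (t + 1) + (t + 1) = k := by omega
  have hvG : Van (t + 1) (k - (t + 1)) X G := by rw [hG]; exact van_poly X c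
  have hvn : Van (t + 1) (k - (t + 1)) X (fun S => round (G S)) := by
    refine van_round (G := G) (δ := R) ?_ hvG ?_
    · rw [hk']; exact hclose
    · exact hsum
  obtain ⟨c', hc'⟩ := poly_of_van X.card X rfl (t + 1) (k - (t + 1)) _ hvn
  rw [hk'] at hc'
  -- parity
  have hpar : Even (∑ S ∈ powersetCard k X, round (G S)) := by
    rw [sum_congr rfl hc']
    unfold poly
    have h1 : ∀ S ∈ powersetCard k X, (∑ T ∈ S.powerset with T.card < t + 1, c' T)
        = ∑ T ∈ X.powerset with T.card < t + 1, if T ⊆ S then c' T else 0 := by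
      intro S hS
      rw [mem_powersetCard] at hS
      rw [← sum_filter]
      refine sum_congr ?_ (fun _ _ => rfl)
      ext T
      simp only [mem_filter, mem_powerset]
      constructor
      · rintro ⟨h1, h2⟩
        exact ⟨⟨h1.trans hS.1, h2⟩, h1⟩
      · rintro ⟨⟨-, h2⟩, h3⟩
        exact ⟨h3, h2⟩
    rw [sum_congr rfl h1, sum_comm]
    refine Finset.even_sum _ ?_
    intro T hT
    rw [mem_filter, mem_powerset] at hT
    rw [← sum_filter, sum_const, card_super hT.1, if_pos (by omega), nsmul_eq_mul]
    refine Even.mul_right ?_ _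
    have := hfeas T.card (by omega)
    exact_mod_cast (even_iff_two_dvd.2 this)
  have hfac : ∀ S ∈ powersetCard k X, 2 * Real.cos (Real.pi * G S) =
      (-1 : ℝ) ^ (round (G S)) * (2 * Real.cos (Real.pi * (G S - round (G S)))) := by
    intro S _
    have e : Real.pi * G S = Real.pi * (G S - round (G S)) + (round (G S) : ℤ) * Real.pi := by
      ring
    rw [e, Real.cos_add_int_mul_pi]
    ring
  rw [prod_congr rfl hfac, prod_mul_distrib, prod_neg_one_zpow, Even.neg_one_zpow hpar, one_mul]
  refine prod_nonneg ?_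
  intro S _
  refine mul_nonneg (by norm_num) ?_
  refine Real.cos_nonneg_of_mem_Icc ?_
  have h3 : |G S - round (G S)| ≤ 1 / 2 := abs_sub_round _
  have hpi := Real.pi_pos
  rw [abs_le] at h3
  constructor
  · nlinarith [h3.1]
  · nlinarith [h3.2]

/-- The energy criterion for the existence of a signing. -/
theorem solv_of_energy {t k b r q : ℕ} {X : Finset α} {w : ℕ → ℤ}
    (hw : IsDec r (t + 1) w)
    (hfeas : ∀ i ≤ t, 2 ∣ (X.card - i).choose (k - i)) (htk : t + 1 ≤ k)
    (hk : r * b ≤ k) (hv : r * b ≤ X.card - k)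
    (hq : X.card.choose k < q) {E : ℝ}
    (hsum : 2 ^ (t + 1) * ∑ I : Finset (Fin r), |(w I.card : ℝ)| * Real.sqrt (E /
      ((k.choose (b * I.card) : ℝ) * ((X.card - k).choose (b * I.card) : ℝ))) < 1)
    (hE2 : (q : ℝ) ^ (X.card.choose t) * Real.exp (-(2 * E)) < 1) :
    Solv (t + 1) (powersetCard k X) := by
  classical
  by_contra hcon
  have hq0 : 0 < q := by omega
  have : NeZero q := ⟨hq0.ne'⟩
  -- no solution
  have hno : ∀ ε : ↥(powersetCard k X) → Bool, ∃ T : ↥(powersetCard t X),
      (∑ S : ↥(powersetCard k X), if (T : Finset α) ⊆ S then sg (ε S) else 0) ≠ 0 ∧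
      |∑ S : ↥(powersetCard k X), if (T : Finset α) ⊆ S then sg (ε S) else 0| < q := by
    intro ε
    by_contra hc2
    have hbd : ∀ T : ↥(powersetCard t X),
        |∑ S : ↥(powersetCard k X), if (T : Finset α) ⊆ S then sg (ε S) else 0| < q := by
      intro T
      refine lt_of_le_of_lt (abs_sum_le_sum_abs _ _) ?_
      have h1 : ∑ S : ↥(powersetCard k X), |if (T : Finset α) ⊆ S then sg (ε S) else 0|
          ≤ ∑ _S : ↥(powersetCard k X), (1 : ℤ) := by
        refine sum_le_sum ?_
        intro S _
        split_ifs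
        · unfold sg
          split_ifs <;> simp
        · simp
      refine lt_of_le_of_lt h1 ?_
      rw [sum_const, card_univ, Fintype.card_coe, card_powersetCard, nsmul_eq_mul, mul_one]
      exact_mod_cast hq
    have hz : ∀ T : ↥(powersetCard t X),
        (∑ S : ↥(powersetCard k X), if (T : Finset α) ⊆ S then sg (ε S) else 0) = 0 := by
      intro T
      by_contra h1
      exact hc2 ⟨T, h1, hbd T⟩
    apply hcon
    refine ⟨fun S => if h : S ∈ powersetCard k X then sg (ε ⟨S, h⟩) else 1, ?_, ?_⟩
    · intro S hS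
      simp only [hS, dif_pos]
      unfold sg
      split_ifs
      · left; rfl
      · right; rfl
    · refine sum_zero_of_top (by omega) ?_
      intro T hT
      have h1 := hz ⟨T, hT⟩
      rw [sum_filter, ← sum_coe_sort]
      refine Eq.trans ?_ h1
      refine sum_congr rfl ?_
      intro S _
      simp only [coe_mem, dif_pos]
  have hfour := fourier_zero (fun (T : ↥(powersetCard t X)) (S : ↥(powersetCard k X)) =>
    (T : Finset α) ⊆ S) q hq0 hno
  -- positivity
  have hpos : 0 < ∑ θ : ↥(powersetCard t X) → Fin q, ∏ S : ↥(powersetCard k X),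
      (2 * Real.cos (Real.pi * (∑ T : ↥(powersetCard t X),
        if (T : Finset α) ⊆ S then 2 * ((θ T : ℕ) : ℝ) / q else 0))) := by
    refine sum_pos_of_small _ (fun _ => ⟨0, hq0⟩) (2 ^ (powersetCard k X).card)
      (Real.exp (-(2 * E))) (by positivity) (Real.exp_pos _).le ?_ ?_ ?_
    · simp
    · intro θ
      -- the associated polynomial
      obtain ⟨c, hc⟩ : ∃ c : Finset α → ℝ, c = fun T =>
          if h : T ∈ powersetCard t X then 2 * ((θ ⟨T, h⟩ : ℕ) : ℝ) / q else 0 := ⟨_, rfl⟩
      have hpoly : ∀ S ∈ powersetCard k X, poly (t + 1) c S = ∑ T : ↥(powersetCard t X),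
          if (T : Finset α) ⊆ S then 2 * ((θ T : ℕ) : ℝ) / q else 0 := by
        intro S hS
        rw [mem_powersetCard] at hS
        have h1 : ∑ T : ↥(powersetCard t X),
            (if (T : Finset α) ⊆ S then 2 * ((θ T : ℕ) : ℝ) / q else 0)
            = ∑ T ∈ powersetCard t X, if T ⊆ S then c T else 0 := by
          rw [← sum_coe_sort (powersetCard t X) (fun T => if T ⊆ S then c T else 0)]
          refine sum_congr rfl ?_
          intro T _
          rw [hc]
          simp only [coe_mem, dif_pos]
        rw [h1, ← sum_filter]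
        unfold poly
        symm
        refine sum_subset ?_ ?_
        · intro T hT
          rw [mem_filter, mem_powersetCard] at hT
          rw [mem_filter, mem_powerset]
          exact ⟨hT.2, by omega⟩
        · intro T hT hT'
          rw [mem_filter, mem_powerset] at hT
          rw [hc]
          have : T ∉ powersetCard t X := by
            intro h
            exact hT' (mem_filter.2 ⟨h, hT.1⟩)
          simp only [this, dif_neg, not_false_eq_true]
      have hprod : ∏ S : ↥(powersetCard k X),
          (2 * Real.cos (Real.pi * (∑ T : ↥(powersetCard t X),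
            if (T : Finset α) ⊆ S then 2 * ((θ T : ℕ) : ℝ) / q else 0)))
          = ∏ S ∈ powersetCard k X, (2 * Real.cos (Real.pi * poly (t + 1) c S)) := by
        rw [← prod_coe_sort (powersetCard k X)
          (fun S => 2 * Real.cos (Real.pi * poly (t + 1) c S))]
        refine prod_congr rfl ?_
        intro S _
        rw [hpoly S S.2]
      rw [hprod]
      rcases le_total E (∑ S ∈ powersetCard k X, nint (poly (t + 1) c S) ^ 2) with hb | hb
      · right
        exact prod_small_energy _ _ hb
      · left
        exact prod_nonneg_of_energy hw c hfeas htk hk hv hb hsum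
    · rw [Fintype.card_fun, Fintype.card_fin, Fintype.card_coe, card_powersetCard]
      push_cast
      exact hE2
  rw [hfour] at hpos
  exact lt_irrefl _ hpos

end energy

end Halving
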