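import Pool.Agent.Halving.Ops

/-!
# Alltop's extension for halvings
A signing of even strength of the `k`-subsets of a `(2 k + 1)`-set extends to a signing of the
`(k + 1)`-subsets of a `(2 k + 2)`-set whose strength is larger by one.
-/

namespace Halving

open Finset

variable {α : Type*} [DecidableEq α]

/-- Sums of the complemented signing. -/
theorem compl_sum {k : ℕ} {X : Finset α} (hk : k ≤ X.card) (f : Finset α → ℤ) {T : Finset α}
    (hTX : T ⊆ X) :
    ∑ S ∈ powersetCard (X.card - k) X with T ⊆ S, f (X \ S)
      = ∑ U ∈ T.powerset, (-1) ^ U.card * ∑ S ∈ powersetCard k X with U ⊆ S, f S := by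
  have hmem : ∀ S ∈ powersetCard (X.card - k) X, X \ S ∈ powersetCard k X := by
    intro S hS
    rw [mem_powersetCard] at hS ⊢
    refine ⟨sdiff_subset, ?_⟩
    rw [card_sdiff_of_subset hS.1, hS.2]
    omega
  have hmem' : ∀ S ∈ powersetCard k X, X \ S ∈ powersetCard (X.card - k) X := by
    intro S hS
    rw [mem_powersetCard] at hS ⊢
    refine ⟨sdiff_subset, ?_⟩
    rw [card_sdiff_of_subset hS.1, hS.2]
  have e1 : ∑ S ∈ powersetCard (X.card - k) X with T ⊆ S, f (X \ S)
      = ∑ S ∈ powersetCard k X with T ∩ S = ∅, f S := by
    refine sum_nbij' (fun S => X \ S) (fun S => X \ S) ?_ ?_ ?_ ?_ ?_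
    · intro S hS
      rw [mem_filter] at hS ⊢
      refine ⟨hmem S hS.1, ?_⟩
      ext x
      simp only [mem_inter, mem_sdiff, notMem_empty, iff_false]
      rintro ⟨hx, -, hxS⟩
      exact hxS (hS.2 hx)
    · intro S hS
      rw [mem_filter] at hS ⊢
      refine ⟨hmem' S hS.1, ?_⟩
      intro x hx
      rw [mem_sdiff]
      refine ⟨hTX hx, fun hxS => ?_⟩
      have : x ∈ T ∩ S := mem_inter.2 ⟨hx, hxS⟩
      rw [hS.2] at this
      exact absurd this (notMem_empty x)
    · intro S hS
      rw [mem_filter, mem_powersetCard] at hS
      exact Finset.sdiff_sdiff_eq_self hS.1.1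
    · intro S hS
      rw [mem_filter, mem_powersetCard] at hS
      exact Finset.sdiff_sdiff_eq_self hS.1.1
    · intro S _
      rfl
  rw [e1, sum_filter]
  have e2 : ∀ S ∈ powersetCard k X, (if T ∩ S = ∅ then f S else 0)
      = ∑ U ∈ T.powerset, (-1) ^ U.card * (if U ⊆ S then f S else 0) := by
    intro S _
    have h3 : ∑ U ∈ T.powerset, (-1 : ℤ) ^ U.card * (if U ⊆ S then f S else 0)
        = ∑ U ∈ (T ∩ S).powerset, (-1 : ℤ) ^ U.card * f S := by
      have : (T ∩ S).powerset = T.powerset.filter (· ⊆ S) := by
        ext U
        simp only [mem_powerset, mem_filter, subset_inter_iff]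
      rw [this, sum_filter]
      refine sum_congr rfl ?_
      intro U _
      split_ifs <;> simp
    rw [h3, ← sum_mul, sum_powerset_neg_one_pow_card]
    split_ifs <;> simp
  rw [sum_congr rfl e2, sum_comm]
  refine sum_congr rfl ?_
  intro U _
  rw [← mul_sum, ← sum_filter]

/-- Alltop's extension. -/
theorem solv_alltop {r k : ℕ} (hr : Even r) {X : Finset α} (hX : X.card = 2 * k + 1) {x : α}
    (hx : x ∉ X) (h : Solv r (powersetCard k X)) :
    Solv (r + 1) (powersetCard (k + 1) (insert x X)) := by
  obtain ⟨f, hf, hf'⟩ := h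
  have hkk : X.card - k = k + 1 := by omega
  have hcs := fun (T : Finset α) (hT : T ⊆ X) => compl_sum (k := k) (by omega : k ≤ X.card) f hT
  rw [hkk] at hcs
  refine ⟨fun S => if x ∈ S then f (S.erase x) else - f (X \ S), ?_, ?_⟩
  · intro S hS
    rw [mem_powersetCard] at hS
    by_cases hxS : x ∈ S
    · simp only [hxS, if_true]
      refine hf _ ?_
      rw [mem_powersetCard, card_erase_of_mem hxS, hS.2]
      refine ⟨?_, by omega⟩
      rw [← subset_insert_iff]
      exact hS.1
    · simp only [hxS, if_false]
      have h1 : X \ S ∈ powersetCard k X := by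
        rw [mem_powersetCard]
        refine ⟨sdiff_subset, ?_⟩
        have hSX : S ⊆ X := by
          intro y hy
          rcases mem_insert.1 (hS.1 hy) with rfl | h
          · exact absurd hy hxS
          · exact h
        rw [card_sdiff_of_subset hSX, hS.2]
        omega
      rcases hf _ h1 with h2 | h2
      · right; rw [h2]
      · left; rw [h2]; norm_num
  · intro T hT
    by_cases hTX : T ⊆ insert x X
    swap
    · have : (powersetCard (k + 1) (insert x X)).filter (T ⊆ ·) = ∅ := by
        rw [filter_eq_empty_iff]
        intro S hS hTS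
        exact hTX (hTS.trans (mem_powersetCard.1 hS).1)
      rw [this, sum_empty]
    rw [← sum_filter_add_sum_filter_not _ (fun S => x ∈ S)]
    -- blocks through `x`
    have e1 : ∑ S ∈ ((powersetCard (k + 1) (insert x X)).filter (T ⊆ ·)).filter
        (fun S => x ∈ S), (if x ∈ S then f (S.erase x) else - f (X \ S))
        = ∑ S ∈ powersetCard k X with T.erase x ⊆ S, f S := by
      refine sum_nbij' (fun S => S.erase x) (fun S => insert x S) ?_ ?_ ?_ ?_ ?_
      · intro S hS
        simp only [mem_filter, mem_powersetCard] at hS ⊢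
        obtain ⟨⟨⟨h1, h2⟩, h3⟩, h4⟩ := hS
        refine ⟨⟨?_, ?_⟩, erase_subset_erase _ h3⟩
        · rw [← subset_insert_iff]; exact h1
        · rw [card_erase_of_mem h4, h2]; omega
      · intro S hS
        simp only [mem_filter, mem_powersetCard] at hS ⊢
        obtain ⟨⟨h1, h2⟩, h3⟩ := hS
        refine ⟨⟨⟨insert_subset_insert _ h1, ?_⟩, ?_⟩, mem_insert_self _ _⟩
        · rw [card_insert_of_notMem (fun h => hx (h1 h)), h2]
        · rw [subset_insert_iff]; exact h3
      · intro S hS
        exact insert_erase (mem_filter.1 hS).2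
      · intro S hS
        simp only [mem_filter, mem_powersetCard] at hS
        exact erase_insert (fun h => hx (hS.1.1 h))
      · intro S hS
        rw [if_pos (mem_filter.1 hS).2]
    rw [e1]
    by_cases hxT : x ∈ T
    · have h1 : (T.erase x).card < r := by
        rw [card_erase_of_mem hxT]
        have := card_pos.2 ⟨x, hxT⟩
        omega
      rw [hf' _ h1, zero_add]
      have h2 : ((powersetCard (k + 1) (insert x X)).filter (T ⊆ ·)).filter
          (fun S => ¬ x ∈ S) = ∅ := by
        rw [filter_eq_empty_iff]
        intro S hS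
        rw [not_not]
        exact (mem_filter.1 hS).2 hxT
      rw [h2, sum_empty]
    · rw [erase_eq_of_notMem hxT]
      have hTX' : T ⊆ X := by
        intro y hy
        rcases mem_insert.1 (hTX hy) with rfl | h
        · exact absurd hy hxT
        · exact h
      have e2 : ∑ S ∈ ((powersetCard (k + 1) (insert x X)).filter (T ⊆ ·)).filter
          (fun S => ¬ x ∈ S), (if x ∈ S then f (S.erase x) else - f (X \ S))
          = - ∑ S ∈ powersetCard (k + 1) X with T ⊆ S, f (X \ S) := by
        rw [← sum_neg_distrib]
        refine sum_congr ?_ ?_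
        · ext S
          simp only [mem_filter, mem_powersetCard]
          constructor
          · rintro ⟨⟨⟨h1, h2⟩, h3⟩, h4⟩
            refine ⟨⟨?_, h2⟩, h3⟩
            intro y hy
            rcases mem_insert.1 (h1 hy) with rfl | h
            · exact absurd hy h4
            · exact h
          · rintro ⟨⟨h1, h2⟩, h3⟩
            exact ⟨⟨⟨h1.trans (subset_insert _ _), h2⟩, h3⟩, fun h => hx (h1 h)⟩
        · intro S hS
          simp only [mem_filter, mem_powersetCard] at hS
          rw [if_neg (fun h => hx (hS.1.1 h))]
      rw [e2, hcs T hTX']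
      -- all terms but the last vanish
      have e3 : ∑ U ∈ T.powerset, (-1 : ℤ) ^ U.card * ∑ S ∈ powersetCard k X with U ⊆ S, f S
          = (-1) ^ T.card * ∑ S ∈ powersetCard k X with T ⊆ S, f S := by
        refine sum_eq_single T ?_ ?_
        · intro U hU hUT
          have h4 : U.card < r := by
            have := card_lt_card (ssubset_of_subset_of_ne (mem_powerset.1 hU) hUT)
            omega
          rw [hf' U h4, mul_zero]
        · intro h
          exact absurd (mem_powerset_self T) h
      rw [e3]
      rcases Nat.lt_or_ge T.card r with h | h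
      · rw [hf' T h]; simp
      · have h3 : T.card = r := by omega
        rw [h3, Even.neg_one_pow hr]
        ring

/-- Alltop's extension for the standard sets. -/
theorem Bal.alltop {r k : ℕ} (hr : Even r) (h : Bal r k (2 * k + 1)) :
    Bal (r + 1) (k + 1) (2 * k + 2) := by
  unfold Bal
  have e : 2 * k + 2 = (2 * k + 1) + 1 := rfl
  rw [e, range_add_one]
  exact solv_alltop hr (card_range _) notMem_range_self h

end Halving
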