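import Pool.Agent.Halving.Pos

/-!
# Finite Fourier analysis: existence of a signing
-/

namespace Halving

open Finset

/-- sign of a Boolean -/
def sg (b : Bool) : ℤ := if b then 1 else -1

theorem two_cos_eq (x : ℝ) : ((2 * Real.cos (Real.pi * x) : ℝ) : ℂ)
    = ∑ b : Bool, Complex.exp ((sg b : ℂ) * (Real.pi * x) * Complex.I) := by
  rw [Fintype.sum_bool]
  simp only [sg, if_true, Bool.false_eq_true, if_false]
  push_cast
  rw [Complex.cos]
  rw [one_mul, mul_div_cancel₀ _ (two_ne_zero)]
  congr 1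
  rw [neg_one_mul]

/-- Orthogonality: if the divergences never vanish simultaneously, the sum of the products of
cosines vanishes. -/
theorem fourier_zero {κ ι : Type*} [Fintype κ] [Fintype ι] [DecidableEq κ] [DecidableEq ι]
    (inc : ι → κ → Prop) [∀ T S, Decidable (inc T S)] (q : ℕ) (hq : 0 < q)
    (hno : ∀ ε : κ → Bool, ∃ T : ι, (∑ S : κ, if inc T S then sg (ε S) else 0) ≠ 0 ∧
      |∑ S : κ, if inc T S then sg (ε S) else 0| < q) :
    ∑ θ : ι → Fin q, ∏ S : κ, (2 * Real.cos (Real.pi *
      (∑ T : ι, if inc T S then 2 * ((θ T : ℕ) : ℝ) / q else 0))) = 0 := by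
  have hq' : (q : ℂ) ≠ 0 := by exact_mod_cast hq.ne'
  have hC : ((∑ θ : ι → Fin q, ∏ S : κ, (2 * Real.cos (Real.pi *
      (∑ T : ι, if inc T S then 2 * ((θ T : ℕ) : ℝ) / q else 0))) : ℝ) : ℂ) = 0 := by
    push_cast
    have h1 : ∀ θ : ι → Fin q, (∏ S : κ, (2 * Complex.cos ((Real.pi : ℂ) *
        (∑ T : ι, ((if inc T S then 2 * ((θ T : ℕ) : ℝ) / q else 0 : ℝ) : ℂ)))))
        = ∑ ε : κ → Bool, ∏ T : ι, Complex.exp (2 * Real.pi * Complex.I *
          ((∑ S : κ, if inc T S then sg (ε S) else 0 : ℤ) : ℂ) / q) ^ (θ T : ℕ) := by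
      intro θ
      have h2 : ∀ S : κ, (2 * Complex.cos ((Real.pi : ℂ) *
          (∑ T : ι, ((if inc T S then 2 * ((θ T : ℕ) : ℝ) / q else 0 : ℝ) : ℂ))))
          = ∑ b : Bool, Complex.exp ((sg b : ℂ) * (Real.pi *
            ((∑ T : ι, if inc T S then 2 * ((θ T : ℕ) : ℝ) / q else 0 : ℝ) : ℂ)) *
              Complex.I) := by
        intro S
        rw [← two_cos_eq]
        push_cast
        rfl
      rw [prod_congr rfl (fun S _ => h2 S)]
      rw [prod_univ_sum (fun _ => (univ : Finset Bool))]
      rw [Fintype.piFinset_univ]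
      refine sum_congr rfl ?_
      intro ε _
      rw [← Complex.exp_sum]
      have h3 : ∀ T : ι, Complex.exp (2 * Real.pi * Complex.I *
          ((∑ S : κ, if inc T S then sg (ε S) else 0 : ℤ) : ℂ) / q) ^ (θ T : ℕ)
          = Complex.exp (((θ T : ℕ) : ℂ) * (2 * Real.pi * Complex.I *
          ((∑ S : κ, if inc T S then sg (ε S) else 0 : ℤ) : ℂ) / q)) := by
        intro T
        rw [Complex.exp_nat_mul]
      rw [prod_congr rfl (fun T _ => h3 T), ← Complex.exp_sum]
      congr 1
      push_cast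
      simp only [mul_sum, sum_mul, sum_div]
      rw [sum_comm]
      refine sum_congr rfl ?_
      intro T _
      refine sum_congr rfl ?_
      intro S _
      split_ifs
      · push_cast
        field_simp
      · simp
    rw [sum_congr rfl (fun θ _ => h1 θ), sum_comm]
    refine sum_eq_zero ?_
    intro ε _
    obtain ⟨T0, hT0, hT0'⟩ := hno ε
    have h4 := prod_univ_sum (fun _ : ι => (univ : Finset (Fin q)))
      (fun (T : ι) (j : Fin q) => Complex.exp (2 * Real.pi * Complex.I *
          ((∑ S : κ, if inc T S then sg (ε S) else 0 : ℤ) : ℂ) / q) ^ (j : ℕ))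
    rw [Fintype.piFinset_univ] at h4
    rw [← h4]
    refine prod_eq_zero (mem_univ T0) ?_
    obtain ⟨D, hD⟩ : ∃ D : ℤ, D = ∑ S : κ, if inc T0 S then sg (ε S) else 0 := ⟨_, rfl⟩
    rw [← hD] at hT0 hT0' ⊢
    rw [Fin.sum_univ_eq_sum_range (fun j => Complex.exp (2 * Real.pi * Complex.I *
      (D : ℂ) / q) ^ j) q]
    have hz1 : Complex.exp (2 * Real.pi * Complex.I * (D : ℂ) / q) ≠ 1 := by
      intro h
      rw [Complex.exp_eq_one_iff] at h
      obtain ⟨n, hn⟩ := h
      have h5 : (D : ℂ) = n * q := by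
        have h6 : (2 * Real.pi * Complex.I : ℂ) ≠ 0 := Complex.two_pi_I_ne_zero
        rw [div_eq_iff hq'] at hn
        apply mul_left_cancel₀ h6
        rw [hn]; ring
      have h7 : D = n * q := by exact_mod_cast h5
      rw [h7, abs_mul] at hT0'
      have h8 : n ≠ 0 := by
        rintro rfl
        rw [zero_mul] at h7
        exact hT0 h7
      have h9 : 1 ≤ |n| := Int.one_le_abs h8
      have h10 : |(q : ℤ)| = q := abs_of_nonneg (by positivity)
      rw [h10] at hT0'
      have h11 : (0 : ℤ) < q := by exact_mod_cast hq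
      nlinarith
    have hzq : Complex.exp (2 * Real.pi * Complex.I * (D : ℂ) / q) ^ q = 1 := by
      rw [← Complex.exp_nat_mul, Complex.exp_eq_one_iff]
      refine ⟨D, ?_⟩
      field_simp
    rw [geom_sum_eq hz1, hzq, sub_self, zero_div]
  exact_mod_cast hC

/-- Positivity of the sum if all terms are nonnegative or very small. -/
theorem sum_pos_of_small {Θ : Type*} [Fintype Θ] [DecidableEq Θ] (P : Θ → ℝ) (θ0 : Θ)
    (M δ : ℝ) (hM : 0 < M) (hδ : 0 ≤ δ) (h0 : P θ0 = M)
    (h : ∀ θ, 0 ≤ P θ ∨ |P θ| ≤ M * δ) (hcard : (Fintype.card Θ : ℝ) * δ < 1) :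
    0 < ∑ θ, P θ := by
  rw [← add_sum_erase univ P (mem_univ θ0), h0]
  have h1 : ∑ θ ∈ (univ : Finset Θ).erase θ0, (-(M * δ)) ≤ ∑ θ ∈ (univ : Finset Θ).erase θ0,
      P θ := by
    refine sum_le_sum ?_
    intro θ _
    rcases h θ with h2 | h2
    · have : 0 ≤ M * δ := mul_nonneg hM.le hδ
      linarith
    · exact (abs_le.1 h2).1
  rw [sum_const, card_erase_of_mem (mem_univ _), card_univ, nsmul_eq_mul] at h1
  have h2 : ((Fintype.card Θ - 1 : ℕ) : ℝ) ≤ Fintype.card Θ := by
    exact_mod_cast Nat.sub_le _ _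
  have h3 : ((Fintype.card Θ - 1 : ℕ) : ℝ) * (M * δ) ≤ Fintype.card Θ * (M * δ) :=
    mul_le_mul_of_nonneg_right h2 (mul_nonneg hM.le hδ)
  have h4 : (Fintype.card Θ : ℝ) * (M * δ) < M := by
    have : (Fintype.card Θ : ℝ) * (M * δ) = M * (Fintype.card Θ * δ) := by ring
    rw [this]
    calc M * (Fintype.card Θ * δ) < M * 1 := by
          exact mul_lt_mul_of_pos_left hcard hM
      _ = M := mul_one M
  linarith

/-- The main criterion: existence of a signing of the `k`-subsets. -/
theorem solv_of_numeric {α : Type*} [DecidableEq α] {t k b B q : ℕ} {X : Finset α}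
    (hfeas : ∀ i ≤ t, 2 ∣ (X.card - i).choose (k - i)) (htk : t + 1 ≤ k)
    (hk : (t + 1) * b ≤ k) (hv : (t + 1) * b ≤ X.card - k)
    (hq : X.card.choose k < q)
    (hB1 : ∀ j, 1 ≤ j → j ≤ t + 1 →
      (2 ^ (t + 1) - 1) * B < k.choose (b * j) * (X.card - k).choose (b * j))
    (hB2 : (q : ℝ) ^ (X.card.choose t) *
      (1 - 2 * ((1 : ℝ) / 4 ^ (t + 1)) ^ 2) ^ (B + 1) < 1) :
    Solv (t + 1) (powersetCard k X) := by
  classical
  by_contra hcon
  obtain ⟨η, hη⟩ : ∃ η : ℝ, η = 1 / 4 ^ (t + 1) := ⟨_, rfl⟩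
  rw [← hη] at hB2
  have hη0 : 0 ≤ η := by rw [hη]; positivity
  have hη1 : η ≤ 1 / 2 := by
    rw [hη]
    refine one_div_le_one_div_of_le (by norm_num) ?_
    calc (2 : ℝ) ≤ 4 ^ 1 := by norm_num
      _ ≤ 4 ^ (t + 1) := pow_le_pow_right₀ (by norm_num) (by omega)
  have hq0 : 0 < q := by omega
  have : NeZero q := ⟨hq0.ne'⟩
  -- no solution
  have hno : ∀ ε : ↥(powersetCard k X) → Bool, ∃ T : ↥(powersetCard t X),
      (∑ S : ↥(powersetCard k X), if (T : Finset α) ⊆ S then sg (ε S) else 0) ≠ 0 ∧
      |∑ S : ↥(powersetCard k X), if (T : Finset α) ⊆ S then sg (ε S) else 0| < q := by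
    intro ε
    by_contra hc2
    push Not at hc2
    have hbd : ∀ T : ↥(powersetCard t X),
        |∑ S : ↥(powersetCard k X), if (T : Finset α) ⊆ S then sg (ε S) else 0| < q := by
      intro T
      refine lt_of_le_of_lt (abs_sum_le_sum_abs _ _) ?_
      have h1 : ∑ S : ↥(powersetCard k X), |if (T : Finset α) ⊆ S then sg (ε S) else 0|
          ≤ ∑ _S : ↥(powersetCard k X), (1 : ℤ) := by
        refine sum_le_sum ?_
        intro S _
        split_ifs
        · unfold sg
          split_ifs <;> simp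
        · simp
      refine lt_of_le_of_lt h1 ?_
      rw [sum_const, card_univ, Fintype.card_coe, card_powersetCard, nsmul_eq_mul, mul_one]
      exact_mod_cast hq
    have hz : ∀ T : ↥(powersetCard t X),
        (∑ S : ↥(powersetCard k X), if (T : Finset α) ⊆ S then sg (ε S) else 0) = 0 := by
      intro T
      by_contra h1
      have := hc2 T h1
      have := hbd T
      omega
    apply hcon
    refine ⟨fun S => if h : S ∈ powersetCard k X then sg (ε ⟨S, h⟩) else 1, ?_, ?_⟩
    · intro S hS
      simp only [hS, dif_pos]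
      unfold sg
      split_ifs
      · left; rfl
      · right; rfl
    · refine sum_zero_of_top (by omega) ?_
      intro T hT
      have h1 := hz ⟨T, hT⟩
      rw [sum_filter, ← sum_coe_sort]
      refine Eq.trans ?_ h1
      refine sum_congr rfl ?_
      intro S _
      simp only [coe_mem, dif_pos]
  have hfour := fourier_zero (fun (T : ↥(powersetCard t X)) (S : ↥(powersetCard k X)) =>
    (T : Finset α) ⊆ S) q hq0 hno
  -- positivity
  have hpos : 0 < ∑ θ : ↥(powersetCard t X) → Fin q, ∏ S : ↥(powersetCard k X),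
      (2 * Real.cos (Real.pi * (∑ T : ↥(powersetCard t X),
        if (T : Finset α) ⊆ S then 2 * ((θ T : ℕ) : ℝ) / q else 0))) := by
    refine sum_pos_of_small _ (fun _ => ⟨0, hq0⟩) (2 ^ (powersetCard k X).card)
      ((1 - 2 * η ^ 2) ^ (B + 1)) (by positivity) ?_ ?_ ?_ ?_
    · have : 0 ≤ 1 - 2 * η ^ 2 := by nlinarith
      positivity
    · simp
    · intro θ
      -- the associated polynomial
      obtain ⟨c, hc⟩ : ∃ c : Finset α → ℝ, c = fun T =>
          if h : T ∈ powersetCard t X then 2 * ((θ ⟨T, h⟩ : ℕ) : ℝ) / q else 0 := ⟨_, rfl⟩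
      have hpoly : ∀ S ∈ powersetCard k X, poly (t + 1) c S = ∑ T : ↥(powersetCard t X),
          if (T : Finset α) ⊆ S then 2 * ((θ T : ℕ) : ℝ) / q else 0 := by
        intro S hS
        rw [mem_powersetCard] at hS
        have h1 : ∑ T : ↥(powersetCard t X),
            (if (T : Finset α) ⊆ S then 2 * ((θ T : ℕ) : ℝ) / q else 0)
            = ∑ T ∈ powersetCard t X, if T ⊆ S then c T else 0 := by
          rw [← sum_coe_sort (powersetCard t X) (fun T => if T ⊆ S then c T else 0)]
          refine sum_congr rfl ?_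
          intro T _
          rw [hc]
          simp only [coe_mem, dif_pos]
        rw [h1, ← sum_filter]
        unfold poly
        symm
        refine sum_subset ?_ ?_
        · intro T hT
          rw [mem_filter, mem_powersetCard] at hT
          rw [mem_filter, mem_powerset]
          exact ⟨hT.2, by omega⟩
        · intro T hT hT'
          rw [mem_filter, mem_powerset] at hT
          rw [hc]
          have : T ∉ powersetCard t X := by
            intro h
            exact hT' (mem_filter.2 ⟨h, hT.1⟩)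
          simp only [this, dif_neg, not_false_eq_true]
      have hprod : ∏ S : ↥(powersetCard k X),
          (2 * Real.cos (Real.pi * (∑ T : ↥(powersetCard t X),
            if (T : Finset α) ⊆ S then 2 * ((θ T : ℕ) : ℝ) / q else 0)))
          = ∏ S ∈ powersetCard k X, (2 * Real.cos (Real.pi * poly (t + 1) c S)) := by
        rw [← prod_coe_sort (powersetCard k X)
          (fun S => 2 * Real.cos (Real.pi * poly (t + 1) c S))]
        refine prod_congr rfl ?_
        intro S _
        rw [hpoly S S.2]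
      rw [hprod]
      rcases Nat.lt_or_ge B (badSet η (poly (t + 1) c) k X).card with hb | hb
      · right
        exact prod_small hη0 hη1 hb
      · left
        refine prod_nonneg_of_few c hfeas htk hk hv ?_
        intro j hj1 hj2
        rw [← hη]
        exact lt_of_le_of_lt (Nat.mul_le_mul_left _ hb) (hB1 j hj1 hj2)
    · rw [Fintype.card_fun, Fintype.card_fin, Fintype.card_coe, card_powersetCard]
      push_cast
      exact hB2
  rw [hfour] at hpos
  exact lt_irrefl _ hpos

end Halving
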