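import Pool.Agent.Halving.Small
import Pool.Agent.Halving.DataE
import Pool.Agent.Halving.DataF
import Pool.Agent.Halving.DataG
import Pool.Agent.Halving.DataI

/-!
# The root cases of strength five
-/

namespace Halving

open Finset

theorem crit_68_32 {j : ℕ} (h1 : 6 ≤ j) (h4 : j ≤ 10) :
    7 * (16 ^ 4 * (Nat.choose 10 4) ^ 2 * (68 * Nat.choose 68 4)) ≤
      5 * (Nat.choose 32 (2 * j) * Nat.choose (68 - 32) (2 * j)) := by
  have h : j = 6 ∨ j = 7 ∨ j = 8 ∨ j = 9 ∨ j = 10 := by omega
  rcases h with rfl | rfl | rfl | rfl | rfl <;> decide +kernel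

theorem crit_68_33 {j : ℕ} (h1 : 6 ≤ j) (h4 : j ≤ 10) :
    7 * (16 ^ 4 * (Nat.choose 10 4) ^ 2 * (68 * Nat.choose 68 4)) ≤
      5 * (Nat.choose 33 (2 * j) * Nat.choose (68 - 33) (2 * j)) := by
  have h : j = 6 ∨ j = 7 ∨ j = 8 ∨ j = 9 ∨ j = 10 := by omega
  rcases h with rfl | rfl | rfl | rfl | rfl <;> decide +kernel

theorem bal32_68 : Bal 5 32 68 :=
  bal_of_crit (t := 4) (k := 32) (v := 68) (b := 2) (m := 5)
    (feasible_of_window' (n := 6) (by norm_num) (by norm_num)) (by norm_num) (by norm_num)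
    (by norm_num) (by norm_num) (fun _ h1 h2 => crit_68_32 h1 h2)

theorem bal33_68 : Bal 5 33 68 :=
  bal_of_crit (t := 4) (k := 33) (v := 68) (b := 2) (m := 5)
    (feasible_of_window' (n := 6) (by norm_num) (by norm_num)) (by norm_num) (by norm_num)
    (by norm_num) (by norm_num) (fun _ h1 h2 => crit_68_33 h1 h2)

/-- All root cases of strength at most five. -/
theorem roots_four : Roots 4 := by
  refine roots_of (T := 4) (by norm_num) ?_
  intro n hn h k h1 h2
  have hn6 : n ≤ 6 := by
    by_contra h7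
    have h8 : 2 ^ 6 ≤ 2 ^ (n - 1) := Nat.pow_le_pow_right (by norm_num) (by omega)
    norm_num at h8 h
    omega
  have h3 : n = 4 ∨ n = 5 ∨ n = 6 := by omega
  rcases h3 with rfl | rfl | rfl
  · norm_num at h1 h2 ⊢
    have hk : k = 8 ∨ k = 9 ∨ k = 10 := by omega
    rcases hk with rfl | rfl | rfl
    · exact bal8_20
    · exact bal9_20
    · exact bal_middle (by decide) (by norm_num) bal9_20
  · norm_num at h1 h2 ⊢
    have hk : k = 16 ∨ k = 17 ∨ k = 18 := by omega
    rcases hk with rfl | rfl | rfl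
    · exact bal16_36
    · exact bal17_36
    · exact bal_middle (by decide) (by norm_num) bal17_36
  · norm_num at h1 h2 ⊢
    have hk : k = 32 ∨ k = 33 ∨ k = 34 := by omega
    rcases hk with rfl | rfl | rfl
    · exact bal32_68
    · exact bal33_68
    · exact bal_middle (by decide) (by norm_num) bal33_68

end Halving
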