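import Pool.Agent.Halving.Block

/-!
# Existence of block systems avoiding a small family of bad sets
-/

namespace Halving

open Finset

theorem exists_fam {β : Type*} [Fintype β] [DecidableEq β] {s b : ℕ}
    (h : s * b ≤ Fintype.card β) : ∃ U : Fin s → Finset β,
      (∀ i j, i ≠ j → Disjoint (U i) (U j)) ∧ ∀ i, (U i).card = b := by
  obtain ⟨n, hn⟩ : ∃ n, n = Fintype.card β := ⟨_, rfl⟩
  have e : β ≃ Fin n := Fintype.equivFinOfCardEq hn.symm
  have hb : ∀ i : Fin s, ∀ m ∈ Ico (i.val * b) (i.val * b + b), m < n := by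
    intro i m hm
    rw [mem_Ico] at hm
    have h1 : i.val + 1 ≤ s := i.2
    have h2 : (i.val + 1) * b ≤ s * b := Nat.mul_le_mul_right b h1
    rw [Nat.add_mul, one_mul] at h2
    omega
  refine ⟨fun i => ((Ico (i.val * b) (i.val * b + b)).attachFin (hb i)).map
    e.symm.toEmbedding, ?_, ?_⟩
  · intro i j hij
    rw [disjoint_map, disjoint_left]
    intro x hx hx'
    rw [mem_attachFin, mem_Ico] at hx hx'
    rcases Nat.lt_or_gt_of_ne (fun h => hij (Fin.ext h)) with h1 | h1
    · have h2 : (i.val + 1) * b ≤ j.val * b := Nat.mul_le_mul_right b h1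
      rw [Nat.add_mul, one_mul] at h2
      omega
    · have h2 : (j.val + 1) * b ≤ i.val * b := Nat.mul_le_mul_right b h1
      rw [Nat.add_mul, one_mul] at h2
      omega
  · intro i
    rw [card_map, card_attachFin, Nat.card_Ico]
    omega

section good

variable {α : Type*} [DecidableEq α]

/-- Replace `W` by `W'`. -/
def rep (S S' : Finset α) (W : Finset S) (W' : Finset S') : Finset α :=
  (S \ W.map (Function.Embedding.subtype _)) ∪ W'.map (Function.Embedding.subtype _)

theorem rep_inj {S S' : Finset α} (hd : Disjoint S S') {W1 W2 : Finset S} {W1' W2' : Finset S'}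
    (h : rep S S' W1 W1' = rep S S' W2 W2') : W1 = W2 ∧ W1' = W2' := by
  have key1 : ∀ (W : Finset S) (W' : Finset S') (x : S), x ∈ W ↔ (x : α) ∉ rep S S' W W' := by
    intro W W' x
    have hx' : (x : α) ∉ S' := disjoint_left.1 hd x.2
    simp only [rep, mem_union, mem_sdiff, mem_map, Function.Embedding.subtype_apply,
      Subtype.exists, exists_and_right, exists_eq_right]
    constructor
    · rintro hx (⟨-, h2⟩ | ⟨h2, -⟩)
      · exact h2 ⟨x.2, hx⟩
      · exact hx' h2
    · intro h1
      by_contra h2
      apply h1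
      left
      refine ⟨x.2, ?_⟩
      rintro ⟨_, h3⟩
      exact h2 h3
  have key2 : ∀ (W : Finset S) (W' : Finset S') (x : S'), x ∈ W' ↔ (x : α) ∈ rep S S' W W' := by
    intro W W' x
    have hx' : (x : α) ∉ S := disjoint_right.1 hd x.2
    simp only [rep, mem_union, mem_sdiff, mem_map, Function.Embedding.subtype_apply,
      Subtype.exists, exists_and_right, exists_eq_right]
    constructor
    · intro hx
      exact Or.inr ⟨x.2, hx⟩
    · rintro (⟨h2, _⟩ | ⟨_, h2⟩)
      · exact absurd h2 hx'
      · exact h2
  constructor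
  · ext x
    rw [key1 W1 W1', key1 W2 W2', h]
  · ext x
    rw [key2 W1 W1', key2 W2 W2', h]

theorem exists_blocks {S S' : Finset α} (hd : Disjoint S S') {s b : ℕ}
    (hk : s * b ≤ S.card) (hv : s * b ≤ S'.card) (Bad : Finset (Finset α))
    (hBad : ∀ j, 1 ≤ j → j ≤ s →
      (2 ^ s - 1) * Bad.card < S.card.choose (b * j) * S'.card.choose (b * j)) :
    ∃ B C : Fin s → Finset α, (∀ i, B i ⊆ S) ∧ (∀ i, C i ⊆ S') ∧
      (∀ i j, i ≠ j → Disjoint (B i) (B j)) ∧ (∀ i j, i ≠ j → Disjoint (C i) (C j)) ∧
      (∀ i, (B i).card = b) ∧ (∀ i, (C i).card = b) ∧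
      ∀ I : Finset (Fin s), I.Nonempty → swp B C S I ∉ Bad := by
  obtain ⟨U, hU, hUc⟩ := exists_fam (β := S) (s := s) (b := b) (by simpa using hk)
  obtain ⟨V, hV, hVc⟩ := exists_fam (β := S') (s := s) (b := b) (by simpa using hv)
  have hbu : ∀ I : Finset (Fin s), (I.biUnion U).card = b * I.card := by
    intro I
    rw [card_biUnion (fun i _ j _ hij => hU i j hij), sum_congr rfl (fun i _ => hUc i),
      sum_const, smul_eq_mul, mul_comm]
  have hbv : ∀ I : Finset (Fin s), (I.biUnion V).card = b * I.card := by
    intro I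
    rw [card_biUnion (fun i _ j _ hij => hV i j hij), sum_congr rfl (fun i _ => hVc i),
      sum_const, smul_eq_mul, mul_comm]
  -- blocks attached to a pair of permutations
  have hsw : ∀ (σ : Equiv.Perm S) (τ : Equiv.Perm S') (I : Finset (Fin s)),
      swp (fun i => ((U i).map σ.toEmbedding).map (Function.Embedding.subtype _))
        (fun i => ((V i).map τ.toEmbedding).map (Function.Embedding.subtype _)) S I
      = rep S S' ((I.biUnion U).map σ.toEmbedding) ((I.biUnion V).map τ.toEmbedding) := by
    intro σ τ I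
    unfold swp rep
    congr 1
    · congr 1
      ext x
      simp only [mem_biUnion, mem_map]
      constructor
      · rintro ⟨i, hi, y, ⟨z, hz, rfl⟩, rfl⟩
        exact ⟨_, ⟨z, ⟨i, hi, hz⟩, rfl⟩, rfl⟩
      · rintro ⟨y, ⟨z, ⟨i, hi, hz⟩, rfl⟩, rfl⟩
        exact ⟨i, hi, _, ⟨z, hz, rfl⟩, rfl⟩
    · ext x
      simp only [mem_biUnion, mem_map]
      constructor
      · rintro ⟨i, hi, y, ⟨z, hz, rfl⟩, rfl⟩
        exact ⟨_, ⟨z, ⟨i, hi, hz⟩, rfl⟩, rfl⟩
      · rintro ⟨y, ⟨z, ⟨i, hi, hz⟩, rfl⟩, rfl⟩
        exact ⟨i, hi, _, ⟨z, hz, rfl⟩, rfl⟩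
  by_contra hcon
  have hall : ∀ (σ : Equiv.Perm S) (τ : Equiv.Perm S'), ∃ I : Finset (Fin s), I.Nonempty ∧
      rep S S' ((I.biUnion U).map σ.toEmbedding) ((I.biUnion V).map τ.toEmbedding) ∈ Bad := by
    intro σ τ
    by_contra hno
    push Not at hno
    apply hcon
    refine ⟨fun i => ((U i).map σ.toEmbedding).map (Function.Embedding.subtype _),
      fun i => ((V i).map τ.toEmbedding).map (Function.Embedding.subtype _), ?_, ?_, ?_, ?_,
      ?_, ?_, ?_⟩
    · intro i x hx
      simp only [mem_map] at hx
      obtain ⟨y, -, rfl⟩ := hx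
      exact y.2
    · intro i x hx
      simp only [mem_map] at hx
      obtain ⟨y, -, rfl⟩ := hx
      exact y.2
    · intro i j hij
      rw [disjoint_map, disjoint_map]
      exact hU i j hij
    · intro i j hij
      rw [disjoint_map, disjoint_map]
      exact hV i j hij
    · intro i
      rw [card_map, card_map, hUc]
    · intro i
      rw [card_map, card_map, hVc]
    · intro I hI
      rw [hsw]
      exact hno I hI
  -- counting
  obtain ⟨ind, hind⟩ : ∃ ind : Finset S → Finset S' → ℕ,
      ind = fun W W' => if rep S S' W W' ∈ Bad then 1 else 0 := ⟨_, rfl⟩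
  obtain ⟨NI, hNI⟩ : ∃ NI : Finset (Fin s) → ℕ, NI = fun I => ∑ σ : Equiv.Perm S,
      ∑ τ : Equiv.Perm S', ind ((I.biUnion U).map σ.toEmbedding)
        ((I.biUnion V).map τ.toEmbedding) := ⟨_, rfl⟩
  have hcS : Fintype.card S = S.card := by simp
  have hcS' : Fintype.card S' = S'.card := by simp
  have htot : S.card.factorial * S'.card.factorial
      ≤ ∑ I ∈ (univ : Finset (Finset (Fin s))).filter (·.Nonempty), NI I := by
    have h1 : S.card.factorial * S'.card.factorial
        = ∑ _σ : Equiv.Perm S, ∑ _τ : Equiv.Perm S', 1 := by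
      rw [sum_const, sum_const, card_univ, card_univ, Fintype.card_perm, Fintype.card_perm,
        hcS, hcS', smul_eq_mul, smul_eq_mul, mul_one]
    rw [h1, hNI]
    rw [sum_comm]
    simp only
    have h2 : ∑ I ∈ (univ : Finset (Finset (Fin s))).filter (·.Nonempty),
        ∑ σ : Equiv.Perm S, ∑ τ : Equiv.Perm S', ind ((I.biUnion U).map σ.toEmbedding)
        ((I.biUnion V).map τ.toEmbedding)
        = ∑ τ : Equiv.Perm S', ∑ σ : Equiv.Perm S,
          ∑ I ∈ (univ : Finset (Finset (Fin s))).filter (·.Nonempty),
            ind ((I.biUnion U).map σ.toEmbedding) ((I.biUnion V).map τ.toEmbedding) := by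
      rw [sum_comm]
      rw [sum_congr rfl (fun σ _ => sum_comm)]
      rw [sum_comm]
    rw [h2]
    refine sum_le_sum ?_
    intro τ _
    refine sum_le_sum ?_
    intro σ _
    obtain ⟨I, hI, hIB⟩ := hall σ τ
    have h3 : ind ((I.biUnion U).map σ.toEmbedding) ((I.biUnion V).map τ.toEmbedding) = 1 := by
      rw [hind]
      simp only [hIB, if_true]
    rw [← h3]
    exact single_le_sum
      (f := fun I : Finset (Fin s) => ind ((I.biUnion U).map σ.toEmbedding)
        ((I.biUnion V).map τ.toEmbedding)) (fun _ _ => Nat.zero_le _)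
      (mem_filter.2 ⟨mem_univ _, hI⟩)
  have hone : ∀ I : Finset (Fin s), NI I * (S.card.choose (b * I.card) *
      S'.card.choose (b * I.card)) ≤ S.card.factorial * S'.card.factorial * Bad.card := by
    intro I
    have h1 : ∀ W : Finset S, (∑ τ : Equiv.Perm S', ind W ((I.biUnion V).map τ.toEmbedding)) *
        S'.card.choose (b * I.card) = S'.card.factorial *
          ∑ W' ∈ powersetCard (b * I.card) (univ : Finset S'), ind W W' := by
      intro W
      have := perm_average (U := I.biUnion V) (fun W' => ind W W')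
      rw [hbv, hcS'] at this
      exact this
    have h2 := perm_average (U := I.biUnion U)
      (fun W => ∑ W' ∈ powersetCard (b * I.card) (univ : Finset S'), ind W W')
    rw [hbu, hcS] at h2
    have h3 : NI I * (S.card.choose (b * I.card) * S'.card.choose (b * I.card))
        = S.card.factorial * S'.card.factorial *
          ∑ W ∈ powersetCard (b * I.card) (univ : Finset S),
            ∑ W' ∈ powersetCard (b * I.card) (univ : Finset S'), ind W W' := by
      have h4 : NI I * S'.card.choose (b * I.card) = S'.card.factorial *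
          ∑ σ : Equiv.Perm S, ∑ W' ∈ powersetCard (b * I.card) (univ : Finset S'),
            ind ((I.biUnion U).map σ.toEmbedding) W' := by
        rw [hNI]
        simp only
        rw [sum_mul, mul_sum]
        exact sum_congr rfl (fun σ _ => h1 _)
      calc NI I * (S.card.choose (b * I.card) * S'.card.choose (b * I.card))
          = (NI I * S'.card.choose (b * I.card)) * S.card.choose (b * I.card) := by ring
        _ = S'.card.factorial * ((∑ σ : Equiv.Perm S,
            ∑ W' ∈ powersetCard (b * I.card) (univ : Finset S'),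
            ind ((I.biUnion U).map σ.toEmbedding) W') * S.card.choose (b * I.card)) := by
            rw [h4]; ring
        _ = _ := by rw [h2]; ring
    rw [h3]
    refine Nat.mul_le_mul_left _ ?_
    rw [← sum_product' (f := fun W W' => ind W W')]
    have h5 : ∑ p ∈ powersetCard (b * I.card) (univ : Finset S) ×ˢ
        powersetCard (b * I.card) (univ : Finset S'), ind p.1 p.2
        = ((powersetCard (b * I.card) (univ : Finset S) ×ˢ
        powersetCard (b * I.card) (univ : Finset S')).filter
          (fun p => rep S S' p.1 p.2 ∈ Bad)).card := by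
      rw [card_filter, hind]
    rw [h5]
    refine card_le_card_of_injOn (fun p => rep S S' p.1 p.2) ?_ ?_
    · intro p hp
      rw [mem_coe, mem_filter] at hp
      exact hp.2
    · intro p _ p' _ h
      obtain ⟨h1, h2⟩ := rep_inj hd h
      exact Prod.ext h1 h2
  have hfac : 0 < S.card.factorial * S'.card.factorial :=
    Nat.mul_pos (Nat.factorial_pos _) (Nat.factorial_pos _)
  have hlt : ∀ I ∈ (univ : Finset (Finset (Fin s))).filter (·.Nonempty),
      (2 ^ s - 1) * NI I < S.card.factorial * S'.card.factorial := by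
    intro I hI
    rw [mem_filter] at hI
    have hc1 : 1 ≤ I.card := card_pos.2 hI.2
    have hc2 : I.card ≤ s := by
      have := card_le_univ I
      simpa using this
    have h1 := hBad I.card hc1 hc2
    have h2 := hone I
    by_contra h3
    push Not at h3
    obtain ⟨Lv, hLv⟩ : ∃ Lv, Lv = S.card.choose (b * I.card) * S'.card.choose (b * I.card) :=
      ⟨_, rfl⟩
    rw [← hLv] at h1 h2
    have h4 : S.card.factorial * S'.card.factorial * Lv
        ≤ (2 ^ s - 1) * (S.card.factorial * S'.card.factorial * Bad.card) := by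
      calc S.card.factorial * S'.card.factorial * Lv ≤ ((2 ^ s - 1) * NI I) * Lv :=
            Nat.mul_le_mul_right _ h3
        _ = (2 ^ s - 1) * (NI I * Lv) := by ring
        _ ≤ _ := Nat.mul_le_mul_left _ h2
    have h5 : (2 ^ s - 1) * (S.card.factorial * S'.card.factorial * Bad.card)
        < S.card.factorial * S'.card.factorial * Lv := by
      calc (2 ^ s - 1) * (S.card.factorial * S'.card.factorial * Bad.card)
          = S.card.factorial * S'.card.factorial * ((2 ^ s - 1) * Bad.card) := by ring
        _ < _ := Nat.mul_lt_mul_of_pos_left h1 hfac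
    omega
  have hcardI : ((univ : Finset (Finset (Fin s))).filter (·.Nonempty)).card = 2 ^ s - 1 := by
    have h1 : (univ : Finset (Finset (Fin s))).filter (·.Nonempty) = univ.erase ∅ := by
      ext I
      simp [nonempty_iff_ne_empty]
    rw [h1, card_erase_of_mem (mem_univ _), card_univ, Fintype.card_finset, Fintype.card_fin]
  rcases ((univ : Finset (Finset (Fin s))).filter (·.Nonempty)).eq_empty_or_nonempty with he | hne
  · rw [he, sum_empty] at htot
    omega
  · have h1 := sum_lt_sum_of_nonempty hne hlt
    rw [sum_const, hcardI, smul_eq_mul, ← mul_sum] at h1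
    have h2 := Nat.mul_le_mul_left (2 ^ s - 1) htot
    omega

end good

end Halving
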