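import Pool.Agent.Halving.Mono

/-!
# The numerical inequality behind the linear range
-/

namespace Halving

open Finset

theorem choose_ratio (s : ℕ) :
    (8 * s + 8).choose (3 * s + 3) * (((3 * s + 1) * (3 * s + 2) * (3 * s + 3)) *
      ((5 * s + 1) * (5 * s + 2) * (5 * s + 3) * (5 * s + 4) * (5 * s + 5)))
    = (8 * s).choose (3 * s) * ((8 * s + 1) * (8 * s + 2) * (8 * s + 3) * (8 * s + 4) *
      (8 * s + 5) * (8 * s + 6) * (8 * s + 7) * (8 * s + 8)) := by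
  have h1 := Nat.choose_mul_factorial_mul_factorial (by omega : 3 * s ≤ 8 * s)
  have h2 := Nat.choose_mul_factorial_mul_factorial (by omega : 3 * s + 3 ≤ 8 * s + 8)
  have e1 : 8 * s - 3 * s = 5 * s := by omega
  have e2 : 8 * s + 8 - (3 * s + 3) = 5 * s + 5 := by omega
  rw [e1] at h1
  rw [e2] at h2
  have f3 : (3 * s + 3).factorial = (3 * s + 3) * ((3 * s + 2) * ((3 * s + 1) *
      (3 * s).factorial)) := by
    rw [Nat.factorial_succ, Nat.factorial_succ, Nat.factorial_succ]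
  have f5 : (5 * s + 5).factorial = (5 * s + 5) * ((5 * s + 4) * ((5 * s + 3) * ((5 * s + 2) *
      ((5 * s + 1) * (5 * s).factorial)))) := by
    rw [Nat.factorial_succ, Nat.factorial_succ, Nat.factorial_succ, Nat.factorial_succ,
      Nat.factorial_succ]
  have f8 : (8 * s + 8).factorial = (8 * s + 8) * ((8 * s + 7) * ((8 * s + 6) * ((8 * s + 5) *
      ((8 * s + 4) * ((8 * s + 3) * ((8 * s + 2) * ((8 * s + 1) * (8 * s).factorial))))))) := by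
    rw [Nat.factorial_succ, Nat.factorial_succ, Nat.factorial_succ, Nat.factorial_succ,
      Nat.factorial_succ, Nat.factorial_succ, Nat.factorial_succ, Nat.factorial_succ]
  rw [f3, f5, f8, ← h1] at h2
  have h3 : 0 < (3 * s).factorial * (5 * s).factorial :=
    Nat.mul_pos (Nat.factorial_pos _) (Nat.factorial_pos _)
  refine Nat.eq_of_mul_eq_mul_right h3 ?_
  linear_combination h2

theorem poly_ineq (s : ℕ) :
    8 ^ 16 * (s * (((3 * s + 1) * (3 * s + 2) * (3 * s + 3)) *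
      ((5 * s + 1) * (5 * s + 2) * (5 * s + 3) * (5 * s + 4) * (5 * s + 5))) ^ 2)
    ≤ 84375 ^ 2 * ((s + 1) * ((8 * s + 1) * (8 * s + 2) * (8 * s + 3) * (8 * s + 4) *
      (8 * s + 5) * (8 * s + 6) * (8 * s + 7) * (8 * s + 8)) ^ 2) := by
  have h : 84375 ^ 2 * ((s + 1) * ((8 * s + 1) * (8 * s + 2) * (8 * s + 3) * (8 * s + 4) *
      (8 * s + 5) * (8 * s + 6) * (8 * s + 7) * (8 * s + 8)) ^ 2) =
      8 ^ 16 * (s * (((3 * s + 1) * (3 * s + 2) * (3 * s + 3)) *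
      ((5 * s + 1) * (5 * s + 2) * (5 * s + 3) * (5 * s + 4) * (5 * s + 5))) ^ 2) +
      (11573604000000000000 + 368943412873195929600 * s ^ 1 + 5377947832316462284800 * s ^ 2 +
      47565521825281910784000 * s ^ 3 + 285600091176964148428800 * s ^ 4 +
      1233750548714994022809600 * s ^ 5 + 3963097201562250117120000 * s ^ 6 +
      9644077525311693678182400 * s ^ 7 + 17934025487631113414246400 * s ^ 8 +
      25497764723141057603174400 * s ^ 9 + 27503814845289568665600000 * s ^ 10 +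
      22115711278813859020800000 * s ^ 11 + 12838689053507321856000000 * s ^ 12 +
      5082368072044511232000000 * s ^ 13 + 1227364214243328000000000 * s ^ 14 +
      136373801582592000000000 * s ^ 15) := by
    ring
  rw [h]
  exact Nat.le_add_right _ _

theorem lower_step (s : ℕ) :
    8 ^ 16 * (s * (8 * s).choose (3 * s) ^ 2) ≤
      84375 ^ 2 * ((s + 1) * (8 * s + 8).choose (3 * s + 3) ^ 2) := by
  obtain ⟨Q, hQ⟩ : ∃ Q, Q = ((3 * s + 1) * (3 * s + 2) * (3 * s + 3)) *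
      ((5 * s + 1) * (5 * s + 2) * (5 * s + 3) * (5 * s + 4) * (5 * s + 5)) := ⟨_, rfl⟩
  obtain ⟨P, hP⟩ : ∃ P, P = (8 * s + 1) * (8 * s + 2) * (8 * s + 3) * (8 * s + 4) *
      (8 * s + 5) * (8 * s + 6) * (8 * s + 7) * (8 * s + 8) := ⟨_, rfl⟩
  have h1 := choose_ratio s
  have h2 := poly_ineq s
  rw [← hQ, ← hP] at h1 h2
  have hQ0 : 0 < Q ^ 2 := by rw [hQ]; positivity
  refine Nat.le_of_mul_le_mul_right ?_ hQ0
  calc 8 ^ 16 * (s * (8 * s).choose (3 * s) ^ 2) * Q ^ 2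
      = (8 ^ 16 * (s * Q ^ 2)) * (8 * s).choose (3 * s) ^ 2 := by ring
    _ ≤ (84375 ^ 2 * ((s + 1) * P ^ 2)) * (8 * s).choose (3 * s) ^ 2 :=
        Nat.mul_le_mul_right _ h2
    _ = 84375 ^ 2 * ((s + 1) * ((8 * s).choose (3 * s) * P) ^ 2) := by ring
    _ = 84375 ^ 2 * ((s + 1) * ((8 * s + 8).choose (3 * s + 3) * Q) ^ 2) := by rw [← h1]
    _ = 84375 ^ 2 * ((s + 1) * (8 * s + 8).choose (3 * s + 3) ^ 2) * Q ^ 2 := by ring

theorem lower_bound (t : ℕ) :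
    3136 * (8 ^ 16) ^ t ≤
      (84375 ^ 2) ^ t * ((t + 1) * (8 * (t + 1)).choose (3 * (t + 1)) ^ 2) := by
  induction t with
  | zero => decide
  | succ t ih =>
    have h := lower_step (t + 1)
    have e1 : 8 * (t + 1) + 8 = 8 * (t + 1 + 1) := by ring
    have e2 : 3 * (t + 1) + 3 = 3 * (t + 1 + 1) := by ring
    rw [e1, e2] at h
    calc 3136 * (8 ^ 16) ^ (t + 1) = 8 ^ 16 * (3136 * (8 ^ 16) ^ t) := by rw [pow_succ]; ring
      _ ≤ 8 ^ 16 * ((84375 ^ 2) ^ t * ((t + 1) * (8 * (t + 1)).choose (3 * (t + 1)) ^ 2)) :=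
          Nat.mul_le_mul_left _ ih
      _ = (84375 ^ 2) ^ t * (8 ^ 16 * ((t + 1) * (8 * (t + 1)).choose (3 * (t + 1)) ^ 2)) := by
          ring
      _ ≤ (84375 ^ 2) ^ t * (84375 ^ 2 * ((t + 1 + 1) *
            (8 * (t + 1 + 1)).choose (3 * (t + 1 + 1)) ^ 2)) := Nat.mul_le_mul_left _ h
      _ = _ := by rw [pow_succ (84375 ^ 2)]; ring

theorem upper_A (t r : ℕ) (h1 : t ≤ r) (h2 : 2 * r ≤ 5 * t + 4) :
    r.choose t ^ 2 * (4 ^ t * 3 ^ (5 * t + 4)) ≤ 5 ^ (5 * t + 4) * 9 ^ t := by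
  have h3 := choose_mul_pow_le r t 2 3
  have h4 : (r.choose t * (2 ^ t * 3 ^ (r - t))) ^ 2 ≤ (5 ^ r) ^ 2 := Nat.pow_le_pow_left h3 2
  have h5 : r.choose t ^ 2 * (4 ^ t * 9 ^ r) ≤ 25 ^ r * 9 ^ t := by
    have e1 : (9 : ℕ) ^ r = 9 ^ (r - t) * 9 ^ t := by rw [← pow_add]; congr 1; omega
    calc r.choose t ^ 2 * (4 ^ t * 9 ^ r)
        = (r.choose t * (2 ^ t * 3 ^ (r - t))) ^ 2 * 9 ^ t := by
          rw [e1, mul_pow, mul_pow, ← pow_mul, ← pow_mul, mul_comm t 2, mul_comm (r - t) 2,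
            pow_mul, pow_mul]
          norm_num only
          ring
      _ ≤ (5 ^ r) ^ 2 * 9 ^ t := Nat.mul_le_mul_right _ h4
      _ = 25 ^ r * 9 ^ t := by
          rw [← pow_mul, mul_comm r 2, pow_mul]
          norm_num only
  obtain ⟨d, hd⟩ : ∃ d, 5 * t + 4 = 2 * r + d := ⟨5 * t + 4 - 2 * r, by omega⟩
  rw [hd, pow_add, pow_add, pow_mul, pow_mul]
  norm_num only
  have h6 : (3 : ℕ) ^ d ≤ 5 ^ d := Nat.pow_le_pow_left (by norm_num) d
  calc r.choose t ^ 2 * (4 ^ t * (9 ^ r * 3 ^ d))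
      = (r.choose t ^ 2 * (4 ^ t * 9 ^ r)) * 3 ^ d := by ring
    _ ≤ (25 ^ r * 9 ^ t) * 5 ^ d := Nat.mul_le_mul h5 h6
    _ = 25 ^ r * 5 ^ d * 9 ^ t := by ring

theorem sq_le_pow (t : ℕ) : (t + 1) ^ 2 ≤ 3 * 2 ^ t := by
  induction t with
  | zero => norm_num
  | succ t ih =>
    rcases Nat.lt_or_ge t 2 with h | h
    · interval_cases t <;> norm_num
    · rw [pow_succ 2]
      nlinarith

/-- the base case of the linear range -/
theorem base8 (t r : ℕ) (h1 : t ≤ r) (h2 : 2 * r ≤ 5 * t + 4) :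
    7 * (16 ^ t * r.choose t ^ 2) * ((8 * (t + 1) + 8 * (t + 1)) *
      (8 * (t + 1) + 8 * (t + 1)).choose t)
    ≤ 5 * ((8 * (t + 1)).choose (3 * (t + 1)) * (8 * (t + 1)).choose (3 * (t + 1))) := by
  have hA := upper_A t r h1 h2
  have hB := choose_mul_pow_le (16 * (t + 1)) t 1 15
  have hC := lower_bound t
  have e1 : 8 * (t + 1) + 8 * (t + 1) = 16 * (t + 1) := by ring
  have e2 : 16 * (t + 1) - t = 15 * t + 16 := by omega
  rw [e2, one_pow, one_mul] at hB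
  norm_num only at hB
  rw [e1]
  obtain ⟨a, ha⟩ : ∃ a, a = r.choose t ^ 2 := ⟨_, rfl⟩
  obtain ⟨b, hb⟩ : ∃ b, b = (16 * (t + 1)).choose t := ⟨_, rfl⟩
  obtain ⟨c, hc⟩ : ∃ c, c = (8 * (t + 1)).choose (3 * (t + 1)) := ⟨_, rfl⟩
  rw [← ha] at hA
  rw [← hb] at hB
  rw [← hc] at hC
  rw [← ha, ← hb, ← hc]
  have hD : 0 < (4 ^ t * 3 ^ (5 * t + 4)) * 15 ^ (15 * t + 16) *
      ((84375 ^ 2) ^ t * (t + 1)) := by positivity
  refine Nat.le_of_mul_le_mul_right ?_ hD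
  have hs := sq_le_pow t
  have hconst : 7 * 16 * 3 * (5 ^ 4 * 16 ^ 16) ≤ 5 * 3136 * (3 ^ 4 * 15 ^ 16) := by norm_num
  have hbase : 2 * (16 * (5 ^ 5 * (9 * (16 ^ 16 * 84375 ^ 2)))) ≤
      4 * (3 ^ 5 * (15 ^ 15 * 8 ^ 16)) := by norm_num
  have hpow := Nat.pow_le_pow_left hbase t
  calc 7 * (16 ^ t * a) * (16 * (t + 1) * b) * ((4 ^ t * 3 ^ (5 * t + 4)) *
        15 ^ (15 * t + 16) * ((84375 ^ 2) ^ t * (t + 1)))
      = (7 * 16 * (16 ^ t * (84375 ^ 2) ^ t)) * (t + 1) ^ 2 *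
        ((a * (4 ^ t * 3 ^ (5 * t + 4))) * (b * 15 ^ (15 * t + 16))) := by ring
    _ ≤ (7 * 16 * (16 ^ t * (84375 ^ 2) ^ t)) * (3 * 2 ^ t) *
        ((5 ^ (5 * t + 4) * 9 ^ t) * 16 ^ (16 * (t + 1))) :=
        Nat.mul_le_mul (Nat.mul_le_mul_left _ hs) (Nat.mul_le_mul hA hB)
    _ = (7 * 16 * 3 * (5 ^ 4 * 16 ^ 16)) *
        (2 * (16 * (5 ^ 5 * (9 * (16 ^ 16 * 84375 ^ 2))))) ^ t := by
        have e3 : (5 : ℕ) ^ (5 * t + 4) = (5 ^ 5) ^ t * 5 ^ 4 := by rw [pow_add, pow_mul]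
        have e4 : (16 : ℕ) ^ (16 * (t + 1)) = (16 ^ 16) ^ t * 16 ^ 16 := by
          rw [mul_add, pow_add, pow_mul]
        rw [e3, e4]
        simp only [mul_pow]
        ring
    _ ≤ (5 * 3136 * (3 ^ 4 * 15 ^ 16)) * (4 * (3 ^ 5 * (15 ^ 15 * 8 ^ 16))) ^ t :=
        Nat.mul_le_mul hconst hpow
    _ = 5 * ((4 ^ t * 3 ^ (5 * t + 4)) * 15 ^ (15 * t + 16)) * (3136 * (8 ^ 16) ^ t) := by
        have e3 : (3 : ℕ) ^ (5 * t + 4) = (3 ^ 5) ^ t * 3 ^ 4 := by rw [pow_add, pow_mul]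
        have e4 : (15 : ℕ) ^ (15 * t + 16) = (15 ^ 15) ^ t * 15 ^ 16 := by
          rw [pow_add, pow_mul]
        rw [e3, e4]
        simp only [mul_pow]
        ring
    _ ≤ 5 * ((4 ^ t * 3 ^ (5 * t + 4)) * 15 ^ (15 * t + 16)) *
        ((84375 ^ 2) ^ t * ((t + 1) * c ^ 2)) := Nat.mul_le_mul_left _ hC
    _ = 5 * (c * c) * ((4 ^ t * 3 ^ (5 * t + 4)) *
        15 ^ (15 * t + 16) * ((84375 ^ 2) ^ t * (t + 1))) := by ring

end Halving
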