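import Pool.Agent.Halving.LinNum

/-!
# The linear range
-/

namespace Halving

open Finset

/-- Existence for `8 (t + 1) ≤ k ≤ v - 8 (t + 1)`. -/
theorem bal_linear {t k v : ℕ} (hfeas : ∀ i ≤ t, 2 ∣ (v - i).choose (k - i))
    (hk : 8 * (t + 1) ≤ k) (hv : k + 8 * (t + 1) ≤ v) : Bal (t + 1) k v := by
  obtain ⟨m, hm⟩ : ∃ m, m = (3 * t + 2) / 2 := ⟨_, rfl⟩
  have hm1 : 2 * m ≤ 3 * t + 2 := by omega
  have hm2 : 3 * t + 1 ≤ 2 * m := by omega
  refine bal_of_crit (b := 2) (m := m) hfeas (by omega) (by omega) (by omega) (by omega) ?_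
  intro j hj1 hj2
  have h1 := base8 t (m + 1 + t) (by omega) (by omega)
  have h2 : (8 * (t + 1)).choose (3 * (t + 1)) ≤ (8 * (t + 1)).choose (2 * j) :=
    choose_middle (by omega) (by omega) (by omega)
  have h3 : 7 * (16 ^ t * (m + 1 + t).choose t ^ 2) * ((8 * (t + 1) + 8 * (t + 1)) *
      (8 * (t + 1) + 8 * (t + 1)).choose t)
      ≤ 5 * ((8 * (t + 1)).choose (2 * j) * (8 * (t + 1)).choose (2 * j)) :=
    h1.trans (Nat.mul_le_mul_left _ (Nat.mul_le_mul h2 h2))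
  have h4 := crit_mono (by omega : t + 1 ≤ 2 * j) (by omega) (by omega) h3
    (k' := k) (n' := v - k) (by omega) (by omega)
  have e : k + (v - k) = v := by omega
  rw [e] at h4
  calc 7 * (16 ^ t * (m + 1 + t).choose t ^ 2 * (v * v.choose t))
      = 7 * (16 ^ t * (m + 1 + t).choose t ^ 2) * (v * v.choose t) := by ring
    _ ≤ _ := h4

end Halving
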