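import Pool.Agent.Halving.Four

/-!
# Numerical verification for `t = 3`
-/

namespace Halving

open Finset

theorem choose_mono_half {n r s : ℕ} (hrs : r ≤ s) (hs : 2 * s ≤ n) :
    n.choose r ≤ n.choose s := by
  induction s with
  | zero =>
    have : r = 0 := by omega
    subst this
    exact le_refl _
  | succ s ih =>
    rcases Nat.lt_or_ge r (s + 1) with h | h
    · refine (ih (by omega) (by omega)).trans ?_
      exact Nat.choose_le_succ_of_lt_half_left (by omega)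
    · have : r = s + 1 := by omega
      rw [this]

/-- the analytic inequality -/
theorem pow_lt_one {v A B : ℕ} (hA : 0 < v * A) (hB : 22714 * (v * A) ≤ B) :
    (((2 ^ v : ℕ) : ℝ)) ^ A * (1 - 2 * ((1 : ℝ) / 4 ^ (3 + 1)) ^ 2) ^ (B + 1) < 1 := by
  have h1 : (1 - 2 * ((1 : ℝ) / 4 ^ (3 + 1)) ^ 2) ≤ Real.exp (-(1 / 32768)) := by
    have := Real.one_sub_le_exp_neg (1 / 32768)
    have e : (1 - 2 * ((1 : ℝ) / 4 ^ (3 + 1)) ^ 2) = 1 - 1 / 32768 := by norm_num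
    rw [e]
    exact this
  have h0 : (0 : ℝ) ≤ (1 - 2 * ((1 : ℝ) / 4 ^ (3 + 1)) ^ 2) := by norm_num
  have h2 : (1 - 2 * ((1 : ℝ) / 4 ^ (3 + 1)) ^ 2) ^ (B + 1) ≤
      Real.exp (-((B + 1 : ℕ) : ℝ) / 32768) := by
    refine (pow_le_pow_left₀ h0 h1 (B + 1)).trans ?_
    rw [← Real.exp_nat_mul]
    apply le_of_eq
    congr 1
    ring
  have h3 : (((2 ^ v : ℕ) : ℝ)) ^ A = Real.exp (Real.log 2 * ((v * A : ℕ) : ℝ)) := by
    push_cast
    rw [← pow_mul, Real.exp_mul, Real.exp_log (by norm_num)]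
    rw [← Real.rpow_natCast]
    push_cast
    rfl
  rw [h3]
  calc Real.exp (Real.log 2 * ((v * A : ℕ) : ℝ)) *
        (1 - 2 * ((1 : ℝ) / 4 ^ (3 + 1)) ^ 2) ^ (B + 1)
      ≤ Real.exp (Real.log 2 * ((v * A : ℕ) : ℝ)) * Real.exp (-((B + 1 : ℕ) : ℝ) / 32768) :=
        mul_le_mul_of_nonneg_left h2 (Real.exp_pos _).le
    _ = Real.exp (Real.log 2 * ((v * A : ℕ) : ℝ) + -((B + 1 : ℕ) : ℝ) / 32768) := by
        rw [Real.exp_add]
    _ < 1 := by
        rw [Real.exp_lt_one_iff]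
        have h4 := Real.log_two_lt_d9
        have h5 : (0 : ℝ) < ((v * A : ℕ) : ℝ) := by exact_mod_cast hA
        have h6 : (22714 : ℝ) * ((v * A : ℕ) : ℝ) ≤ (B : ℝ) := by exact_mod_cast hB
        have h7 : Real.log 2 * ((v * A : ℕ) : ℝ) < 0.6931471808 * ((v * A : ℕ) : ℝ) :=
          mul_lt_mul_of_pos_right h4 h5
        push_cast at h6 h7 ⊢
        linarith

/-- The criterion specialised to `t = 3`. -/
theorem bal_of_num {v k : ℕ} (hfeas : ∀ i ≤ 3, 2 ∣ (v - i).choose (k - i)) (hv0 : 3 ≤ v)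
    (hk : 24 ≤ k) (hv : 24 ≤ v - k)
    (hB1 : ∀ j, 1 ≤ j → j ≤ 4 →
      15 * (22714 * (v * v.choose 3)) < k.choose (6 * j) * (v - k).choose (6 * j)) :
    Bal 4 k v := by
  unfold Bal
  have hA : 0 < v * v.choose 3 := Nat.mul_pos (by omega) (Nat.choose_pos hv0)
  refine solv_of_numeric (t := 3) (b := 6) (B := 22714 * (v * v.choose 3)) (q := 2 ^ v) ?_
    (by omega) (by omega) ?_ ?_ ?_ ?_
  · rw [card_range]; exact hfeas
  · rw [card_range]; omega
  · rw [card_range]; exact Nat.choose_lt_two_pow _ _ (by omega)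
  · rw [card_range]
    intro j h1 h2
    exact hB1 j h1 h2
  · rw [card_range]
    exact pow_lt_one hA (le_refl _)

theorem ineq_large {K : ℕ} (hK : 64 ≤ K) :
    15 * (22714 * ((2 * K + 3) * (2 * K + 3).choose 3)) < K.choose 6 * K.choose 6 := by
  obtain ⟨a, ha⟩ : ∃ a, K = a + 5 := ⟨K - 5, by omega⟩
  obtain ⟨v, hv⟩ : ∃ v, v = 2 * K + 3 := ⟨_, rfl⟩
  rw [← hv]
  have ha59 : 59 ≤ a := by omega
  have h1 : 59 * v ≤ 131 * a := by omega
  have h2 : 6 * v.choose 3 ≤ v ^ 3 := by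
    have := Nat.descFactorial_le_pow v 3
    rw [Nat.descFactorial_eq_factorial_mul_choose] at this
    exact this
  have h3 : a ^ 6 ≤ 720 * K.choose 6 := by
    have := Nat.pow_sub_le_descFactorial K 6
    rw [Nat.descFactorial_eq_factorial_mul_choose] at this
    have e : K + 1 - 6 = a := by omega
    rw [e] at this
    exact this
  have h4 : 59 ^ 4 * v ^ 4 ≤ 131 ^ 4 * a ^ 4 := by
    rw [← mul_pow, ← mul_pow]
    exact Nat.pow_le_pow_left h1 4
  have h5 : 59 ^ 8 ≤ a ^ 8 := Nat.pow_le_pow_left ha59 8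
  have h6 : a ^ 6 * a ^ 6 ≤ (720 * K.choose 6) * (720 * K.choose 6) := Nat.mul_le_mul h3 h3
  have h7 : 6 * (v * v.choose 3) ≤ v ^ 4 := by
    calc 6 * (v * v.choose 3) = v * (6 * v.choose 3) := by ring
      _ ≤ v * v ^ 3 := Nat.mul_le_mul_left _ h2
      _ = v ^ 4 := by ring
  have ha4 : 0 < a ^ 4 := by positivity
  -- combine
  have h8 : 59 ^ 4 * (6 * 518400 * (15 * (22714 * (v * v.choose 3)))) <
      59 ^ 4 * (6 * (a ^ 6 * a ^ 6)) := by
    calc 59 ^ 4 * (6 * 518400 * (15 * (22714 * (v * v.choose 3))))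
        = 518400 * 15 * 22714 * (59 ^ 4 * (6 * (v * v.choose 3))) := by ring
      _ ≤ 518400 * 15 * 22714 * (59 ^ 4 * v ^ 4) :=
          Nat.mul_le_mul_left _ (Nat.mul_le_mul_left _ h7)
      _ ≤ 518400 * 15 * 22714 * (131 ^ 4 * a ^ 4) := Nat.mul_le_mul_left _ h4
      _ = (518400 * 15 * 22714 * 131 ^ 4) * a ^ 4 := by ring
      _ < (59 ^ 4 * 6 * 59 ^ 8) * a ^ 4 := Nat.mul_lt_mul_of_pos_right (by norm_num) ha4
      _ ≤ (59 ^ 4 * 6 * a ^ 8) * a ^ 4 :=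
          Nat.mul_le_mul_right _ (Nat.mul_le_mul_left _ h5)
      _ = 59 ^ 4 * (6 * (a ^ 6 * a ^ 6)) := by ring
  have h9 : 6 * 518400 * (15 * (22714 * (v * v.choose 3))) < 6 * (a ^ 6 * a ^ 6) :=
    Nat.lt_of_mul_lt_mul_left h8
  have h10 : 6 * (a ^ 6 * a ^ 6) ≤ 6 * 518400 * (K.choose 6 * K.choose 6) := by
    calc 6 * (a ^ 6 * a ^ 6) ≤ 6 * ((720 * K.choose 6) * (720 * K.choose 6)) :=
          Nat.mul_le_mul_left _ h6
      _ = _ := by ring
  exact Nat.lt_of_mul_lt_mul_left (h9.trans_le h10)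

/-- The inequalities needed for the roots. -/
theorem ineq_root {K : ℕ} (hK : 64 ≤ K) {k l j : ℕ} (hk : K ≤ k) (hl : K ≤ l) (hkl : k + l = 2 * K + 3)
    (h1 : 1 ≤ j) (h4 : j ≤ 4) :
    15 * (22714 * ((2 * K + 3) * (2 * K + 3).choose 3)) < k.choose (6 * j) * l.choose (6 * j) := by
  refine (ineq_large hK).trans_le ?_
  have h5 : K.choose 6 ≤ K.choose (6 * j) := choose_mono_half (by omega) (by omega)
  exact Nat.mul_le_mul (h5.trans (Nat.choose_le_choose _ hk))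
    (h5.trans (Nat.choose_le_choose _ hl))

theorem ineq_32 {j : ℕ} (h1 : 1 ≤ j) (h4 : j ≤ 4) :
    15 * (22714 * (67 * Nat.choose 67 3)) < Nat.choose 32 (6 * j) * Nat.choose 35 (6 * j) := by
  have h : j = 1 ∨ j = 2 ∨ j = 3 ∨ j = 4 := by omega
  rcases h with rfl | rfl | rfl | rfl <;> decide +kernel

theorem ineq_33 {j : ℕ} (h1 : 1 ≤ j) (h4 : j ≤ 4) :
    15 * (22714 * (67 * Nat.choose 67 3)) < Nat.choose 33 (6 * j) * Nat.choose 34 (6 * j) := by
  have h : j = 1 ∨ j = 2 ∨ j = 3 ∨ j = 4 := by omega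
  rcases h with rfl | rfl | rfl | rfl <;> decide +kernel

end Halving
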