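import Pool.Agent.Halving.Rec
import Pool.Agent.Halving.Feas
import Pool.Agent.Halving.Num
import Pool.Agent.Halving.DataA
import Pool.Agent.Halving.DataB
import Pool.Agent.Halving.DataC
import Pool.Agent.Halving.DataD

/-!
# The halving conjecture for `t ≤ 3`
-/

namespace Halving

open Finset

/-- The window condition implies that the binomial coefficient is even. -/
theorem even_of_window (n : ℕ) : ∀ v k : ℕ, v % 2 ^ n < k % 2 ^ n → 2 ∣ v.choose k := by
  induction n with
  | zero =>
    intro v k h
    rw [pow_zero, Nat.mod_one, Nat.mod_one] at h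
    omega
  | succ n ih =>
    intro v k h
    have hp : Fact (Nat.Prime 2) := ⟨Nat.prime_two⟩
    have h1 := Choose.choose_modEq_choose_mod_mul_choose_div_nat (n := v) (k := k) (p := 2)
    refine Nat.modEq_zero_iff_dvd.1 (h1.trans (Nat.modEq_zero_iff_dvd.2 ?_))
    rw [pow_succ', Nat.mod_mul, Nat.mod_mul] at h
    rcases Nat.lt_or_ge (v / 2 % 2 ^ n) (k / 2 % 2 ^ n) with h2 | h2
    · exact Dvd.dvd.mul_left (ih _ _ h2) _
    · have h3 := Nat.mod_lt v (show 0 < 2 by norm_num)
      have h4 := Nat.mod_lt k (show 0 < 2 by norm_num)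
      have h5 : v % 2 = 0 := by omega
      have h6 : k % 2 = 1 := by omega
      rw [h5, h6]
      simp

/-- Feasibility from the window condition. -/
theorem feasible_of_window {t v k n : ℕ} (h1 : t ≤ v % 2 ^ n) (h2 : v % 2 ^ n < k % 2 ^ n) :
    ∀ i ≤ t, 2 ∣ (v - i).choose (k - i) := by
  intro i hi
  refine even_of_window n _ _ ?_
  rw [mod_sub_of_lt (by omega), mod_sub_of_lt (by omega)]
  omega

/-- The roots of strength four. -/
theorem roots_three {n k : ℕ} (hn : 3 ≤ n) (h1 : 2 ^ (n - 1) ≤ k) (h2 : k ≤ 2 ^ (n - 1) + 3) :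
    Bal 4 k (2 ^ n + 3) := by
  obtain ⟨K, hK⟩ : ∃ K, K = 2 ^ (n - 1) := ⟨_, rfl⟩
  have h2n : 2 ^ n = 2 * K := by
    rw [hK, ← pow_succ']
    congr 1
    omega
  rw [h2n]
  rw [← hK] at h1 h2
  -- reduction to `k ≤ K + 1` by complementation
  have hred : (∀ k', K ≤ k' → k' ≤ K + 1 → Bal 4 k' (2 * K + 3)) → Bal 4 k (2 * K + 3) := by
    intro h
    rcases Nat.lt_or_ge (K + 1) k with h3 | h3
    · have h4 := (h (2 * K + 3 - k) (by omega) (by omega)).compl (by omega)
      have e : 2 * K + 3 - (2 * K + 3 - k) = k := by omega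
      rw [e] at h4
      exact h4
    · exact h k h1 h3
  apply hred
  intro k' h3 h4
  have h5 : k' = K ∨ k' = K + 1 := by omega
  have h6 : n = 3 ∨ n = 4 ∨ n = 5 ∨ n = 6 ∨ 7 ≤ n := by omega
  rcases h6 with rfl | rfl | rfl | rfl | h6
  · norm_num at hK
    subst hK
    rcases h5 with rfl | rfl
    · exact bal4_11
    · exact bal5_11
  · norm_num at hK
    subst hK
    rcases h5 with rfl | rfl
    · exact bal8_19
    · exact bal9_19
  · norm_num at hK
    subst hK
    rcases h5 with rfl | rfl
    · exact bal16_35
    · exact bal17_35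
  · norm_num at hK
    subst hK
    rcases h5 with rfl | rfl
    · refine bal_of_num (feasible_of_window (n := 6) (by norm_num) (by norm_num)) (by norm_num)
        (by norm_num) (by norm_num) ?_
      intro j hj1 hj2
      exact ineq_32 hj1 hj2
    · refine bal_of_num (feasible_of_window (n := 6) (by norm_num) (by norm_num)) (by norm_num)
        (by norm_num) (by norm_num) ?_
      intro j hj1 hj2
      exact ineq_33 hj1 hj2
  · have hK64 : 64 ≤ K := by
      rw [hK]
      calc 64 = 2 ^ 6 := by norm_num
        _ ≤ 2 ^ (n - 1) := Nat.pow_le_pow_right (by norm_num) (by omega)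
    refine bal_of_num (feasible_of_window (n := n) ?_ ?_) (by omega) (by omega) (by omega) ?_
    · rw [h2n, Nat.add_mod_left, Nat.mod_eq_of_lt (by omega)]
    · rw [h2n, Nat.add_mod_left, Nat.mod_eq_of_lt (by omega), Nat.mod_eq_of_lt (by omega)]
      omega
    · intro j hj1 hj2
      exact ineq_root hK64 h3 (by omega) (by omega) hj1 hj2

theorem roots_all : Roots 3 := by
  intro t ht n k h1 h2 h3
  have hn : n ≠ 0 := by
    rintro rfl
    rw [pow_zero] at h2
    omega
  have h4 : t = 0 ∨ t = 1 ∨ t = 2 ∨ t = 3 := by omega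
  rcases Nat.lt_or_ge n 3 with hn3 | hn3
  · have h5 : n = 1 ∨ n = 2 := by omega
    rcases h5 with rfl | rfl
    · norm_num at h2
      have ht0 : t = 0 := by omega
      subst ht0
      have hk1 : k = 1 := by omega
      subst hk1
      exact bal1_2
    · norm_num at h2 h3
      rcases h4 with rfl | rfl | rfl | rfl
      · have hk2 : k = 2 := by omega
        subst hk2
        have b : Bal 2 2 5 := Bal.link (r := 2) (k := 2) (n := 5) bal3_6
        exact Bal.del (r := 1) (k := 2) (n := 4) b
      · have hk2 : k = 2 ∨ k = 3 := by omega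
        rcases hk2 with rfl | rfl
        · exact Bal.link (r := 2) (k := 2) (n := 5) bal3_6
        · exact Bal.del (r := 2) (k := 3) (n := 5) bal3_6
      · have hk2 : k = 3 := by omega
        subst hk2
        exact bal3_6
      · omega
  · have h5 : 2 ^ (3 - 1) ≤ 2 ^ (n - 1) := Nat.pow_le_pow_right (by norm_num) (by omega)
    obtain ⟨h6, h7⟩ := h3 (by omega)
    have h8 : Bal 4 k (2 ^ n + 3) := roots_three hn3 h6 (by omega)
    rcases h4 with rfl | rfl | rfl | rfl
    · exact Bal.del (Bal.del (Bal.del h8))
    · exact Bal.del (Bal.del h8)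
    · exact Bal.del h8
    · exact h8

theorem Roots.mono {a b : ℕ} (h : Roots b) (hab : a ≤ b) : Roots a :=
  fun t ht => h t (ht.trans hab)

/-- Existence for `t ≤ 3`. -/
theorem bal_of_feasible {t k v : ℕ} (ht : t ≤ 3) (htk : t ≤ k) (hkv : k ≤ v)
    (h : ∀ i ≤ t, 2 ∣ (v - i).choose (k - i)) : Bal (t + 1) k v := by
  obtain ⟨n, h1, h2⟩ := window_of_feasible t v k htk hkv h
  exact bal_of_window (roots_all.mono ht) h1 h2

/-- Translation into designs. -/
theorem large_set_iff {t k v : ℕ} (htk : t ≤ k) (hkv : k ≤ v) :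
    (∃ B₁ B₂ : Finset (Finset (Fin v)), Disjoint B₁ B₂ ∧
      B₁ ∪ B₂ = (Finset.univ : Finset (Fin v)).powersetCard k ∧
      ∃ lam : ℕ, ∀ T : Finset (Fin v), T.card = t →
        (B₁.filter (fun b => T ⊆ b)).card = lam ∧
        (B₂.filter (fun b => T ⊆ b)).card = lam) ↔ Bal (t + 1) k v := by
  constructor
  · rintro ⟨B₁, B₂, hd, hu, lam, hlam⟩
    refine Bal.of (X := (univ : Finset (Fin v))) ?_ (by simp)
    refine ⟨fun S => if S ∈ B₁ then 1 else -1, ?_, ?_⟩
    · intro S _
      by_cases h : S ∈ B₁
      · simp [h]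
      · simp [h]
    · refine sum_zero_of_top htk ?_
      intro T hT
      rw [mem_powersetCard] at hT
      obtain ⟨h1, h2⟩ := hlam T hT.2
      rw [← hu, filter_union, sum_union (disjoint_filter_filter hd)]
      have e1 : ∑ S ∈ B₁.filter (T ⊆ ·), (if S ∈ B₁ then (1 : ℤ) else -1) = lam := by
        rw [← h1, card_eq_sum_ones, Nat.cast_sum]
        refine sum_congr rfl ?_
        intro S hS
        rw [if_pos (mem_filter.1 hS).1]
        simp
      have e2 : ∑ S ∈ B₂.filter (T ⊆ ·), (if S ∈ B₁ then (1 : ℤ) else -1) = -lam := by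
        rw [← h2, card_eq_sum_ones, Nat.cast_sum, ← sum_neg_distrib]
        refine sum_congr rfl ?_
        intro S hS
        rw [if_neg (fun h => disjoint_left.1 hd h (mem_filter.1 hS).1)]
        simp
      rw [e1, e2]
      ring
  · intro hb
    obtain ⟨f, hf, hf'⟩ := hb.to (univ : Finset (Fin v)) (by simp)
    refine ⟨(powersetCard k univ).filter (fun S => f S = 1),
      (powersetCard k univ).filter (fun S => ¬ f S = 1), ?_, ?_, ?_⟩
    · exact disjoint_filter_filter_not _ _ _
    · exact filter_union_filter_not_eq _ _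
    · have key : ∀ T : Finset (Fin v), T.card = t →
          (((powersetCard k univ).filter (fun S => f S = 1)).filter (fun b => T ⊆ b)).card
            = (((powersetCard k univ).filter (fun S => ¬ f S = 1)).filter
              (fun b => T ⊆ b)).card ∧
          (((powersetCard k univ).filter (fun S => f S = 1)).filter (fun b => T ⊆ b)).card +
            (((powersetCard k univ).filter (fun S => ¬ f S = 1)).filter
              (fun b => T ⊆ b)).card = (v - t).choose (k - t) := by
        intro T hT
        have h1 := hf' T (by omega)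
        have h2 := card_super (subset_univ T) k
        rw [card_univ, Fintype.card_fin, hT, if_pos htk] at h2
        rw [filter_comm, filter_comm (fun S => ¬ f S = 1)]
        rw [← sum_filter_add_sum_filter_not _ (fun S => f S = 1)] at h1
        have e1 : ∑ S ∈ ((powersetCard k univ).filter (T ⊆ ·)).filter (fun S => f S = 1), f S
            = (((powersetCard k univ).filter (T ⊆ ·)).filter (fun S => f S = 1)).card := by
          rw [card_eq_sum_ones, Nat.cast_sum]
          refine sum_congr rfl ?_
          intro S hS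
          rw [(mem_filter.1 hS).2]
          simp
        have e2 : ∑ S ∈ ((powersetCard k univ).filter (T ⊆ ·)).filter (fun S => ¬ f S = 1), f S
            = -(((powersetCard k univ).filter (T ⊆ ·)).filter (fun S => ¬ f S = 1)).card := by
          rw [card_eq_sum_ones, Nat.cast_sum, ← sum_neg_distrib]
          refine sum_congr rfl ?_
          intro S hS
          rw [mem_filter, mem_filter] at hS
          rcases hf S hS.1.1 with h | h
          · exact absurd h hS.2
          · rw [h]; simp
        rw [e1, e2] at h1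
        refine ⟨by omega, ?_⟩
        rw [← h2]
        exact card_filter_add_card_filter_not _
      refine ⟨(v - t).choose (k - t) / 2, ?_⟩
      intro T hT
      obtain ⟨h1, h2⟩ := key T hT
      constructor <;> omega

/-- Feasibility is necessary. -/
theorem feasible_of_bal {t k v : ℕ} (htk : t ≤ k) (hkv : k ≤ v) (h : Bal (t + 1) k v) :
    ∀ i ≤ t, 2 ∣ (v - i).choose (k - i) := by
  intro i hi
  obtain ⟨T, hT⟩ : ∃ T : Finset ℕ, T ∈ powersetCard i (range v) := by
    have : (powersetCard i (range v)).Nonempty := by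
      rw [powersetCard_nonempty, card_range]; omega
    exact this
  rw [mem_powersetCard] at hT
  obtain ⟨f, hf, hf'⟩ := h
  have h1 := hf' T (by omega)
  have h2 := card_super hT.1 k
  rw [card_range, hT.2, if_pos (by omega)] at h2
  rw [← h2]
  have h3 : (((powersetCard k (range v)).filter (T ⊆ ·)).card : ℤ)
      = 2 * (((powersetCard k (range v)).filter (T ⊆ ·)).filter (fun S => f S = 1)).card := by
    have h4 : ∑ S ∈ (powersetCard k (range v)).filter (T ⊆ ·), (f S + 1)
        = ((powersetCard k (range v)).filter (T ⊆ ·)).card := by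
      rw [sum_add_distrib, h1, zero_add, sum_const, nsmul_eq_mul, mul_one]
    rw [← h4, ← sum_filter_add_sum_filter_not _ (fun S => f S = 1)]
    have e1 : ∑ S ∈ ((powersetCard k (range v)).filter (T ⊆ ·)).filter (fun S => f S = 1),
        (f S + 1) = 2 * (((powersetCard k (range v)).filter (T ⊆ ·)).filter
          (fun S => f S = 1)).card := by
      rw [sum_congr rfl (g := fun _ => (2 : ℤ))]
      · rw [sum_const, nsmul_eq_mul, mul_comm]
      · intro S hS
        rw [(mem_filter.1 hS).2]
        norm_num
    have e2 : ∑ S ∈ ((powersetCard k (range v)).filter (T ⊆ ·)).filter (fun S => ¬ f S = 1),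
        (f S + 1) = 0 := by
      refine sum_eq_zero ?_
      intro S hS
      rw [mem_filter, mem_filter] at hS
      rcases hf S hS.1.1 with h | h
      · exact absurd h hS.2
      · rw [h]; norm_num
    rw [e1, e2, add_zero]
  refine ⟨(((powersetCard k (range v)).filter (T ⊆ ·)).filter (fun S => f S = 1)).card, ?_⟩
  exact_mod_cast h3

end Halving
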