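import Pool.Agent.Halving.Crit

/-!
# Monotonicity of the arithmetic criterion and binomial estimates
-/

namespace Halving

open Finset

theorem choose_mono_half' {n r s : ℕ} (hrs : r ≤ s) (hs : 2 * s ≤ n) :
    n.choose r ≤ n.choose s := by
  induction s with
  | zero =>
    have : r = 0 := by omega
    subst this
    exact le_refl _
  | succ s ih =>
    rcases Nat.lt_or_ge r (s + 1) with h | h
    · refine (ih (by omega) (by omega)).trans ?_
      exact Nat.choose_le_succ_of_lt_half_left (by omega)
    · have : r = s + 1 := by omega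
      rw [this]

/-- The middle binomial coefficients are larger. -/
theorem choose_middle {n r d : ℕ} (h1 : r ≤ d) (h2 : d ≤ n - r) (hr : r ≤ n) :
    n.choose r ≤ n.choose d := by
  rcases Nat.lt_or_ge n (2 * d) with h | h
  · rw [← Nat.choose_symm (by omega : d ≤ n)]
    exact choose_mono_half' (by omega) (by omega)
  · exact choose_mono_half' h1 h

theorem choose_mul_pow_le (n j p q : ℕ) : n.choose j * (p ^ j * q ^ (n - j)) ≤ (p + q) ^ n := by
  rcases Nat.lt_or_ge n j with h | h
  · rw [Nat.choose_eq_zero_of_lt h, zero_mul]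
    exact Nat.zero_le _
  · rw [add_pow]
    have h1 : n.choose j * (p ^ j * q ^ (n - j)) = p ^ j * q ^ (n - j) * n.choose j := by ring
    rw [h1]
    exact single_le_sum (f := fun m => p ^ m * q ^ (n - m) * n.choose m)
      (fun _ _ => Nat.zero_le _) (mem_range.2 (by omega))

/-- One step of the monotonicity in the second size. -/
theorem crit_step {L M k n t d : ℕ} (hd : t + 1 ≤ d) (hdn : d ≤ n)
    (h : L * ((k + n) * (k + n).choose t) ≤ M * (k.choose d * n.choose d)) :
    L * ((k + (n + 1)) * (k + (n + 1)).choose t) ≤ M * (k.choose d * (n + 1).choose d) := by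
  obtain ⟨v, hv⟩ : ∃ v, v = k + n := ⟨_, rfl⟩
  have e : k + (n + 1) = v + 1 := by omega
  rw [e]
  rw [← hv] at h
  have hnv : n ≤ v := by omega
  obtain ⟨a, ha⟩ : ∃ a, v + 1 = a + t := ⟨v + 1 - t, by omega⟩
  obtain ⟨c, hc⟩ : ∃ c, n + 1 = c + d := ⟨n + 1 - d, by omega⟩
  have h1 : (v + 1).choose t * a = v.choose t * (v + 1) := by
    have := Nat.choose_mul_succ_eq v t
    have e2 : v + 1 - t = a := by omega
    rw [e2] at this
    linarith
  have h2 : (n + 1).choose d * c = n.choose d * (n + 1) := by
    have := Nat.choose_mul_succ_eq n d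
    have e2 : n + 1 - d = c := by omega
    rw [e2] at this
    linarith
  have hv0 : 0 < v := by omega
  have ha0 : 0 < a := by omega
  have hc0 : 0 < c := by omega
  have key : (v + 1) ^ 2 * c ≤ (n + 1) * (v * a) := by
    obtain ⟨y, hy⟩ : ∃ y, v = n + y := ⟨v - n, by omega⟩
    obtain ⟨z, hz⟩ : ∃ z, d = t + 1 + z := ⟨d - (t + 1), by omega⟩
    -- `a = c + z + 1 + y`, `n + 1 = c + t + 1 + z`
    have ha' : a = c + z + 1 + y := by omega
    have hn' : n = c + t + z := by omega
    subst ha' hn' hy
    have h3 : (c + t + z + 1) * ((c + t + z + y) * (c + z + 1 + y)) =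
        (c + t + z + y + 1) ^ 2 * c + (
      y + y^2 + z + 3 * z * y + z * y^2 + 2 * z^2 + 2 * z^2 * y + z^3 + t + 2 * t * y +
      t * y^2 + 3 * t * z + 3 * t * z * y + 2 * t * z^2 + t^2 + t^2 * y + t^2 * z + c * y +
      2 * c * z + 2 * c * z * y + 2 * c * z^2 + c * t + c * t * y + 2 * c * t * z + c^2 * z) := by
      ring
    rw [h3]
    exact Nat.le_add_right _ _
  have hP : 0 < v * a * c := by positivity
  refine Nat.le_of_mul_le_mul_left ?_ hP
  calc v * a * c * (L * ((v + 1) * (v + 1).choose t))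
      = (L * (v * ((v + 1).choose t * a))) * ((v + 1) * c) := by ring
    _ = (L * (v * (v.choose t * (v + 1)))) * ((v + 1) * c) := by rw [h1]
    _ = (L * (v * v.choose t)) * ((v + 1) ^ 2 * c) := by ring
    _ ≤ (M * (k.choose d * n.choose d)) * ((n + 1) * (v * a)) := Nat.mul_le_mul h key
    _ = (M * (k.choose d * (n.choose d * (n + 1)))) * (v * a) := by ring
    _ = (M * (k.choose d * ((n + 1).choose d * c))) * (v * a) := by rw [h2]
    _ = v * a * c * (M * (k.choose d * (n + 1).choose d)) := by ring

theorem crit_mono_right {L M k n t d : ℕ} (hd : t + 1 ≤ d) (hdn : d ≤ n)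
    (h : L * ((k + n) * (k + n).choose t) ≤ M * (k.choose d * n.choose d)) {n' : ℕ}
    (hn : n ≤ n') :
    L * ((k + n') * (k + n').choose t) ≤ M * (k.choose d * n'.choose d) := by
  induction n', hn using Nat.le_induction with
  | base => exact h
  | succ n' hn ih => exact crit_step hd (hdn.trans hn) ih

theorem crit_mono {L M k n t d : ℕ} (hd : t + 1 ≤ d) (hdk : d ≤ k) (hdn : d ≤ n)
    (h : L * ((k + n) * (k + n).choose t) ≤ M * (k.choose d * n.choose d)) {k' n' : ℕ}
    (hk : k ≤ k') (hn : n ≤ n') :
    L * ((k' + n') * (k' + n').choose t) ≤ M * (k'.choose d * n'.choose d) := by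
  have h1 := crit_mono_right hd hdn h hn
  rw [Nat.add_comm k n', Nat.mul_comm (k.choose d)] at h1
  have h2 := crit_mono_right hd hdk h1 hk
  rw [Nat.add_comm n' k', Nat.mul_comm (n'.choose d)] at h2
  exact h2

end Halving
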