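import Pool.Agent.Halving.Basic

/-!
# Operations on signings: products, complements, deletion, link, Pascal step
-/

namespace Halving

open Finset

section ops

variable {α : Type*} [DecidableEq α]

/-- Strength is additive for products. -/
theorem solv_prod {r1 r2 i j : ℕ} {X1 X2 Z : Finset α} (hd : Disjoint X1 X2)
    (hZ1 : Disjoint X1 Z) (hZ2 : Disjoint X2 Z)
    (h1 : Solv r1 (powersetCard i X1)) (h2 : Solv r2 (powersetCard j X2))
    {F : Finset (Finset α)}
    (hF : ∀ S, S ∈ F ↔ S ⊆ X1 ∪ X2 ∪ Z ∧ (S ∩ X1).card = i ∧ (S ∩ X2).card = j ∧ Z ⊆ S) :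
    Solv (r1 + r2) F := by
  obtain ⟨f1, hf1, hf1'⟩ := h1
  obtain ⟨f2, hf2, hf2'⟩ := h2
  have hm1 : ∀ S ∈ F, S ∩ X1 ∈ powersetCard i X1 := by
    intro S hS
    rw [mem_powersetCard]
    exact ⟨inter_subset_right, ((hF S).1 hS).2.1⟩
  have hm2 : ∀ S ∈ F, S ∩ X2 ∈ powersetCard j X2 := by
    intro S hS
    rw [mem_powersetCard]
    exact ⟨inter_subset_right, ((hF S).1 hS).2.2.1⟩
  have hc1 : ∀ U W : Finset α, U ⊆ X1 → W ⊆ X2 → (U ∪ W ∪ Z) ∩ X1 = U := by
    intro U W hU hW
    ext x
    simp only [mem_inter, mem_union]
    constructor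
    · rintro ⟨(hx | hx) | hx, hx1⟩
      · exact hx
      · exact absurd (hW hx) (disjoint_left.1 hd hx1)
      · exact absurd hx (disjoint_left.1 hZ1 hx1)
    · intro hx
      exact ⟨Or.inl (Or.inl hx), hU hx⟩
  have hc2 : ∀ U W : Finset α, U ⊆ X1 → W ⊆ X2 → (U ∪ W ∪ Z) ∩ X2 = W := by
    intro U W hU hW
    ext x
    simp only [mem_inter, mem_union]
    constructor
    · rintro ⟨(hx | hx) | hx, hx1⟩
      · exact absurd hx1 (disjoint_left.1 hd (hU hx))
      · exact hx
      · exact absurd hx (disjoint_left.1 hZ2 hx1)
    · intro hx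
      exact ⟨Or.inl (Or.inr hx), hW hx⟩
  refine ⟨fun S => f1 (S ∩ X1) * f2 (S ∩ X2), ?_, ?_⟩
  · intro S hS
    rcases hf1 _ (hm1 S hS) with h | h <;> rcases hf2 _ (hm2 S hS) with h' | h' <;>
      simp [h, h']
  · intro T hT
    by_cases hTX : T ⊆ X1 ∪ X2 ∪ Z
    swap
    · have : F.filter (T ⊆ ·) = ∅ := by
        rw [filter_eq_empty_iff]
        intro S hS hTS
        exact hTX (hTS.trans ((hF S).1 hS).1)
      rw [this, sum_empty]
    have key : ∑ S ∈ F with T ⊆ S, f1 (S ∩ X1) * f2 (S ∩ X2)
        = ∑ p ∈ ((powersetCard i X1).filter (T ∩ X1 ⊆ ·)) ×ˢ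
            ((powersetCard j X2).filter (T ∩ X2 ⊆ ·)), f1 p.1 * f2 p.2 := by
      refine sum_nbij' (fun S => (S ∩ X1, S ∩ X2)) (fun p => p.1 ∪ p.2 ∪ Z) ?_ ?_ ?_ ?_ ?_
      · intro S hS
        rw [mem_filter] at hS
        rw [mem_product, mem_filter, mem_filter]
        exact ⟨⟨hm1 S hS.1, inter_subset_inter_right hS.2⟩,
          ⟨hm2 S hS.1, inter_subset_inter_right hS.2⟩⟩
      · intro p hp
        rw [mem_product, mem_filter, mem_filter, mem_powersetCard, mem_powersetCard] at hp
        obtain ⟨⟨⟨hU, hUc⟩, hTU⟩, ⟨⟨hW, hWc⟩, hTW⟩⟩ := hp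
        rw [mem_filter, hF, hc1 _ _ hU hW, hc2 _ _ hU hW]
        refine ⟨⟨?_, hUc, hWc, subset_union_right⟩, ?_⟩
        · exact union_subset_union (union_subset_union hU hW) (Subset.refl _)
        · intro x hx
          have := hTX hx
          simp only [mem_union] at this ⊢
          rcases this with (h | h) | h
          · exact Or.inl (Or.inl (hTU (mem_inter.2 ⟨hx, h⟩)))
          · exact Or.inl (Or.inr (hTW (mem_inter.2 ⟨hx, h⟩)))
          · exact Or.inr h
      · intro S hS
        rw [mem_filter, hF] at hS
        obtain ⟨⟨hS1, -, -, hZS⟩, -⟩ := hS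
        ext x
        simp only [mem_union, mem_inter]
        constructor
        · rintro ((h | h) | h)
          · exact h.1
          · exact h.1
          · exact hZS h
        · intro hx
          have := hS1 hx
          simp only [mem_union] at this
          rcases this with (h | h) | h
          · exact Or.inl (Or.inl ⟨hx, h⟩)
          · exact Or.inl (Or.inr ⟨hx, h⟩)
          · exact Or.inr h
      · intro p hp
        rw [mem_product, mem_filter, mem_filter, mem_powersetCard, mem_powersetCard] at hp
        obtain ⟨⟨⟨hU, hUc⟩, hTU⟩, ⟨⟨hW, hWc⟩, hTW⟩⟩ := hp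
        exact Prod.ext (hc1 _ _ hU hW) (hc2 _ _ hU hW)
      · intro S _
        rfl
    rw [key, sum_product, ← sum_mul_sum]
    have hle : (T ∩ X1).card + (T ∩ X2).card ≤ T.card := by
      rw [← card_union_of_disjoint]
      · exact card_le_card (union_subset inter_subset_left inter_subset_left)
      · exact (hd.mono inter_subset_right inter_subset_right)
    rcases Nat.lt_or_ge (T ∩ X1).card r1 with h | h
    · rw [hf1' _ h, zero_mul]
    · rw [hf2' _ (by omega), mul_zero]

/-- Complementation. -/
theorem solv_compl {r k : ℕ} {X : Finset α} (h : Solv r (powersetCard k X))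
    (hk : k ≤ X.card) : Solv r (powersetCard (X.card - k) X) := by
  obtain ⟨f, hf, hf'⟩ := h
  have hmem : ∀ S ∈ powersetCard (X.card - k) X, X \ S ∈ powersetCard k X := by
    intro S hS
    rw [mem_powersetCard] at hS ⊢
    refine ⟨sdiff_subset, ?_⟩
    rw [card_sdiff_of_subset hS.1, hS.2]
    omega
  have hmem' : ∀ S ∈ powersetCard k X, X \ S ∈ powersetCard (X.card - k) X := by
    intro S hS
    rw [mem_powersetCard] at hS ⊢
    refine ⟨sdiff_subset, ?_⟩
    rw [card_sdiff_of_subset hS.1, hS.2]
  refine ⟨fun S => f (X \ S), fun S hS => hf _ (hmem S hS), ?_⟩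
  intro T hT
  by_cases hTX : T ⊆ X
  swap
  · have : (powersetCard (X.card - k) X).filter (T ⊆ ·) = ∅ := by
      rw [filter_eq_empty_iff]
      intro S hS hTS
      exact hTX (hTS.trans (mem_powersetCard.1 hS).1)
    rw [this, sum_empty]
  have e1 : ∑ S ∈ powersetCard (X.card - k) X with T ⊆ S, f (X \ S)
      = ∑ S ∈ powersetCard k X with T ∩ S = ∅, f S := by
    refine sum_nbij' (fun S => X \ S) (fun S => X \ S) ?_ ?_ ?_ ?_ ?_
    · intro S hS
      rw [mem_filter] at hS ⊢
      refine ⟨hmem S hS.1, ?_⟩
      ext x
      simp only [mem_inter, mem_sdiff, notMem_empty, iff_false]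
      rintro ⟨hx, -, hxS⟩
      exact hxS (hS.2 hx)
    · intro S hS
      rw [mem_filter] at hS ⊢
      refine ⟨hmem' S hS.1, ?_⟩
      intro x hx
      rw [mem_sdiff]
      refine ⟨hTX hx, fun hxS => ?_⟩
      have : x ∈ T ∩ S := mem_inter.2 ⟨hx, hxS⟩
      rw [hS.2] at this
      exact absurd this (notMem_empty x)
    · intro S hS
      rw [mem_filter, mem_powersetCard] at hS
      exact Finset.sdiff_sdiff_eq_self hS.1.1
    · intro S hS
      rw [mem_filter, mem_powersetCard] at hS
      exact Finset.sdiff_sdiff_eq_self hS.1.1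
    · intro S _
      rfl
  rw [e1, sum_filter]
  have e2 : ∀ S ∈ powersetCard k X, (if T ∩ S = ∅ then f S else 0)
      = ∑ U ∈ T.powerset, (-1) ^ U.card * (if U ⊆ S then f S else 0) := by
    intro S _
    have h3 : ∑ U ∈ T.powerset, (-1 : ℤ) ^ U.card * (if U ⊆ S then f S else 0)
        = ∑ U ∈ (T ∩ S).powerset, (-1 : ℤ) ^ U.card * f S := by
      have : (T ∩ S).powerset = T.powerset.filter (· ⊆ S) := by
        ext U
        simp only [mem_powerset, mem_filter, subset_inter_iff]
      rw [this, sum_filter]
      refine sum_congr rfl ?_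
      intro U _
      split_ifs <;> simp
    rw [h3, ← sum_mul, sum_powerset_neg_one_pow_card]
    split_ifs <;> simp
  rw [sum_congr rfl e2, sum_comm]
  refine sum_eq_zero ?_
  intro U hU
  rw [← mul_sum, ← sum_filter]
  rw [hf' U (lt_of_le_of_lt (card_le_card (mem_powerset.1 hU)) hT), mul_zero]

/-- Deleting a point lowers the strength by one. -/
theorem solv_del {r k : ℕ} {X : Finset α} {x : α} (hx : x ∈ X)
    (h : Solv (r + 1) (powersetCard k X)) : Solv r (powersetCard k (X.erase x)) := by
  obtain ⟨f, hf, hf'⟩ := h
  refine ⟨f, ?_, ?_⟩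
  · intro S hS
    exact hf S (powersetCard_mono (erase_subset _ _) hS)
  · intro T hT
    by_cases hxT : x ∈ T
    · have : (powersetCard k (X.erase x)).filter (T ⊆ ·) = ∅ := by
        rw [filter_eq_empty_iff]
        intro S hS hTS
        have := (mem_powersetCard.1 hS).1 (hTS hxT)
        simp at this
      rw [this, sum_empty]
    · have e1 := hf' T (by omega)
      have e2 := hf' (insert x T) (by rw [card_insert_of_notMem hxT]; omega)
      rw [← sum_filter_add_sum_filter_not _ (fun S => x ∈ S)] at e1
      have a1 : ((powersetCard k X).filter (T ⊆ ·)).filter (fun S => x ∈ S)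
          = (powersetCard k X).filter (insert x T ⊆ ·) := by
        ext S
        simp only [mem_filter, insert_subset_iff]
        tauto
      have a2 : ((powersetCard k X).filter (T ⊆ ·)).filter (fun S => ¬ x ∈ S)
          = (powersetCard k (X.erase x)).filter (T ⊆ ·) := by
        ext S
        simp only [mem_filter, mem_powersetCard, subset_erase]
        tauto
      rw [a1, a2, e2, zero_add] at e1
      exact e1

/-- Passing to the link of a point lowers the strength by one. -/
theorem solv_link {r k : ℕ} {X : Finset α} {x : α} (hx : x ∈ X)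
    (h : Solv (r + 1) (powersetCard (k + 1) X)) : Solv r (powersetCard k (X.erase x)) := by
  obtain ⟨f, hf, hf'⟩ := h
  refine ⟨fun S => f (insert x S), ?_, ?_⟩
  · intro S hS
    rw [mem_powersetCard, subset_erase] at hS
    refine hf _ ?_
    rw [mem_powersetCard, card_insert_of_notMem hS.1.2, hS.2]
    exact ⟨insert_subset hx hS.1.1, rfl⟩
  · intro T hT
    by_cases hxT : x ∈ T
    · have : (powersetCard k (X.erase x)).filter (T ⊆ ·) = ∅ := by
        rw [filter_eq_empty_iff]
        intro S hS hTS
        have := (mem_powersetCard.1 hS).1 (hTS hxT)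
        simp at this
      rw [this, sum_empty]
    · have e2 := hf' (insert x T) (by rw [card_insert_of_notMem hxT]; omega)
      rw [← e2]
      refine sum_nbij' (fun S => insert x S) (fun S => S.erase x) ?_ ?_ ?_ ?_ ?_
      · intro S hS
        rw [mem_filter, mem_powersetCard, subset_erase] at hS
        rw [mem_filter, mem_powersetCard, card_insert_of_notMem hS.1.1.2, hS.1.2]
        exact ⟨⟨insert_subset hx hS.1.1.1, rfl⟩, insert_subset_insert _ hS.2⟩
      · intro S hS
        rw [mem_filter, mem_powersetCard, insert_subset_iff] at hS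
        rw [mem_filter, mem_powersetCard, card_erase_of_mem hS.2.1, hS.1.2]
        refine ⟨⟨erase_subset_erase _ hS.1.1, by omega⟩, ?_⟩
        rw [subset_erase]
        exact ⟨hS.2.2, hxT⟩
      · intro S hS
        rw [mem_filter, mem_powersetCard, subset_erase] at hS
        exact erase_insert hS.1.1.2
      · intro S hS
        rw [mem_filter, insert_subset_iff] at hS
        exact insert_erase hS.2.1
      · intro S _
        rfl

/-- The Pascal step. -/
theorem solv_pascal {r k : ℕ} {X : Finset α} {x : α} (hx : x ∉ X)
    (h0 : Solv r (powersetCard k X)) (h1 : Solv r (powersetCard (k + 1) X)) :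
    Solv r (powersetCard (k + 1) (insert x X)) := by
  refine solv_split (fun S => x ∈ S) ?_ ?_
  · have := solv_prod (r2 := 0) (X1 := X) (X2 := ∅) (Z := {x}) (j := 0) (by simp)
      (by simpa using hx) (by simp) h0 (solv_zero _)
      (F := (powersetCard (k + 1) (insert x X)).filter (fun S => x ∈ S)) ?_
    · simpa using this
    · intro S
      simp only [mem_filter, mem_powersetCard, union_empty, inter_empty, card_empty,
        singleton_subset_iff, true_and]
      constructor
      · rintro ⟨⟨hS, hc⟩, hxS⟩
        refine ⟨?_, ?_, hxS⟩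
        · intro y hy
          have := hS hy
          simp only [mem_insert, mem_union, mem_singleton] at this ⊢
          tauto
        · have : S ∩ X = S.erase x := by
            ext y
            simp only [mem_inter, mem_erase]
            constructor
            · rintro ⟨h1, h2⟩
              exact ⟨fun h => hx (h ▸ h2), h1⟩
            · rintro ⟨h1, h2⟩
              refine ⟨h2, ?_⟩
              have := hS h2
              simp only [mem_insert] at this
              tauto
          rw [this, card_erase_of_mem hxS, hc]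
          omega
      · rintro ⟨hS, hc, hxS⟩
        refine ⟨⟨?_, ?_⟩, hxS⟩
        · intro y hy
          have := hS hy
          simp only [mem_insert, mem_union, mem_singleton] at this ⊢
          tauto
        · have : S = insert x (S ∩ X) := by
            ext y
            simp only [mem_inter, mem_insert]
            constructor
            · intro h1
              have := hS h1
              simp only [mem_union, mem_singleton] at this
              tauto
            · rintro (h1 | h1)
              · rw [h1]; exact hxS
              · exact h1.1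
          rw [this, card_insert_of_notMem (by simp [hx]), hc]
  · have : (powersetCard (k + 1) (insert x X)).filter (fun S => ¬ x ∈ S)
        = powersetCard (k + 1) X := by
      ext S
      simp only [mem_filter, mem_powersetCard]
      constructor
      · rintro ⟨⟨hS, hc⟩, hxS⟩
        refine ⟨?_, hc⟩
        intro y hy
        have := hS hy
        simp only [mem_insert] at this
        rcases this with h | h
        · exact absurd (h ▸ hy) hxS
        · exact h
      · rintro ⟨hS, hc⟩
        exact ⟨⟨hS.trans (subset_insert _ _), hc⟩, fun h => hx (hS h)⟩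
    rw [this]
    exact h1

end ops

theorem Bal.compl {r k n : ℕ} (h : Bal r k n) (hk : k ≤ n) : Bal r (n - k) n := by
  have := solv_compl h (by simpa using hk)
  simpa [Bal] using this

theorem Bal.del {r k n : ℕ} (h : Bal (r + 1) k (n + 1)) : Bal r k n := by
  have := solv_del (x := n) (by simp) h
  have he : (range (n + 1)).erase n = range n := by
    rw [range_add_one, erase_insert notMem_range_self]
  rw [he] at this
  exact this

theorem Bal.link {r k n : ℕ} (h : Bal (r + 1) (k + 1) (n + 1)) : Bal r k n := by
  have := solv_link (x := n) (by simp) h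
  have he : (range (n + 1)).erase n = range n := by
    rw [range_add_one, erase_insert notMem_range_self]
  rw [he] at this
  exact this

theorem Bal.pascal {r k n : ℕ} (h0 : Bal r k n) (h1 : Bal r (k + 1) n) :
    Bal r (k + 1) (n + 1) := by
  unfold Bal
  rw [range_add_one]
  exact solv_pascal notMem_range_self h0 h1

end Halving
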