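import Pool.Agent.Halving.Good
import Pool.Agent.Halving.Top

/-!
# The sign of the product of cosines
-/

namespace Halving

open Finset

section pos

variable {α : Type*} [DecidableEq α]

/-- The distance of `G S` to the nearest integer exceeds `η`. -/
noncomputable def badSet (η : ℝ) (G : Finset α → ℝ) (k : ℕ) (X : Finset α) :
    Finset (Finset α) := by
  classical
  exact (powersetCard k X).filter (fun S => η < |G S - round (G S)|)

omit [DecidableEq α] in
theorem mem_badSet {η : ℝ} {G : Finset α → ℝ} {k : ℕ} {X S : Finset α} :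
    S ∈ badSet η G k X ↔ S ∈ powersetCard k X ∧ η < |G S - round (G S)| := by
  unfold badSet
  simp only [mem_filter]

/-- If there are many bad sets the product of cosines is small. -/
theorem prod_small {η : ℝ} (hη0 : 0 ≤ η) (hη1 : η ≤ 1 / 2) {G : Finset α → ℝ} {k B : ℕ}
    {X : Finset α} (hB : B ≤ (badSet η G k X).card) :
    |∏ S ∈ powersetCard k X, (2 * Real.cos (Real.pi * G S))| ≤
      2 ^ (powersetCard k X).card * (1 - 2 * η ^ 2) ^ B := by
  classical
  have hη2 : 0 ≤ 1 - 2 * η ^ 2 := by nlinarith
  have hη3 : 1 - 2 * η ^ 2 ≤ 1 := by nlinarith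
  have hsub : badSet η G k X ⊆ powersetCard k X := by
    intro S hS
    exact (mem_badSet.1 hS).1
  have h1 : ∀ S, |Real.cos (Real.pi * G S)| = |Real.cos (Real.pi * (G S - round (G S)))| := by
    intro S
    have e : Real.pi * G S = Real.pi * (G S - round (G S)) + (round (G S) : ℤ) * Real.pi := by
      ring
    rw [e, Real.cos_add_int_mul_pi, abs_mul, abs_zpow, abs_neg, abs_one, one_zpow, one_mul]
  have h2 : ∀ S, |Real.cos (Real.pi * G S)| ≤ 1 - 2 * (G S - round (G S)) ^ 2 := by
    intro S
    rw [h1]
    have h3 : |G S - round (G S)| ≤ 1 / 2 := abs_sub_round _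
    have hpi := Real.pi_pos
    have h4 : |Real.pi * (G S - round (G S))| ≤ Real.pi / 2 := by
      rw [abs_mul, abs_of_pos hpi]
      nlinarith
    have h5 : 0 ≤ Real.cos (Real.pi * (G S - round (G S))) := by
      refine Real.cos_nonneg_of_mem_Icc ?_
      rw [abs_le] at h4
      exact ⟨by linarith [h4.1], h4.2⟩
    rw [abs_of_nonneg h5]
    refine (Real.cos_le_one_sub_mul_cos_sq (h4.trans (by linarith))).trans ?_
    apply le_of_eq
    field_simp
  rw [abs_prod]
  have h6 : ∀ S ∈ powersetCard k X, |2 * Real.cos (Real.pi * G S)| ≤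
      2 * (if S ∈ badSet η G k X then 1 - 2 * η ^ 2 else 1) := by
    intro S hS
    rw [abs_mul, abs_of_pos (by norm_num : (0 : ℝ) < 2)]
    refine mul_le_mul_of_nonneg_left ?_ (by norm_num)
    split_ifs with hb
    · have h7 := (mem_badSet.1 hb).2
      have h8 : η ^ 2 ≤ (G S - round (G S)) ^ 2 := by
        rw [← sq_abs (G S - round (G S))]
        exact pow_le_pow_left₀ hη0 h7.le 2
      have := h2 S
      linarith
    · exact Real.abs_cos_le_one _
  refine (prod_le_prod (fun S _ => abs_nonneg _) h6).trans ?_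
  rw [prod_mul_distrib, prod_const]
  refine mul_le_mul_of_nonneg_left ?_ (by positivity)
  rw [prod_ite_mem]
  rw [inter_eq_right.2 hsub, prod_const]
  exact pow_le_pow_of_le_one hη2 hη3 hB

theorem prod_neg_one_zpow {ι : Type*} [DecidableEq ι] (F : Finset ι) (n : ι → ℤ) :
    ∏ S ∈ F, (-1 : ℝ) ^ n S = (-1) ^ (∑ S ∈ F, n S) := by
  induction F using Finset.induction_on with
  | empty => simp
  | insert a F ha ih => rw [prod_insert ha, sum_insert ha, zpow_add₀ (by norm_num), ih]

/-- If there are few bad sets the product of cosines is nonnegative. -/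
theorem prod_nonneg_of_few {t k b : ℕ} {X : Finset α} (c : Finset α → ℝ)
    (hfeas : ∀ i ≤ t, 2 ∣ (X.card - i).choose (k - i)) (htk : t + 1 ≤ k)
    (hk : (t + 1) * b ≤ k) (hv : (t + 1) * b ≤ X.card - k)
    (hBad : ∀ j, 1 ≤ j → j ≤ t + 1 →
      (2 ^ (t + 1) - 1) * (badSet (1 / 4 ^ (t + 1)) (poly (t + 1) c) k X).card
        < k.choose (b * j) * (X.card - k).choose (b * j)) :
    0 ≤ ∏ S ∈ powersetCard k X, (2 * Real.cos (Real.pi * poly (t + 1) c S)) := by
  classical
  obtain ⟨G, hG⟩ : ∃ G : Finset α → ℝ, G = poly (t + 1) c := ⟨_, rfl⟩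
  obtain ⟨η, hη⟩ : ∃ η : ℝ, η = 1 / 4 ^ (t + 1) := ⟨_, rfl⟩
  rw [← hG, ← hη] at hBad
  rw [← hG]
  have hη0 : 0 < η := by rw [hη]; positivity
  -- every set is close to an integer
  have hclose : ∀ S ∈ powersetCard k X,
      |G S - round (G S)| ≤ ((2 : ℝ) ^ (t + 1) - 1) * η := by
    intro S hS
    rw [mem_powersetCard] at hS
    have hcS : (X \ S).card = X.card - k := by rw [card_sdiff_of_subset hS.1, hS.2]
    obtain ⟨B, C, hB, hC, hBd, hCd, hBc, hCc, hgood⟩ := exists_blocks (S := S) (S' := X \ S)
      disjoint_sdiff (s := t + 1) (b := b) (by rw [hS.2]; exact hk) (by rw [hcS]; exact hv)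
      (badSet η G k X) (by intro j h1 h2; rw [hS.2, hcS]; exact hBad j h1 h2)
    have hBC : ∀ i j, Disjoint (B i) (C j) := by
      intro i j
      exact disjoint_of_subset_left (hB i) (disjoint_of_subset_right (hC j) disjoint_sdiff)
    have hdisj : ∀ i j, i ≠ j → Disjoint (B i ∪ C i) (B j ∪ C j) := by
      intro i j hij
      rw [disjoint_union_left, disjoint_union_right, disjoint_union_right]
      exact ⟨⟨hBd i j hij, hBC i j⟩, ⟨(hBC j i).symm, hCd i j hij⟩⟩
    have hIB : ∀ I : Finset (Fin (t + 1)), I.biUnion B ⊆ S := by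
      intro I
      rw [biUnion_subset]
      exact fun i _ => hB i
    have hIC : ∀ I : Finset (Fin (t + 1)), I.biUnion C ⊆ X \ S := by
      intro I
      rw [biUnion_subset]
      exact fun i _ => hC i
    have hsX : ∀ I, swp B C S I ⊆ X := by
      intro I
      unfold swp
      exact union_subset (sdiff_subset.trans hS.1) ((hIC I).trans sdiff_subset)
    have hsc : ∀ I, (swp B C S I).card = k := by
      intro I
      unfold swp
      rw [card_union_of_disjoint, card_sdiff_of_subset (hIB I), hS.2,
        card_biUnion (fun i _ j _ hij => hBd i j hij),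
        card_biUnion (fun i _ j _ hij => hCd i j hij),
        sum_congr rfl (fun i _ => hBc i), sum_congr rfl (fun i _ => hCc i)]
      · have h1 := card_le_card (hIB I)
        rw [card_biUnion (fun i _ j _ hij => hBd i j hij), sum_congr rfl (fun i _ => hBc i),
          hS.2] at h1
        omega
      · exact disjoint_of_subset_left sdiff_subset
          (disjoint_of_subset_right (hIC I) disjoint_sdiff)
    have hmem : ∀ I, swp B C S I ∈ powersetCard k X := fun I =>
      mem_powersetCard.2 ⟨hsX I, hsc I⟩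
    have hgd : ∀ I : Finset (Fin (t + 1)), I.Nonempty →
        |G (swp B C S I) - round (G (swp B C S I))| ≤ η := by
      intro I hI
      by_contra hcon
      push Not at hcon
      exact hgood I hI (mem_badSet.2 ⟨hmem I, hcon⟩)
    have halt := alt_poly (s := t + 1) (c := c) (S := S) (X := X) hdisj hsX
    rw [← hG] at halt
    rw [← add_sum_erase univ _ (mem_univ (∅ : Finset (Fin (t + 1))))] at halt
    have hs0 : swp B C S ∅ = S := by simp [swp]
    rw [hs0, card_empty, pow_zero, one_mul] at halt
    obtain ⟨m, hm⟩ : ∃ m : ℤ, m = - ∑ I ∈ (univ : Finset (Finset (Fin (t + 1)))).erase ∅,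
        (-1) ^ I.card * round (G (swp B C S I)) := ⟨_, rfl⟩
    refine (round_le (G S) m).trans ?_
    have h1 : G S - m = - ∑ I ∈ (univ : Finset (Finset (Fin (t + 1)))).erase ∅,
        (-1 : ℝ) ^ I.card * (G (swp B C S I) - round (G (swp B C S I))) := by
      have h2 : G S = - ∑ I ∈ (univ : Finset (Finset (Fin (t + 1)))).erase ∅,
          (-1 : ℝ) ^ I.card * G (swp B C S I) := by linarith
      rw [hm]
      push_cast
      rw [h2, ← sub_eq_zero]
      simp only [mul_sub, sum_sub_distrib]
      ring
    rw [h1, abs_neg]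
    refine (abs_sum_le_sum_abs _ _).trans ?_
    have h3 : ∀ I ∈ (univ : Finset (Finset (Fin (t + 1)))).erase ∅,
        |(-1 : ℝ) ^ I.card * (G (swp B C S I) - round (G (swp B C S I)))| ≤ η := by
      intro I hI
      rw [abs_mul, abs_pow, abs_neg, abs_one, one_pow, one_mul]
      exact hgd I (nonempty_iff_ne_empty.2 (mem_erase.1 hI).1)
    refine (sum_le_sum h3).trans ?_
    rw [sum_const, card_erase_of_mem (mem_univ _), card_univ, Fintype.card_finset,
      Fintype.card_fin, nsmul_eq_mul, Nat.cast_sub Nat.one_le_two_pow]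
    push_cast
    exact le_refl _
  -- the rounded function is a polynomial with integer coefficients
  have hk' : k - (t + 1) + (t + 1) = k := by omega
  have hvG : Van (t + 1) (k - (t + 1)) X G := by rw [hG]; exact van_poly X c
  have hvn : Van (t + 1) (k - (t + 1)) X (fun S => round (G S)) := by
    refine van_round (G := G) (δ := ((2 : ℝ) ^ (t + 1) - 1) * η) ?_ hvG ?_
    · rw [hk']; exact hclose
    · have h2 : (0 : ℝ) < 2 ^ (t + 1) := by positivity
      rw [hη]
      have h4 : (4 : ℝ) ^ (t + 1) = 2 ^ (t + 1) * 2 ^ (t + 1) := by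
        rw [← mul_pow]; norm_num
      rw [h4]
      field_simp
      linarith
  obtain ⟨c', hc'⟩ := poly_of_van X.card X rfl (t + 1) (k - (t + 1)) _ hvn
  rw [hk'] at hc'
  -- parity
  have hpar : Even (∑ S ∈ powersetCard k X, round (G S)) := by
    rw [sum_congr rfl hc']
    unfold poly
    have h1 : ∀ S ∈ powersetCard k X, (∑ T ∈ S.powerset with T.card < t + 1, c' T)
        = ∑ T ∈ X.powerset with T.card < t + 1, if T ⊆ S then c' T else 0 := by
      intro S hS
      rw [mem_powersetCard] at hS
      rw [← sum_filter]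
      refine sum_congr ?_ (fun _ _ => rfl)
      ext T
      simp only [mem_filter, mem_powerset]
      constructor
      · rintro ⟨h1, h2⟩
        exact ⟨⟨h1.trans hS.1, h2⟩, h1⟩
      · rintro ⟨⟨-, h2⟩, h3⟩
        exact ⟨h3, h2⟩
    rw [sum_congr rfl h1, sum_comm]
    refine Finset.even_sum _ ?_
    intro T hT
    rw [mem_filter, mem_powerset] at hT
    rw [← sum_filter, sum_const, card_super hT.1, if_pos (by omega), nsmul_eq_mul]
    refine Even.mul_right ?_ _
    have := hfeas T.card (by omega)
    exact_mod_cast (even_iff_two_dvd.2 this)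
  have hfac : ∀ S ∈ powersetCard k X, 2 * Real.cos (Real.pi * G S) =
      (-1 : ℝ) ^ (round (G S)) * (2 * Real.cos (Real.pi * (G S - round (G S)))) := by
    intro S _
    have e : Real.pi * G S = Real.pi * (G S - round (G S)) + (round (G S) : ℤ) * Real.pi := by
      push_cast
      ring
    rw [e, Real.cos_add_int_mul_pi]
    ring
  rw [prod_congr rfl hfac, prod_mul_distrib, prod_neg_one_zpow, Even.neg_one_zpow hpar, one_mul]
  refine prod_nonneg ?_
  intro S _
  refine mul_nonneg (by norm_num) ?_
  refine Real.cos_nonneg_of_mem_Icc ?_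
  have h3 : |G S - round (G S)| ≤ 1 / 2 := abs_sub_round _
  have hpi := Real.pi_pos
  rw [abs_le] at h3
  constructor
  · nlinarith [h3.1]
  · nlinarith [h3.2]

end pos

end Halving
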