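import Pool.Agent.Halving.Ops

/-!
# The main recursion: everything reduces to root cases `v = 2 ^ n + t`
-/

namespace Halving

open Finset

/-- Number of points of `S` below `x`. -/
def cnt (S : Finset ℕ) (x : ℕ) : ℕ := (S ∩ range x).card

theorem cnt_succ (S : Finset ℕ) (x : ℕ) :
    cnt S (x + 1) = cnt S x + if x ∈ S then 1 else 0 := by
  unfold cnt
  rw [range_add_one]
  by_cases h : x ∈ S
  · rw [inter_insert_of_mem h, card_insert_of_notMem (by simp), if_pos h]
  · rw [inter_insert_of_notMem h, if_neg h, add_zero]

theorem cnt_le (S : Finset ℕ) (x : ℕ) : cnt S x ≤ x := by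
  unfold cnt
  calc (S ∩ range x).card ≤ (range x).card := card_le_card inter_subset_right
    _ = x := card_range x

theorem cnt_le_card (S : Finset ℕ) (x : ℕ) : cnt S x ≤ S.card :=
  card_le_card inter_subset_left

theorem card_three (S : Finset ℕ) {x y v : ℕ} (hxy : x ≤ y) (hyv : y ≤ v)
    (hS : S ⊆ range v) :
    S.card = (S ∩ range x).card + (S ∩ Ico x y).card + (S ∩ Ico y v).card := by
  have h1 : S = (S ∩ range x) ∪ (S ∩ Ico x y) ∪ (S ∩ Ico y v) := by
    ext z
    simp only [mem_union, mem_inter, mem_range, mem_Ico]
    constructor
    · intro hz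
      have := mem_range.1 (hS hz)
      rcases Nat.lt_or_ge z x with h | h
      · exact Or.inl (Or.inl ⟨hz, h⟩)
      · rcases Nat.lt_or_ge z y with h' | h'
        · exact Or.inl (Or.inr ⟨hz, h, h'⟩)
        · exact Or.inr ⟨hz, h', this⟩
    · tauto
  have d1 : Disjoint (S ∩ range x) (S ∩ Ico x y) := by
    rw [disjoint_left]
    intro z hz hz'
    simp only [mem_inter, mem_range, mem_Ico] at hz hz'
    omega
  have d2 : Disjoint ((S ∩ range x) ∪ (S ∩ Ico x y)) (S ∩ Ico y v) := by
    rw [disjoint_left]
    intro z hz hz'
    simp only [mem_union, mem_inter, mem_range, mem_Ico] at hz hz'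
    omega
  calc S.card = ((S ∩ range x) ∪ (S ∩ Ico x y) ∪ (S ∩ Ico y v)).card := by rw [← h1]
    _ = _ := by rw [card_union_of_disjoint d2, card_union_of_disjoint d1]

/-- A cut of the lattice paths between abscissas `x` and `y`. -/
theorem solv_cut {r1 r2 x y v i j k : ℕ} {Z : Finset ℕ} (hxy : x ≤ y) (hyv : y ≤ v)
    (hZ : Z ⊆ Ico x y) (hk : i + Z.card + j = k) (h1 : Bal r1 i x) (h2 : Bal r2 j (v - y)) :
    Solv (r1 + r2) ((powersetCard k (range v)).filter
      (fun S => cnt S x = i ∧ S ∩ Ico x y = Z)) := by
  refine solv_prod (X1 := range x) (X2 := Ico y v) (Z := Z) (i := i) (j := j) ?_ ?_ ?_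
    h1 (h2.to _ (by simp)) ?_
  · rw [disjoint_left]
    intro z hz hz'
    simp only [mem_range, mem_Ico] at hz hz'
    omega
  · rw [disjoint_left]
    intro z hz hz'
    have := hZ hz'
    simp only [mem_range, mem_Ico] at hz this
    omega
  · rw [disjoint_left]
    intro z hz hz'
    have := hZ hz'
    simp only [mem_Ico] at hz this
    omega
  · intro S
    simp only [mem_filter, mem_powersetCard, cnt]
    constructor
    · rintro ⟨⟨hS, hc⟩, hi, hz⟩
      have h3 := card_three S hxy hyv hS
      refine ⟨?_, hi, ?_, ?_⟩
      · intro z hzS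
        have := mem_range.1 (hS hzS)
        simp only [mem_union, mem_range, mem_Ico]
        rcases Nat.lt_or_ge z x with h | h
        · exact Or.inl (Or.inl h)
        · rcases Nat.lt_or_ge z y with h' | h'
          · right
            rw [← hz]
            simp [hzS, h, h']
          · exact Or.inl (Or.inr ⟨h', this⟩)
      · rw [hz] at h3
        omega
      · rw [← hz]
        exact inter_subset_left
    · rintro ⟨hS, hi, hj, hzS⟩
      have hSv : S ⊆ range v := by
        intro z hz
        have := hS hz
        simp only [mem_union, mem_range, mem_Ico] at this ⊢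
        rcases this with (h | h) | h
        · omega
        · omega
        · have := hZ h
          simp only [mem_Ico] at this
          omega
      have hSZ : S ∩ Ico x y = Z := by
        ext z
        simp only [mem_inter, mem_Ico]
        constructor
        · rintro ⟨hz, hzx, hzy⟩
          have := hS hz
          simp only [mem_union, mem_range, mem_Ico] at this
          rcases this with (h | h) | h
          · omega
          · omega
          · exact h
        · intro hz
          have := hZ hz
          simp only [mem_Ico] at this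
          exact ⟨hzS hz, this⟩
      have h3 := card_three S hxy hyv hSv
      rw [hSZ] at h3
      refine ⟨⟨hSv, by omega⟩, hi, hSZ⟩

theorem mod_sub_of_lt {k c M : ℕ} (h : c ≤ k % M) : (k - c) % M = k % M - c := by
  rcases Nat.eq_zero_or_pos M with hM | hM
  · subst hM; simp
  have h1 := Nat.div_add_mod k M
  have h2 : k - c = (k % M - c) + M * (k / M) := by
    have := Nat.mod_le k M
    omega
  rw [h2, Nat.add_mul_mod_self_left]
  apply Nat.mod_eq_of_lt
  have := Nat.mod_lt k hM
  omega

/-- The step of the recursion. -/
theorem rec_step {M l t k : ℕ} (hM : 0 < M)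
    (hl1 : ∀ t' ≤ t, ∀ k, t' < k % M → Bal (t' + 1) k (M + t'))
    (hl : ∀ t' ≤ t, ∀ k, t' < k % M → Bal (t' + 1) k (M * l + t'))
    (hk : t < k % M) : Bal (t + 1) k (M * (l + 1) + t) := by
  have hkM : k % M < M := Nat.mod_lt k hM
  have hkle : k % M ≤ k := Nat.mod_le k M
  obtain ⟨v, hv⟩ : ∃ v, v = M * (l + 1) + t := ⟨_, rfl⟩
  have hv' : v = M * l + M + t := by rw [hv]; ring
  rw [← hv]
  unfold Bal
  -- the families in the middle
  have hU : ∀ d ≤ t, Solv (t + 1) ((powersetCard k (range v)).filter
      (fun S => t - d + 1 ≤ cnt S (M + (t - d)) ∧ cnt S (M + (t - d)) ≤ M - 1)) := by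
    intro d
    induction d with
    | zero =>
      intro _
      refine solv_fiber (fun S => cnt S (M + t)) ?_
      intro i
      by_cases hi : t + 1 ≤ i ∧ i ≤ M - 1 ∧ i ≤ k
      · obtain ⟨hi1, hi2, hi3⟩ := hi
        have h := solv_cut (x := M + t) (y := M + t) (v := v) (i := i) (j := k - i) (k := k)
          (Z := ∅) (r1 := t + 1) (r2 := 0) le_rfl (by omega) (by simp)
          (by rw [card_empty]; omega)
          (hl1 t le_rfl i (by rw [Nat.mod_eq_of_lt (by omega)]; omega)) (bal_zero _ _)
        convert h using 1
        ext S
        simp only [mem_filter, Ico_self, inter_empty, and_true, Nat.sub_zero]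
        constructor
        · rintro ⟨⟨h1, h2⟩, h3⟩
          exact ⟨h1, h3⟩
        · rintro ⟨h1, h3⟩
          refine ⟨⟨h1, ?_, ?_⟩, h3⟩ <;> omega
      · have : ((powersetCard k (range v)).filter
            (fun S => t - 0 + 1 ≤ cnt S (M + (t - 0)) ∧ cnt S (M + (t - 0)) ≤ M - 1)).filter
            (fun S => cnt S (M + t) = i) = ∅ := by
          rw [filter_eq_empty_iff]
          intro S hS h3
          rw [mem_filter, mem_powersetCard] at hS
          have h4 := cnt_le_card S (M + t)
          simp only [Nat.sub_zero] at hS
          apply hi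
          omega
        rw [this]
        exact solv_empty _
    | succ d ih =>
      intro hd
      have ih' := ih (by omega)
      obtain ⟨c, hc⟩ : ∃ c, c = t - (d + 1) := ⟨_, rfl⟩
      have hc' : t - d = c + 1 := by omega
      rw [hc'] at ih'
      rw [← hc]
      have hct : c < t := by omega
      -- first piece
      have hE0 : Solv (t + 1) ((powersetCard k (range v)).filter
          (fun S => cnt S (M + c) = c + 1 ∧ S ∩ Ico (M + c) (M + c + 1) = ∅)) := by
        have h := solv_cut (x := M + c) (y := M + c + 1) (v := v) (i := c + 1)
          (j := k - (c + 1)) (k := k) (Z := ∅) (r1 := c + 1) (r2 := t - c - 1 + 1) (by omega)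
          (by omega) (by simp) (by rw [card_empty]; omega)
          (hl1 c (by omega) (c + 1) (by rw [Nat.mod_eq_of_lt (by omega)]; omega))
          (by
            have h2 := hl (t - c - 1) (by omega) (k - (c + 1))
              (by rw [mod_sub_of_lt (by omega)]; omega)
            have e : v - (M + c + 1) = M * l + (t - c - 1) := by omega
            rw [e]; exact h2)
        have e : c + 1 + (t - c - 1 + 1) = t + 1 := by omega
        rw [e] at h
        exact h
      have hE1 : Solv (t + 1) ((powersetCard k (range v)).filter
          (fun S => cnt S (M + c) = M - 1 ∧ S ∩ Ico (M + c) (M + c + 1) = {M + c})) := by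
        by_cases hkM' : M ≤ k
        · have h := solv_cut (x := M + c) (y := M + c + 1) (v := v) (i := M - 1)
            (j := k - M) (k := k) (Z := {M + c}) (r1 := c + 1) (r2 := t - c - 1 + 1) (by omega)
            (by omega) (by simp) (by rw [card_singleton]; omega)
            (hl1 c (by omega) (M - 1) (by rw [Nat.mod_eq_of_lt (by omega)]; omega))
            (by
              have h2 := hl (t - c - 1) (by omega) (k - M)
                (by
                  have : (k - M) % M = k % M := by
                    rw [← Nat.mod_eq_sub_mod hkM']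
                  rw [this]; omega)
              have e : v - (M + c + 1) = M * l + (t - c - 1) := by omega
              rw [e]; exact h2)
          have e : c + 1 + (t - c - 1 + 1) = t + 1 := by omega
          rw [e] at h
          exact h
        · have : (powersetCard k (range v)).filter
            (fun S => cnt S (M + c) = M - 1 ∧ S ∩ Ico (M + c) (M + c + 1) = {M + c}) = ∅ := by
            rw [filter_eq_empty_iff]
            rintro S hS ⟨h3, h5⟩
            rw [mem_powersetCard] at hS
            have h6 : M + c ∈ S := by
              have : M + c ∈ S ∩ Ico (M + c) (M + c + 1) := by rw [h5]; simp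
              exact (mem_inter.1 this).1
            have h4 := cnt_le_card S (M + c + 1)
            rw [cnt_succ, if_pos h6] at h4
            omega
          rw [this]
          exact solv_empty _
      have hin : ∀ S : Finset ℕ, S ∩ Ico (M + c) (M + c + 1) = ∅ ↔ M + c ∉ S := by
        intro S
        rw [Nat.Ico_succ_singleton]
        by_cases h : M + c ∈ S
        · rw [inter_singleton_of_mem h]; simp [h]
        · rw [inter_singleton_of_notMem h]; simp [h]
      have hin' : ∀ S : Finset ℕ, S ∩ Ico (M + c) (M + c + 1) = {M + c} ↔ M + c ∈ S := by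
        intro S
        rw [Nat.Ico_succ_singleton]
        by_cases h : M + c ∈ S
        · rw [inter_singleton_of_mem h]; simp [h]
        · rw [inter_singleton_of_notMem h]
          simp only [h, iff_false]
          exact (singleton_ne_empty _).symm
      refine solv_split (fun S => cnt S (M + c) = c + 1 ∧ S ∩ Ico (M + c) (M + c + 1) = ∅)
        ?_ ?_
      · convert hE0 using 1
        ext S
        simp only [mem_filter]
        constructor
        · rintro ⟨⟨h1, -⟩, h3⟩
          exact ⟨h1, h3⟩
        · rintro ⟨h1, h3⟩
          refine ⟨⟨h1, ?_, ?_⟩, h3⟩ <;> omega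
      · refine solv_split
          (fun S => cnt S (M + c) = M - 1 ∧ S ∩ Ico (M + c) (M + c + 1) = {M + c}) ?_ ?_
        · convert hE1 using 1
          ext S
          simp only [mem_filter, hin, hin']
          constructor
          · rintro ⟨⟨⟨h1, -⟩, -⟩, h3⟩
            exact ⟨h1, h3⟩
          · rintro ⟨h1, h3, h4⟩
            refine ⟨⟨⟨h1, ?_, ?_⟩, ?_⟩, h3, h4⟩
            · omega
            · omega
            · rintro ⟨-, h5⟩
              exact h5 h4
        · convert ih' using 1
          ext S
          simp only [mem_filter, hin, hin', ← add_assoc, cnt_succ]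
          by_cases h : M + c ∈ S
          · simp only [h, if_true]
            constructor
            · rintro ⟨⟨⟨h1, h2, h3⟩, -⟩, h5⟩
              refine ⟨h1, ?_, ?_⟩
              · omega
              · have : ¬ cnt S (M + c) = M - 1 := fun h' => h5 ⟨h', trivial⟩
                omega
            · rintro ⟨h1, h2, h3⟩
              refine ⟨⟨⟨h1, ?_, ?_⟩, ?_⟩, ?_⟩
              · omega
              · omega
              · rintro ⟨-, h'⟩
                exact h' trivial
              · rintro ⟨h', -⟩
                omega
          · simp only [h, if_false]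
            constructor
            · rintro ⟨⟨⟨h1, h2, h3⟩, h4⟩, -⟩
              refine ⟨h1, ?_, ?_⟩
              · have : ¬ cnt S (M + c) = c + 1 := fun h' => h4 ⟨h', not_false⟩
                omega
              · omega
            · rintro ⟨h1, h2, h3⟩
              refine ⟨⟨⟨h1, ?_, ?_⟩, ?_⟩, ?_⟩
              · omega
              · omega
              · rintro ⟨h', -⟩
                omega
              · rintro ⟨-, h'⟩
                exact h'
  -- the top level
  refine solv_split (fun S => cnt S M = 0) ?_ ?_
  · have h := solv_cut (x := M) (y := M) (v := v) (i := 0) (j := k) (k := k)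
      (Z := ∅) (r1 := 0) (r2 := t + 1) le_rfl (by omega) (by simp)
      (by rw [card_empty]; omega) (bal_zero _ _)
      (by
        have h2 := hl t le_rfl k hk
        have e : v - M = M * l + t := by omega
        rw [e]; exact h2)
    rw [zero_add] at h
    convert h using 1
    ext S
    simp only [mem_filter, Ico_self, inter_empty, and_true]
  · refine solv_split (fun S => cnt S M = M) ?_ ?_
    · by_cases hkM' : M ≤ k
      · have h := solv_cut (x := M) (y := M) (v := v) (i := M) (j := k - M) (k := k)
          (Z := ∅) (r1 := 0) (r2 := t + 1) le_rfl (by omega) (by simp)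
          (by rw [card_empty]; omega) (bal_zero _ _)
          (by
            have h2 := hl t le_rfl (k - M) (by
              have : (k - M) % M = k % M := by
                rw [← Nat.mod_eq_sub_mod hkM']
              rw [this]; exact hk)
            have e : v - M = M * l + t := by omega
            rw [e]; exact h2)
        rw [zero_add] at h
        convert h using 1
        ext S
        simp only [mem_filter, Ico_self, inter_empty, and_true]
        constructor
        · rintro ⟨⟨h1, -⟩, h3⟩
          exact ⟨h1, h3⟩
        · rintro ⟨h1, h3⟩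
          exact ⟨⟨h1, by omega⟩, h3⟩
      · have : ((powersetCard k (range v)).filter (fun S => ¬ cnt S M = 0)).filter
            (fun S => cnt S M = M) = ∅ := by
          rw [filter_eq_empty_iff]
          intro S hS h3
          rw [mem_filter, mem_powersetCard] at hS
          have h4 := cnt_le_card S M
          omega
        rw [this]
        exact solv_empty _
    · have h := hU t le_rfl
      simp only [Nat.sub_self, add_zero, zero_add] at h
      convert h using 1
      ext S
      simp only [mem_filter]
      have h4 := cnt_le S M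
      constructor
      · rintro ⟨⟨h1, h2⟩, h3⟩
        refine ⟨h1, ?_, ?_⟩ <;> omega
      · rintro ⟨h1, h2, h3⟩
        exact ⟨⟨h1, by omega⟩, by omega⟩

/-- All root cases of strength at most `t0 + 1` are available. -/
def Roots (t0 : ℕ) : Prop :=
  ∀ t ≤ t0, ∀ n k : ℕ, t < k → k < 2 ^ n →
    (t < 2 ^ (n - 1) → 2 ^ (n - 1) ≤ k ∧ k ≤ 2 ^ (n - 1) + t) → Bal (t + 1) k (2 ^ n + t)

/-- All cases with `v ≡ t` modulo `2 ^ n` reduce to root cases. -/
theorem of_roots {t0 : ℕ} (hR : Roots t0) : ∀ n l : ℕ, ∀ t ≤ t0, ∀ k : ℕ, t < k % 2 ^ n →
    Bal (t + 1) k (2 ^ n * l + t) := by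
  intro n
  induction n with
  | zero =>
    intro l t _ k hk
    rw [pow_zero, Nat.mod_one] at hk
    omega
  | succ n ih =>
    have hM : 0 < 2 ^ (n + 1) := by positivity
    have h2 : 2 ^ (n + 1) = 2 ^ n * 2 := pow_succ 2 n
    have hl1 : ∀ t ≤ t0, ∀ k : ℕ, t < k % 2 ^ (n + 1) → Bal (t + 1) k (2 ^ (n + 1) + t) := by
      intro t ht k hk
      rcases Nat.lt_or_ge k (2 ^ (n + 1)) with hlt | hge
      · rw [Nat.mod_eq_of_lt hlt] at hk
        by_cases hc : t < 2 ^ n ∧ ¬ (2 ^ n ≤ k ∧ k ≤ 2 ^ n + t)
        · have h3 := ih 2 t ht k ?_
          · rw [← h2] at h3; exact h3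
          · rcases Nat.lt_or_ge k (2 ^ n) with h | h
            · rw [Nat.mod_eq_of_lt h]; exact hk
            · have h4 : 2 ^ n + t < k := by
                by_contra h5
                exact hc.2 ⟨h, by omega⟩
              rw [Nat.mod_eq_sub_mod h, Nat.mod_eq_of_lt (by omega)]
              omega
        · refine hR t ht (n + 1) k hk hlt ?_
          rw [Nat.add_sub_cancel]
          intro h
          by_contra h5
          exact hc ⟨h, h5⟩
      · refine bal_of_lt ?_
        have h3 : k % 2 ^ (n + 1) ≤ k - 2 ^ (n + 1) := by
          rw [Nat.mod_eq_sub_mod hge]; exact Nat.mod_le _ _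
        omega
    intro l
    induction l with
    | zero =>
      intro t _ k hk
      refine bal_of_lt ?_
      have := Nat.mod_le k (2 ^ (n + 1))
      omega
    | succ l ihl =>
      intro t ht k hk
      exact rec_step hM (fun t' ht' => hl1 t' (ht'.trans ht))
        (fun t' ht' => ihl t' (ht'.trans ht)) hk

/-- The window condition suffices. -/
theorem bal_of_window {t : ℕ} (hR : Roots t) {n v k : ℕ} (h1 : t ≤ v % 2 ^ n)
    (h2 : v % 2 ^ n < k % 2 ^ n) : Bal (t + 1) k v := by
  have hM : 0 < 2 ^ n := by positivity
  obtain ⟨d, hd⟩ : ∃ d, d = v % 2 ^ n - t := ⟨_, rfl⟩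
  induction d generalizing v k with
  | zero =>
    have h3 : v = 2 ^ n * (v / 2 ^ n) + t := by
      have := Nat.div_add_mod v (2 ^ n)
      omega
    rw [h3]
    exact of_roots hR n _ t le_rfl k (by omega)
  | succ d ih =>
    have hv1 : 1 ≤ v % 2 ^ n := by omega
    have e1 : (v - 1) % 2 ^ n = v % 2 ^ n - 1 := mod_sub_of_lt hv1
    have e2 : (k - 1) % 2 ^ n = k % 2 ^ n - 1 := mod_sub_of_lt (by omega)
    have hv : v - 1 + 1 = v := by
      have := Nat.mod_le v (2 ^ n)
      omega
    have hk : k - 1 + 1 = k := by
      have := Nat.mod_le k (2 ^ n)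
      omega
    have b0 : Bal (t + 1) (k - 1) (v - 1) := ih (by omega) (by omega) (by omega)
    have b1 : Bal (t + 1) (k - 1 + 1) (v - 1) := by
      rw [hk]
      exact ih (by omega) (by omega) (by omega)
    have := b0.pascal b1
    rw [hv, hk] at this
    exact this

end Halving
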