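import Pool.Agent.Halving.Mono

/-!
# The range `k ≥ 2 t + 2`, `v` large
-/

namespace Halving

open Finset

theorem choose_shift (n a K M : ℕ) : ∀ e : ℕ, a + e ≤ K → M + (a + e) ≤ n + 1 →
    n.choose a * M ^ e ≤ n.choose (a + e) * K ^ e := by
  intro e
  induction e with
  | zero => intro _ _; simp
  | succ e ih =>
    intro h1 h2
    have h3 := ih (by omega) (by omega)
    have h4 : n.choose (a + e + 1) * (a + e + 1) = n.choose (a + e) * (n - (a + e)) :=
      Nat.choose_succ_right_eq n (a + e)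
    calc n.choose a * M ^ (e + 1) = (n.choose a * M ^ e) * M := by rw [pow_succ]; ring
      _ ≤ (n.choose (a + e) * K ^ e) * (n - (a + e)) := Nat.mul_le_mul h3 (by omega)
      _ = (n.choose (a + e) * (n - (a + e))) * K ^ e := by ring
      _ = (n.choose (a + e + 1) * (a + e + 1)) * K ^ e := by rw [h4]
      _ ≤ (n.choose (a + e + 1) * K) * K ^ e :=
          Nat.mul_le_mul_right _ (Nat.mul_le_mul_left _ (by omega))
      _ = n.choose (a + (e + 1)) * K ^ (e + 1) := by rw [pow_succ, ← add_assoc]; ring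

theorem choose_double (v n : ℕ) : ∀ t : ℕ, v + t ≤ 2 * n + 1 → v.choose t ≤ 2 ^ t * n.choose t := by
  intro t
  induction t with
  | zero => intro _; simp
  | succ t ih =>
    intro h
    have h1 := ih (by omega)
    have h2 : v.choose (t + 1) * (t + 1) = v.choose t * (v - t) := Nat.choose_succ_right_eq v t
    have h3 : n.choose (t + 1) * (t + 1) = n.choose t * (n - t) := Nat.choose_succ_right_eq n t
    refine Nat.le_of_mul_le_mul_right ?_ (Nat.succ_pos t)
    calc v.choose (t + 1) * (t + 1) = v.choose t * (v - t) := h2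
      _ ≤ (2 ^ t * n.choose t) * (2 * (n - t)) := Nat.mul_le_mul h1 (by omega)
      _ = 2 ^ (t + 1) * (n.choose t * (n - t)) := by rw [pow_succ]; ring
      _ = 2 ^ (t + 1) * n.choose (t + 1) * (t + 1) := by rw [← h3]; ring

theorem choose_le_two_pow' (k t : ℕ) : k.choose t ≤ 2 ^ k := by
  rcases Nat.eq_zero_or_pos k with h | h
  · subst h
    rcases Nat.eq_zero_or_pos t with h' | h'
    · subst h'; simp
    · rw [Nat.choose_eq_zero_of_lt h']; simp
  · exact (Nat.choose_lt_two_pow _ _ h).le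

/-- Existence for `k ≥ 2 t + 2` and large `v`. -/
theorem bal_sparse {t k v : ℕ} (hfeas : ∀ i ≤ t, 2 ∣ (v - i).choose (k - i))
    (hk : 2 * t + 2 ≤ k) (h : 32 ^ k * k ^ (k - 2 * t - 1) ≤ (v - 2 * k) ^ (k - 2 * t - 1)) :
    Bal (t + 1) k v := by
  obtain ⟨e, he⟩ : ∃ e, e = k - 2 * t - 1 := ⟨_, rfl⟩
  rw [← he] at h
  have he1 : 1 ≤ e := by omega
  have hek : e ≤ k := by omega
  have hbig : 32 * k ≤ v - 2 * k := by
    have h1 : (32 * k) ^ e ≤ (v - 2 * k) ^ e := by
      rw [mul_pow]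
      exact le_trans (Nat.mul_le_mul_right _ (Nat.pow_le_pow_right (by norm_num) hek)) h
    exact (Nat.pow_le_pow_iff_left (by omega : e ≠ 0)).1 h1
  obtain ⟨n, hn⟩ : ∃ n, n = v - k := ⟨_, rfl⟩
  have hvn : v = n + k := by omega
  have hM : v - 2 * k = n - k := by omega
  rw [hM] at h
  refine bal_of_crit (b := 1) (m := k - t - 1) hfeas (by omega) (by omega) (by omega)
    (by omega) ?_
  intro j hj1 hj2
  have e1 : k - t - 1 + 1 + t = k := by omega
  rw [e1] at hj2 ⊢
  rw [one_mul, ← hn]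
  have hj3 : k - t ≤ j := by omega
  have g1 : 1 ≤ k.choose j := Nat.choose_pos hj2
  have g2 : n.choose (k - t) ≤ n.choose j := choose_mono_half' hj3 (by omega)
  have g3 := choose_shift n (t + 1) k (n - k) e (by omega) (by omega)
  have e2 : t + 1 + e = k - t := by omega
  rw [e2] at g3
  have g4 := choose_double v n t (by omega)
  have g5 : n.choose (t + 1) * (t + 1) = n.choose t * (n - t) := Nat.choose_succ_right_eq n t
  have g6 : v * v.choose t ≤ 2 ^ t * (4 * ((t + 1) * n.choose (t + 1))) := by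
    calc v * v.choose t ≤ (4 * (n - t)) * (2 ^ t * n.choose t) :=
          Nat.mul_le_mul (by omega) g4
      _ = 2 ^ t * (4 * (n.choose t * (n - t))) := by ring
      _ = 2 ^ t * (4 * ((t + 1) * n.choose (t + 1))) := by rw [← g5]; ring
  have g7 : k.choose t ^ 2 ≤ 4 ^ k := by
    calc k.choose t ^ 2 ≤ (2 ^ k) ^ 2 := Nat.pow_le_pow_left (choose_le_two_pow' k t) 2
      _ = 4 ^ k := by rw [← pow_mul, mul_comm, pow_mul]; norm_num
  have g8 : 7 * (16 ^ t * 4 ^ k * (2 ^ t * (4 * (t + 1)))) ≤ 5 * 32 ^ k := by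
    have q1 : t + 1 ≤ 2 ^ t := Nat.lt_two_pow_self
    have q2 : (64 : ℕ) ^ (t + 1) ≤ 8 ^ k := by
      calc (64 : ℕ) ^ (t + 1) = 8 ^ (2 * (t + 1)) := by rw [pow_mul]; norm_num
        _ ≤ 8 ^ k := Nat.pow_le_pow_right (by norm_num) (by omega)
    have q3 : 64 * (7 * (16 ^ t * 4 ^ k * (2 ^ t * (4 * (t + 1))))) ≤ 64 * (5 * 32 ^ k) := by
      calc 64 * (7 * (16 ^ t * 4 ^ k * (2 ^ t * (4 * (t + 1)))))
          ≤ 64 * (7 * (16 ^ t * 4 ^ k * (2 ^ t * (4 * 2 ^ t)))) := by
            gcongr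
        _ = 28 * ((16 * 2 * 2) ^ t * 64) * 4 ^ k := by rw [mul_pow, mul_pow]; ring
        _ = 28 * 64 ^ (t + 1) * 4 ^ k := by rw [pow_succ]
        _ ≤ 28 * 8 ^ k * 4 ^ k := Nat.mul_le_mul_right _ (Nat.mul_le_mul_left _ q2)
        _ = 28 * (8 * 4) ^ k := by rw [mul_pow]; ring
        _ ≤ 64 * (5 * 32 ^ k) := by
            norm_num only
            have : 0 < 32 ^ k := by positivity
            omega
    omega
  have hke : 0 < k ^ e := by
    have : 0 < k := by omega
    positivity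
  have g9 : 7 * (16 ^ t * k.choose t ^ 2 * (v * v.choose t)) ≤ 5 * n.choose (k - t) := by
    refine Nat.le_of_mul_le_mul_right ?_ hke
    calc 7 * (16 ^ t * k.choose t ^ 2 * (v * v.choose t)) * k ^ e
        ≤ 7 * (16 ^ t * 4 ^ k * (2 ^ t * (4 * ((t + 1) * n.choose (t + 1))))) * k ^ e := by
          gcongr
      _ = (7 * (16 ^ t * 4 ^ k * (2 ^ t * (4 * (t + 1))))) * (n.choose (t + 1) * k ^ e) := by
          ring
      _ ≤ (5 * 32 ^ k) * (n.choose (t + 1) * k ^ e) := Nat.mul_le_mul_right _ g8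
      _ = 5 * n.choose (t + 1) * (32 ^ k * k ^ e) := by ring
      _ ≤ 5 * n.choose (t + 1) * (n - k) ^ e := Nat.mul_le_mul_left _ h
      _ = 5 * (n.choose (t + 1) * (n - k) ^ e) := by ring
      _ ≤ 5 * (n.choose (k - t) * k ^ e) := Nat.mul_le_mul_left _ g3
      _ = 5 * n.choose (k - t) * k ^ e := by ring
  refine g9.trans ?_
  calc 5 * n.choose (k - t) ≤ 5 * (1 * n.choose j) := by rw [one_mul]; exact Nat.mul_le_mul_left _ g2
    _ ≤ 5 * (k.choose j * n.choose j) := Nat.mul_le_mul_left _ (Nat.mul_le_mul_right _ g1)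

end Halving
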