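import Pool.Agent.Halving.Design
import Pool.Agent.Halving.Linear
import Pool.Agent.Halving.Sparse

/-!
# Reduction of the halving conjecture for a given `t` to small `v`
-/

namespace Halving

open Finset

theorem Roots.mono' {a b : ℕ} (h : Roots b) (hab : a ≤ b) : Roots a :=
  fun t ht => h t (ht.trans hab)

/-- The root cases of strength at most `t + 1` follow from the feasible cases with
`v < 17 (t + 1)`. -/
theorem roots_of_small {t : ℕ} (H : ∀ s ≤ t, ∀ k v : ℕ, s ≤ k → k ≤ v → v < 17 * (s + 1) →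
    (∀ i ≤ s, 2 ∣ (v - i).choose (k - i)) → Bal (s + 1) k v) : Roots t := by
  intro s hs n k h1 h2 h3
  have hn : n ≠ 0 := by
    rintro rfl
    rw [pow_zero] at h2
    omega
  obtain ⟨K, hK⟩ : ∃ K, K = 2 ^ (n - 1) := ⟨_, rfl⟩
  have h2n : 2 ^ n = 2 * K := by
    rw [hK, ← pow_succ']
    congr 1
    omega
  have hsn : s < 2 ^ n := h1.trans h2
  have hfeas : ∀ i ≤ s, 2 ∣ (2 ^ n + s - i).choose (k - i) := by
    refine feasible_of_window' (n := n) ?_ ?_
    · rw [Nat.add_mod_left, Nat.mod_eq_of_lt hsn]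
    · rw [Nat.add_mod_left, Nat.mod_eq_of_lt hsn, Nat.mod_eq_of_lt h2]
      exact h1
  rw [← hK] at h3
  rcases Nat.lt_or_ge K (8 * (s + 1)) with h4 | h4
  · exact H s hs k (2 ^ n + s) (by omega) (by omega) (by omega) hfeas
  · obtain ⟨h5, h6⟩ := h3 (by omega)
    exact bal_linear hfeas (by omega) (by omega)

/-- The full statement for `t` follows from the feasible cases with `v < 17 (t + 1)`. -/
theorem bal_of_small {t : ℕ} (H : ∀ s ≤ t, ∀ k v : ℕ, s ≤ k → k ≤ v → v < 17 * (s + 1) →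
    (∀ i ≤ s, 2 ∣ (v - i).choose (k - i)) → Bal (s + 1) k v) {s k v : ℕ} (hs : s ≤ t)
    (hsk : s ≤ k) (hkv : k ≤ v) (h : ∀ i ≤ s, 2 ∣ (v - i).choose (k - i)) :
    Bal (s + 1) k v := by
  obtain ⟨n, h1, h2⟩ := window_of_feasible s v k hsk hkv h
  exact bal_of_window ((roots_of_small H).mono' hs) h1 h2

end Halving
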