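import Pool.Agent.Halving.DataH
import Pool.Agent.Halving.Ext
import Pool.Agent.Halving.DataD
import Pool.Agent.Halving.Design
import Pool.Agent.Halving.Linear

/-!
# The root cases with `n ≤ 3`, and consequences between root cases
-/

namespace Halving

open Finset

/-- The large set `LS[2](6, 7, 14)`. -/
theorem bal7_14 : Bal 7 7 14 := Bal.alltop (r := 6) (k := 6) (by decide) bal6_13

/-- Derived and residual cases. -/
theorem bal_eight {s : ℕ} (hs : s ≤ 6) : ∀ k, s + 1 ≤ k → k ≤ 7 → Bal (s + 1) k (8 + s) := by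
  obtain ⟨d, hd⟩ : ∃ d, d = 6 - s := ⟨_, rfl⟩
  induction d generalizing s with
  | zero =>
    intro k h1 h2
    have h3 : s = 6 := by omega
    subst h3
    have h4 : k = 7 := by omega
    subst h4
    exact bal7_14
  | succ d ih =>
    intro k h1 h2
    have h3 := ih (s := s + 1) (by omega) (by omega)
    have e : 8 + (s + 1) = (8 + s) + 1 := by ring
    rw [e] at h3
    rcases Nat.lt_or_ge k 7 with h4 | h4
    · exact Bal.link (h3 (k + 1) (by omega) (by omega))
    · exact Bal.del (h3 k (by omega) (by omega))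

/-- The root cases with `n ≤ 3`. -/
theorem roots_three_le {t n k : ℕ} (hn : n ≤ 3) (h1 : t < k) (h2 : k < 2 ^ n) :
    Bal (t + 1) k (2 ^ n + t) := by
  have h3 : n = 0 ∨ n = 1 ∨ n = 2 ∨ n = 3 := by omega
  rcases h3 with rfl | rfl | rfl | rfl
  · rw [pow_zero] at h2; omega
  · norm_num at h2
    have ht : t = 0 := by omega
    have hk : k = 1 := by omega
    subst ht hk
    -- the two singletons of a pair
    refine ⟨fun S => if S = {0} then 1 else -1, ?_, ?_⟩
    · intro S _
      by_cases h : S = {0}
      · left; simp [h]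
      · right; simp [h]
    · intro T hT
      have hT0 : T = ∅ := by
        rw [← card_eq_zero]; omega
      subst hT0
      decide
  · norm_num at h2 ⊢
    have b3 : Bal 3 3 6 := bal3_6
    have b2 : Bal 2 2 5 := Bal.link (r := 2) (k := 2) (n := 5) b3
    have b2' : Bal 2 3 5 := Bal.del (r := 2) (k := 3) (n := 5) b3
    have h4 : t = 0 ∨ t = 1 ∨ t = 2 := by omega
    rcases h4 with rfl | rfl | rfl
    · have hk : k = 1 ∨ k = 2 ∨ k = 3 := by omega
      rcases hk with rfl | rfl | rfl
      · exact Bal.link (r := 1) (k := 1) (n := 4) b2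
      · exact Bal.del (r := 1) (k := 2) (n := 4) b2
      · exact Bal.del (r := 1) (k := 3) (n := 4) b2'
    · have hk : k = 2 ∨ k = 3 := by omega
      rcases hk with rfl | rfl
      · exact b2
      · exact b2'
    · have hk : k = 3 := by omega
      subst hk
      exact b3
  · norm_num at h2 ⊢
    exact bal_eight (by omega) k (by omega) (by omega)

/-- For even `t` the middle root case follows from its neighbour. -/
theorem bal_middle {t k v : ℕ} (ht : Even t) (hv : v = 2 * k + 2) (h : Bal (t + 1) k v) :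
    Bal (t + 1) (k + 1) v := by
  subst hv
  exact Bal.alltop ht (Bal.del h)

/-- Root cases for smaller `t`. -/
theorem roots_down {T K M : ℕ} (H : ∀ k, K ≤ k → k ≤ K + T → Bal (T + 1) k (M + T)) :
    ∀ t ≤ T, ∀ k, K ≤ k → k ≤ K + t → Bal (t + 1) k (M + t) := by
  intro t ht
  obtain ⟨d, hd⟩ : ∃ d, d = T - t := ⟨_, rfl⟩
  induction d generalizing t with
  | zero =>
    have h3 : t = T := by omega
    subst h3
    exact H
  | succ d ih =>
    intro k h1 h2
    have h3 := ih (t + 1) (by omega) (by omega) k h1 (by omega)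
    exact Bal.del h3

/-- Reduction of the root cases to small ones: assume that all cases with
`8 ≤ 2 ^ (n - 1) < 8 (T + 1)` and strength `T + 1` are available. -/
theorem roots_of {T : ℕ} (hT : T ≤ 7) (H : ∀ n, 4 ≤ n → 2 ^ (n - 1) < 8 * (T + 1) →
    ∀ k, 2 ^ (n - 1) ≤ k → 2 * k ≤ 2 ^ n + T → Bal (T + 1) k (2 ^ n + T)) : Roots T := by
  intro t ht n k h1 h2 h3
  rcases Nat.lt_or_ge n 4 with hn | hn
  · exact roots_three_le (by omega) h1 h2
  · have h8 : 2 ^ 3 ≤ 2 ^ (n - 1) := Nat.pow_le_pow_right (by norm_num) (by omega)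
    obtain ⟨h4, h5⟩ := h3 (by omega)
    obtain ⟨K, hK⟩ : ∃ K, K = 2 ^ (n - 1) := ⟨_, rfl⟩
    have h2n : 2 ^ n = 2 * K := by
      rw [hK, ← pow_succ']
      congr 1
      omega
    refine roots_down (K := K) (T := T) ?_ t ht k (by omega) (by omega)
    intro k' h6 h7
    -- complementation
    have hred : (∀ k', K ≤ k' → 2 * k' ≤ 2 ^ n + T → Bal (T + 1) k' (2 ^ n + T)) →
        Bal (T + 1) k' (2 ^ n + T) := by
      intro h
      rcases Nat.lt_or_ge (2 ^ n + T) (2 * k') with h9 | h9
      · have h10 := (h (2 ^ n + T - k') (by omega) (by omega)).compl (by omega)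
        have e : 2 ^ n + T - (2 ^ n + T - k') = k' := by omega
        rw [e] at h10
        exact h10
      · exact h k' h6 h9
    apply hred
    intro k'' h8' h9
    rcases Nat.lt_or_ge K (8 * (T + 1)) with h10 | h10
    · exact H n hn (by omega) k'' (by omega) h9
    · refine bal_linear ?_ (by omega) (by omega)
      refine feasible_of_window' (n := n) ?_ ?_
      · rw [Nat.add_mod_left, Nat.mod_eq_of_lt (by omega)]
      · rw [Nat.add_mod_left, Nat.mod_eq_of_lt (by omega), Nat.mod_eq_of_lt (by omega)]
        omega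

end Halving
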