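import Pool.Agent.Halving.Types

/-!
# Packed numbers: spreading the binary digits of a number
-/

namespace Halving

open Finset

/-- `2 ^ k` copies of `x` at distance `P`. -/
noncomputable def repN (x P : ℕ) (k : ℕ) : ℕ :=
  Nat.rec (motive := fun _ => ℕ) x
    (fun k ih => force (fun a => Nat.lor a (Nat.shiftLeft a (Nat.mul P (Nat.pow 2 k)))) ih) k

theorem repN_succ (x P k : ℕ) : repN x P (k + 1) = repN x P k ||| (repN x P k <<< (P * 2 ^ k)) := by
  have h : repN x P (k + 1) = force (fun a => Nat.lor a (Nat.shiftLeft a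
    (Nat.mul P (Nat.pow 2 k)))) (repN x P k) := rfl
  rw [h, force_eq]
  rfl

theorem testBit_repN {x P : ℕ} (hx : x < 2 ^ P) (k : ℕ) : ∀ p : ℕ,
    (repN x P k).testBit p = (decide (p < P * 2 ^ k) && x.testBit (p % P)) := by
  have hbig : ∀ p, P ≤ p → x.testBit p = false := by
    intro p hp
    exact Nat.testBit_lt_two_pow (lt_of_lt_of_le hx (Nat.pow_le_pow_right (by norm_num) hp))
  induction k with
  | zero =>
    intro p
    have h0 : repN x P 0 = x := rfl
    rw [h0, pow_zero, mul_one]
    rcases Nat.lt_or_ge p P with h | h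
    · rw [Nat.mod_eq_of_lt h]; simp [h]
    · rw [hbig p h]
      simp [not_lt.2 h]
  | succ k ih =>
    intro p
    rw [repN_succ, Nat.testBit_or, Nat.testBit_shiftLeft, ih, ih, pow_succ]
    rcases Nat.lt_or_ge p (P * 2 ^ k) with h | h
    · have h1 : p < P * (2 ^ k * 2) := by
        rw [← mul_assoc]; omega
      simp [h, h1, not_le.2 h]
    · have e : (p - P * 2 ^ k) % P = p % P := by
        conv_rhs => rw [← Nat.sub_add_cancel h]
        rw [Nat.add_mul_mod_self_left]
      have h2 : (p - P * 2 ^ k < P * 2 ^ k) ↔ p < P * (2 ^ k * 2) := by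
        rw [← mul_assoc]; omega
      rw [e]
      simp only [ge_iff_le, h, decide_true, Bool.true_and, not_lt.2 h, decide_false,
        Bool.false_and, Bool.false_or, h2]

/-- Spreading: from blocks of `2 ^ j` digits to single digits. -/
noncomputable def sp (w : ℕ) (j : ℕ) : ℕ → ℕ → ℕ :=
  Nat.rec (motive := fun _ => ℕ → ℕ → ℕ) (fun _ x => x)
    (fun j ih e x => force (fun y => ih (Nat.succ e) y)
      (Nat.land (Nat.lor x (Nat.shiftLeft x (Nat.mul (Nat.sub w 1) (Nat.pow 2 j))))
        (repN (Nat.sub (Nat.pow 2 (Nat.pow 2 j)) 1) (Nat.mul w (Nat.pow 2 j)) (Nat.succ e)))) j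

theorem sp_succ (w j e x : ℕ) : sp w (j + 1) e x = sp w j (e + 1)
    ((x ||| (x <<< ((w - 1) * 2 ^ j))) &&& repN (2 ^ 2 ^ j - 1) (w * 2 ^ j) (e + 1)) := by
  have h : sp w (j + 1) e x = force (fun y => sp w j (Nat.succ e) y)
      (Nat.land (Nat.lor x (Nat.shiftLeft x (Nat.mul (Nat.sub w 1) (Nat.pow 2 j))))
        (repN (Nat.sub (Nat.pow 2 (Nat.pow 2 j)) 1) (Nat.mul w (Nat.pow 2 j)) (Nat.succ e))) := rfl
  rw [h, force_eq]
  rfl

/-- The digits of `T` in blocks of `2 ^ j`, at distance `w * 2 ^ j`. -/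
def Blk (w j T x : ℕ) : Prop := ∀ p : ℕ, x.testBit p =
  (decide (p % (w * 2 ^ j) < 2 ^ j) && T.testBit (p / (w * 2 ^ j) * 2 ^ j + p % (w * 2 ^ j)))

theorem blk_step {w j e T x : ℕ} (hw : 2 ≤ w) (hT : T < 2 ^ 2 ^ (j + 1 + e))
    (hx : Blk w (j + 1) T x) :
    Blk w j T ((x ||| (x <<< ((w - 1) * 2 ^ j))) &&&
      repN (2 ^ 2 ^ j - 1) (w * 2 ^ j) (e + 1)) := by
  intro p
  obtain ⟨J, hJ⟩ : ∃ J, J = 2 ^ j := ⟨_, rfl⟩
  have hJ0 : 0 < J := by rw [hJ]; positivity
  obtain ⟨P, hP⟩ : ∃ P, P = w * J := ⟨_, rfl⟩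
  have hP2 : 2 * J ≤ P := by rw [hP]; exact Nat.mul_le_mul_right _ hw
  have hPJ : (w - 1) * J = P - J := by rw [Nat.sub_mul, one_mul, hP]
  have h2 : 2 ^ (j + 1) = 2 * J := by rw [pow_succ, mul_comm, hJ]
  have hP' : w * (2 * J) = 2 * P := by rw [hP]; ring
  have hx' : ∀ p : ℕ, x.testBit p = (decide (p % (2 * P) < 2 * J) &&
      T.testBit (p / (2 * P) * (2 * J) + p % (2 * P))) := by
    intro p
    rw [hx p, h2, hP']
  rw [Nat.testBit_and, Nat.testBit_or, Nat.testBit_shiftLeft, testBit_repN (by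
    rw [← hJ, ← hP]
    calc 2 ^ J - 1 < 2 ^ J := Nat.sub_lt (by positivity) (by norm_num)
      _ ≤ 2 ^ P := Nat.pow_le_pow_right (by norm_num) (by omega)), Nat.testBit_two_pow_sub_one]
  rw [← hJ, ← hP, hPJ]
  obtain ⟨q, hq⟩ : ∃ q, q = p / P := ⟨_, rfl⟩
  obtain ⟨r, hr⟩ : ∃ r, r = p % P := ⟨_, rfl⟩
  have hpqr : p = P * q + r := by rw [hq, hr]; exact (Nat.div_add_mod p P).symm
  have hrP : r < P := by rw [hr]; exact Nat.mod_lt _ (by omega)
  rw [← hq, ← hr]
  by_cases hrJ : r < J
  swap
  · simp [hrJ]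
  simp only [hrJ, decide_true, Bool.and_true, Bool.true_and]
  -- beyond the last block both sides vanish
  rcases Nat.lt_or_ge p (P * 2 ^ (e + 1)) with hpe | hpe
  swap
  · have h3 : 2 ^ (e + 1) ≤ q := by
      rw [hq]
      exact (Nat.le_div_iff_mul_le (by omega)).2 (by rw [mul_comm]; exact hpe)
    have h4 : T.testBit (q * J + r) = false := by
      refine Nat.testBit_lt_two_pow (lt_of_lt_of_le hT (Nat.pow_le_pow_right (by norm_num) ?_))
      calc 2 ^ (j + 1 + e) = 2 ^ (e + 1) * J := by rw [hJ, ← pow_add]; congr 1; ring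
        _ ≤ q * J := Nat.mul_le_mul_right _ h3
        _ ≤ q * J + r := Nat.le_add_right _ _
    rw [h4]
    simp [not_lt.2 hpe]
  simp only [hpe, decide_true, Bool.and_true]
  rcases Nat.even_or_odd' q with ⟨Q, hQ | hQ⟩
  · -- even block
    have e1 : p = r + 2 * P * Q := by rw [hpqr, hQ]; ring
    have e2 : p % (2 * P) = r := by
      rw [e1, Nat.add_mul_mod_self_left, Nat.mod_eq_of_lt (by omega)]
    have e3 : p / (2 * P) = Q := by
      rw [e1, Nat.add_mul_div_left _ _ (by omega), Nat.div_eq_of_lt (by omega), zero_add]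
    have e4 : x.testBit p = T.testBit (q * J + r) := by
      rw [hx', e2, e3, hQ]
      have : r < 2 * J := by omega
      simp only [this, decide_true, Bool.true_and]
      congr 1
      ring
    have e5 : (decide (p ≥ P - J) && x.testBit (p - (P - J))) = false := by
      rcases Nat.lt_or_ge p (P - J) with h5 | h5
      · simp [not_le.2 h5]
      · have hQ1 : 1 ≤ Q := by
          by_contra h6
          have : Q = 0 := by omega
          subst this
          omega
        obtain ⟨Q', rfl⟩ : ∃ Q', Q = Q' + 1 := ⟨Q - 1, by omega⟩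
        have e6 : p - (P - J) = (P + J + r) + 2 * P * Q' := by
          have : 2 * P * (Q' + 1) = 2 * P * Q' + 2 * P := by ring
          omega
        have e7 : (p - (P - J)) % (2 * P) = P + J + r := by
          rw [e6, Nat.add_mul_mod_self_left, Nat.mod_eq_of_lt (by omega)]
        rw [hx', e7]
        have : ¬ P + J + r < 2 * J := by omega
        simp [this]
    rw [e4, e5, Bool.or_false]
  · -- odd block
    have e1 : p = (P + r) + 2 * P * Q := by rw [hpqr, hQ]; ring
    have e2 : p % (2 * P) = P + r := by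
      rw [e1, Nat.add_mul_mod_self_left, Nat.mod_eq_of_lt (by omega)]
    have e3 : x.testBit p = false := by
      rw [hx', e2]
      have : ¬ P + r < 2 * J := by omega
      simp [this]
    have h5 : P - J ≤ p := by omega
    have e6 : p - (P - J) = (J + r) + 2 * P * Q := by omega
    have e7 : (p - (P - J)) % (2 * P) = J + r := by
      rw [e6, Nat.add_mul_mod_self_left, Nat.mod_eq_of_lt (by omega)]
    have e8 : (p - (P - J)) / (2 * P) = Q := by
      rw [e6, Nat.add_mul_div_left _ _ (by omega), Nat.div_eq_of_lt (by omega), zero_add]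
    rw [e3, Bool.false_or, hx', e7, e8, hQ]
    have : J + r < 2 * J := by omega
    simp only [ge_iff_le, h5, decide_true, Bool.true_and, this]
    congr 1
    ring

theorem blk_sp {w T : ℕ} (hw : 2 ≤ w) : ∀ (j e x : ℕ), T < 2 ^ 2 ^ (j + e) → Blk w j T x →
    Blk w 0 T (sp w j e x) := by
  intro j
  induction j with
  | zero => intro e x _ h; exact h
  | succ j ih =>
    intro e x hT h
    rw [sp_succ]
    refine ih (e + 1) _ ?_ (blk_step hw hT h)
    have e1 : j + (e + 1) = j + 1 + e := by ring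
    rw [e1]
    exact hT

theorem blk_self {w J T : ℕ} (hw : 2 ≤ w) (hT : T < 2 ^ 2 ^ J) : Blk w J T T := by
  intro p
  obtain ⟨K, hK⟩ : ∃ K, K = 2 ^ J := ⟨_, rfl⟩
  rw [← hK] at hT ⊢
  have hK0 : 0 < K := by rw [hK]; positivity
  have hbig : ∀ p, K ≤ p → T.testBit p = false := by
    intro p hp
    exact Nat.testBit_lt_two_pow (lt_of_lt_of_le hT (Nat.pow_le_pow_right (by norm_num) hp))
  have hwK : 2 * K ≤ w * K := Nat.mul_le_mul_right _ hw
  rcases Nat.lt_or_ge p K with h | h
  · rw [Nat.mod_eq_of_lt (by omega), Nat.div_eq_of_lt (by omega)]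
    simp [h]
  · rw [hbig p h]
    rcases Nat.lt_or_ge p (w * K) with h1 | h1
    · rw [Nat.mod_eq_of_lt h1]
      simp [not_lt.2 h]
    · have h2 : 1 ≤ p / (w * K) := (Nat.one_le_div_iff (by omega)).2 h1
      rw [hbig (p / (w * K) * K + p % (w * K)) ?_]
      · simp
      · calc K = 1 * K := (one_mul K).symm
          _ ≤ p / (w * K) * K := Nat.mul_le_mul_right _ h2
          _ ≤ _ := Nat.le_add_right _ _

/-- A packed number. -/
def pk (B : ℕ) (F : ℕ → ℕ) (N : ℕ) : ℕ := ∑ i ∈ range N, F i * B ^ i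

theorem pk_lt {B : ℕ} {F : ℕ → ℕ} {N : ℕ} (h : ∀ i < N, F i < B) : pk B F N < B ^ N := by
  induction N with
  | zero => simp [pk]
  | succ N ih =>
    unfold pk at ih ⊢
    rw [sum_range_succ]
    have h1 := ih (fun i hi => h i (by omega))
    have h2 : F N * B ^ N + B ^ N ≤ B ^ (N + 1) := by
      calc F N * B ^ N + B ^ N = (F N + 1) * B ^ N := by ring
        _ ≤ B * B ^ N := Nat.mul_le_mul_right _ (h N (by omega))
        _ = B ^ (N + 1) := by ring
    omega

theorem testBit_pk {w : ℕ} (hw : 1 ≤ w) {F : ℕ → ℕ} (hF : ∀ i, F i ≤ 1) (N : ℕ) : ∀ p : ℕ,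
    (pk (2 ^ w) F N).testBit p = (decide (p % w = 0) && (decide (p / w < N) &&
      decide (F (p / w) = 1))) := by
  induction N with
  | zero => intro p; simp [pk]
  | succ N ih =>
    intro p
    have h1 : pk (2 ^ w) F (N + 1) = 2 ^ (w * N) * F N + pk (2 ^ w) F N := by
      unfold pk
      rw [sum_range_succ, ← pow_mul]
      ring
    have h2 : pk (2 ^ w) F N < 2 ^ (w * N) := by
      rw [pow_mul]
      refine pk_lt ?_
      intro i _
      have := hF i
      have h3 : 2 ^ 1 ≤ 2 ^ w := Nat.pow_le_pow_right (by norm_num) hw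
      omega
    rw [h1, Nat.testBit_two_pow_mul_add _ h2]
    split_ifs with h
    · rw [ih]
      have h3 : p / w < N := by
        rw [Nat.div_lt_iff_lt_mul (by omega), mul_comm]; exact h
      have h4 : p / w < N + 1 := by omega
      simp [h3, h4]
    · have h3 : N ≤ p / w := by
        rw [Nat.le_div_iff_mul_le (by omega), mul_comm]; omega
      by_cases h4 : p = w * N
      · subst h4
        have h5 : w * N / w = N := Nat.mul_div_cancel_left _ (by omega)
        rw [Nat.sub_self, h5, Nat.mul_mod_right]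
        have h6 := hF N
        have h7 : F N = 0 ∨ F N = 1 := by omega
        rcases h7 with h7 | h7 <;> simp [h7]
      · have h5 : (F N).testBit (p - w * N) = false := by
          refine Nat.testBit_lt_two_pow ?_
          have h6 := hF N
          have h7 : 2 ^ 1 ≤ 2 ^ (p - w * N) := Nat.pow_le_pow_right (by norm_num) (by omega)
          omega
        rw [h5]
        by_cases h6 : p % w = 0
        · have h7 : ¬ p / w < N + 1 := by
            intro h8
            have h9 : p / w = N := by omega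
            have h10 := Nat.div_add_mod p w
            rw [h9, h6] at h10
            omega
          simp [h7]
        · simp [h6]

/-- The spread number is packed. -/
theorem sp_eq {w J T N : ℕ} (hw : 2 ≤ w) (hN : N ≤ 2 ^ J) (hT : T < 2 ^ N) :
    sp w J 0 T = pk (2 ^ w) (fun i => (T.testBit i).toNat) N := by
  have hT' : T < 2 ^ 2 ^ J := lt_of_lt_of_le hT (Nat.pow_le_pow_right (by norm_num) hN)
  have h1 := blk_sp hw J 0 T (by simpa using hT') (blk_self hw hT')
  refine Nat.eq_of_testBit_eq ?_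
  intro p
  rw [h1 p, testBit_pk (by omega) (fun i => Bool.toNat_le _), pow_zero, mul_one, mul_one]
  have h2 : decide (p % w < 1) = decide (p % w = 0) := by
    congr 1
    exact propext Nat.lt_one_iff
  rw [h2]
  by_cases h3 : p % w = 0
  · simp only [h3, decide_true, Bool.true_and, add_zero]
    by_cases h4 : p / w < N
    · simp only [h4, decide_true, Bool.true_and]
      cases T.testBit (p / w) <;> simp
    · rw [Nat.testBit_lt_two_pow (lt_of_lt_of_le hT
        (Nat.pow_le_pow_right (by norm_num) (not_lt.1 h4)))]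
      simp [h4]
  · simp [h3]

end Halving
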