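import Mathlib

/-!
# Functions on `k`-subsets with vanishing iterated swap differences
-/

namespace Halving

open Finset

section swap

variable {α : Type*} [DecidableEq α]

/-- All `s`-fold swap differences of `f` vanish (on the `(k + s)`-subsets of `X`). -/
def Van {M : Type*} [AddCommGroup M] : ℕ → ℕ → Finset α → (Finset α → M) → Prop
  | 0, k, X, f => ∀ S ∈ powersetCard k X, f S = 0
  | s + 1, k, X, f => ∀ x ∈ X, ∀ y ∈ X, x ≠ y →
      Van s k ((X.erase x).erase y) (fun S => f (insert x S) - f (insert y S))

/-- A polynomial of degree less than `s`. -/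
def poly {M : Type*} [AddCommGroup M] (s : ℕ) (c : Finset α → M) (S : Finset α) : M :=
  ∑ T ∈ S.powerset with T.card < s, c T

section gen

variable {M : Type*} [AddCommGroup M]

theorem Van.congr {s k : ℕ} : ∀ {X : Finset α} {f g : Finset α → M},
    (∀ S ⊆ X, f S = g S) → Van s k X f → Van s k X g := by
  induction s with
  | zero =>
    intro X f g h hf S hS
    rw [← h S (mem_powersetCard.1 hS).1]
    exact hf S hS
  | succ s ih =>
    intro X f g h hf x hx y hy hxy
    refine ih ?_ (hf x hx y hy hxy)
    intro S hS
    have hSX : S ⊆ X := hS.trans ((erase_subset _ _).trans (erase_subset _ _))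
    rw [h _ (insert_subset hx hSX), h _ (insert_subset hy hSX)]

theorem Van.mono {s k : ℕ} : ∀ {X Y : Finset α} {f : Finset α → M},
    Y ⊆ X → Van s k X f → Van s k Y f := by
  induction s with
  | zero =>
    intro X Y f h hf S hS
    exact hf S (powersetCard_mono h hS)
  | succ s ih =>
    intro X Y f h hf x hx y hy hxy
    exact ih (erase_subset_erase _ (erase_subset_erase _ h)) (hf x (h hx) y (h hy) hxy)

theorem Van.sub {s k : ℕ} : ∀ {X : Finset α} {f g : Finset α → M},
    Van s k X f → Van s k X g → Van s k X (fun S => f S - g S) := by
  induction s with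
  | zero =>
    intro X f g hf hg S hS
    show f S - g S = 0
    rw [hf S hS, hg S hS, sub_zero]
  | succ s ih =>
    intro X f g hf hg x hx y hy hxy
    refine Van.congr ?_ (ih (hf x hx y hy hxy) (hg x hx y hy hxy))
    intro S _
    show (f (insert x S) - f (insert y S)) - (g (insert x S) - g (insert y S))
      = (f (insert x S) - g (insert x S)) - (f (insert y S) - g (insert y S))
    abel

theorem Van.cover {s k : ℕ} : ∀ {X : Finset α} {f : Finset α → M},
    (∀ y ∈ X, Van s k (X.erase y) f) → k + 2 * s < X.card → Van s k X f := by
  induction s with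
  | zero =>
    intro X f h hX S hS
    rw [mem_powersetCard] at hS
    obtain ⟨y, hy, hyS⟩ : ∃ y ∈ X, y ∉ S := by
      by_contra hcon
      push Not at hcon
      have := card_le_card (show X ⊆ S from hcon)
      omega
    refine h y hy S ?_
    rw [mem_powersetCard, subset_erase]
    exact ⟨⟨hS.1, hyS⟩, hS.2⟩
  | succ s ih =>
    intro X f h hX x hx y hy hxy
    have hc : ((X.erase x).erase y).card = X.card - 2 := by
      rw [card_erase_of_mem (by simp [hy, hxy.symm]), card_erase_of_mem hx]
      omega
    refine ih ?_ (by omega)
    intro z hz
    have hz1 : z ≠ y ∧ z ≠ x ∧ z ∈ X := by simpa using hz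
    have h1 := h z hz1.2.2 x (by simp [hx, hz1.2.1.symm]) y (by simp [hy, hz1.1.symm]) hxy
    have e : ((X.erase z).erase x).erase y = ((X.erase x).erase y).erase z := by
      ext w
      simp only [mem_erase]
      tauto
    rw [e] at h1
    exact h1

theorem poly_insert (s : ℕ) (c : Finset α → M) {x : α} {S : Finset α} (hx : x ∉ S) :
    poly (s + 1) c (insert x S) = poly (s + 1) c S + poly s (fun T => c (insert x T)) S := by
  unfold poly
  rw [powerset_insert, filter_union, sum_union]
  · congr 1
    rw [filter_image, sum_image]
    · refine sum_congr ?_ (fun _ _ => rfl)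
      ext T
      simp only [mem_filter, mem_powerset]
      constructor
      · rintro ⟨h1, h2⟩
        rw [card_insert_of_notMem (fun h => hx (h1 h))] at h2
        exact ⟨h1, by omega⟩
      · rintro ⟨h1, h2⟩
        rw [card_insert_of_notMem (fun h => hx (h1 h))]
        exact ⟨h1, by omega⟩
    · intro T hT T' hT' h
      rw [mem_coe, mem_filter, mem_powerset] at hT hT'
      rw [← erase_insert (fun h => hx (hT.1 h)), ← erase_insert (fun h => hx (hT'.1 h)), h]
  · rw [disjoint_left]
    intro T hT hT'
    simp only [mem_filter, mem_powerset, mem_image] at hT hT'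
    obtain ⟨⟨T'', -, rfl⟩, -⟩ := hT'
    exact hx (hT.1 (mem_insert_self _ _))

theorem van_poly {s k : ℕ} : ∀ (X : Finset α) (c : Finset α → M),
    Van s k X (poly s c) := by
  induction s with
  | zero =>
    intro X c S _
    simp [poly]
  | succ s ih =>
    intro X c x hx y hy hxy
    refine Van.congr ?_ (ih ((X.erase x).erase y) (fun T => c (insert x T) - c (insert y T)))
    intro S hS
    have hxS : x ∉ S := fun h => by have := hS h; simp at this
    have hyS : y ∉ S := fun h => by have := hS h; simp at this
    rw [poly_insert s c hxS, poly_insert s c hyS]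
    unfold poly
    rw [sum_sub_distrib]
    abel

end gen

/-- Every function is a polynomial if the complements are small. -/
theorem poly_of_small {s k : ℕ} {X : Finset α} (hX : X.card < k + s) (f : Finset α → ℤ) :
    ∃ c : Finset α → ℤ, ∀ S ∈ powersetCard k X, f S = poly s c S := by
  rcases Nat.lt_or_ge X.card k with hk | hk
  · refine ⟨0, ?_⟩
    intro S hS
    rw [powersetCard_eq_empty.2 hk] at hS
    exact absurd hS (notMem_empty S)
  obtain ⟨m, hm⟩ : ∃ m, m = X.card - k := ⟨_, rfl⟩
  refine ⟨fun W => ∑ U ∈ powersetCard m X with W ⊆ U, (-1) ^ W.card * f (X \ U), ?_⟩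
  intro S hS
  rw [mem_powersetCard] at hS
  unfold poly
  -- replace the inner filtered sum by an indicator sum and exchange
  have e1 : ∀ W ∈ S.powerset.filter (fun T => T.card < s),
      (∑ U ∈ powersetCard m X with W ⊆ U, (-1 : ℤ) ^ W.card * f (X \ U))
      = ∑ U ∈ powersetCard m X, if W ⊆ U then (-1 : ℤ) ^ W.card * f (X \ U) else 0 := by
    intro W _
    rw [sum_filter]
  rw [sum_congr rfl e1, sum_comm]
  have e2 : ∀ U ∈ powersetCard m X,
      (∑ W ∈ S.powerset with W.card < s, if W ⊆ U then (-1 : ℤ) ^ W.card * f (X \ U) else 0)
      = if S ∩ U = ∅ then f (X \ U) else 0 := by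
    intro U hU
    rw [mem_powersetCard] at hU
    rw [← sum_filter]
    have e3 : (S.powerset.filter (fun T => T.card < s)).filter (fun W => W ⊆ U)
        = (S ∩ U).powerset := by
      ext W
      simp only [mem_filter, mem_powerset, subset_inter_iff]
      constructor
      · rintro ⟨⟨h1, -⟩, h3⟩
        exact ⟨h1, h3⟩
      · rintro ⟨h1, h3⟩
        refine ⟨⟨h1, ?_⟩, h3⟩
        have := card_le_card h3
        omega
    rw [e3, ← sum_mul, sum_powerset_neg_one_pow_card]
    split_ifs <;> simp
  rw [sum_congr rfl e2, ← sum_filter]
  have e4 : (powersetCard m X).filter (fun U => S ∩ U = ∅) = {X \ S} := by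
    ext U
    simp only [mem_filter, mem_powersetCard, mem_singleton]
    constructor
    · rintro ⟨⟨h1, h2⟩, h3⟩
      refine eq_of_subset_of_card_le ?_ ?_
      · intro x hx
        rw [mem_sdiff]
        refine ⟨h1 hx, fun hxS => ?_⟩
        have : x ∈ S ∩ U := mem_inter.2 ⟨hxS, hx⟩
        rw [h3] at this
        exact absurd this (notMem_empty x)
      · rw [card_sdiff_of_subset hS.1, hS.2, h2, hm]
    · intro h
      subst h
      refine ⟨⟨sdiff_subset, ?_⟩, ?_⟩
      · rw [card_sdiff_of_subset hS.1, hS.2, hm]
      · exact inter_sdiff_self _ _
  rw [e4, sum_singleton, Finset.sdiff_sdiff_eq_self hS.1]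

/-- The structure theorem. -/
theorem poly_of_van (n : ℕ) : ∀ (X : Finset α), X.card = n → ∀ (s k : ℕ) (f : Finset α → ℤ),
    Van s k X f → ∃ c : Finset α → ℤ, ∀ S ∈ powersetCard (k + s) X, f S = poly s c S := by
  induction n using Nat.strong_induction_on with
  | _ n ih =>
    intro X hX s k f hf
    cases s with
    | zero =>
      refine ⟨0, ?_⟩
      intro S hS
      rw [hf S hS]
      simp [poly]
    | succ s =>
      rcases Nat.lt_or_ge X.card (k + (s + 1) + (s + 1)) with hc | hc
      · exact poly_of_small hc f
      have hne : X.Nonempty := by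
        rw [← card_pos]; omega
      obtain ⟨x, hx⟩ := hne
      have hX' : (X.erase x).card = n - 1 := by rw [card_erase_of_mem hx, hX]
      obtain ⟨c0, hc0⟩ := ih (n - 1) (by omega) (X.erase x) hX' (s + 1) k f
        (hf.mono (erase_subset _ _))
      -- the corrected function
      obtain ⟨c0', hc0'⟩ : ∃ c0' : Finset α → ℤ, c0' = fun T => if x ∈ T then 0 else c0 T :=
        ⟨_, rfl⟩
      have hvt : Van (s + 1) k X (fun S => f S - poly (s + 1) c0' S) := hf.sub (van_poly X c0')
      have hz : ∀ S ∈ powersetCard (k + (s + 1)) (X.erase x), f S - poly (s + 1) c0' S = 0 := by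
        intro S hS
        rw [hc0 S hS, sub_eq_zero]
        rw [mem_powersetCard, subset_erase] at hS
        unfold poly
        refine sum_congr rfl ?_
        intro T hT
        rw [mem_filter, mem_powerset] at hT
        have hxT : x ∉ T := fun h => hS.1.2 (hT.1 h)
        rw [hc0']
        simp only [hxT, if_false]
      have hg : Van s k (X.erase x) (fun S => f (insert x S) - poly (s + 1) c0' (insert x S)) := by
        refine Van.cover ?_ (by rw [hX']; omega)
        intro y hy
        have hy' : y ≠ x ∧ y ∈ X := by simpa using hy
        have h1 := hvt x hx y hy'.2 hy'.1.symm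
        -- the second term vanishes on the relevant sets, use a restricted congruence
        have h2 : ∀ (s k : ℕ) (Y : Finset α) (g h : Finset α → ℤ),
            (∀ S ∈ powersetCard (k + s) Y, g S = h S) → Van s k Y g → Van s k Y h := by
          intro s
          induction s with
          | zero =>
            intro k Y g h hgh hg S hS
            rw [← hgh S hS]
            exact hg S hS
          | succ s ih' =>
            intro k Y g h hgh hg a ha b hb hab
            refine ih' k _ _ _ ?_ (hg a ha b hb hab)
            intro S hS
            rw [mem_powersetCard] at hS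
            have haS : a ∉ S := fun h => by have := hS.1 h; simp at this
            have hbS : b ∉ S := fun h => by have := hS.1 h; simp at this
            have hSY : S ⊆ Y := hS.1.trans ((erase_subset _ _).trans (erase_subset _ _))
            rw [hgh (insert a S), hgh (insert b S)]
            · rw [mem_powersetCard, card_insert_of_notMem hbS, hS.2]
              exact ⟨insert_subset hb hSY, by ring⟩
            · rw [mem_powersetCard, card_insert_of_notMem haS, hS.2]
              exact ⟨insert_subset ha hSY, by ring⟩
        refine h2 s k _ _ _ ?_ h1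
        intro S hS
        rw [mem_powersetCard] at hS
        have hyS : y ∉ S := fun h => by have := hS.1 h; simp at this
        have hxS : x ∉ S := fun h => by have := hS.1 h; simp at this
        have hSX : S ⊆ X := hS.1.trans ((erase_subset _ _).trans (erase_subset _ _))
        have h3 := hz (insert y S) (by
          rw [mem_powersetCard, card_insert_of_notMem hyS, hS.2, subset_erase]
          refine ⟨⟨insert_subset hy'.2 hSX, ?_⟩, by ring⟩
          rw [mem_insert]
          rintro (h | h)
          · exact hy'.1 h.symm
          · exact hxS h)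
        show f (insert x S) - poly (s + 1) c0' (insert x S)
          - (f (insert y S) - poly (s + 1) c0' (insert y S))
          = f (insert x S) - poly (s + 1) c0' (insert x S)
        rw [h3, sub_zero]
      obtain ⟨c1, hc1⟩ := ih (n - 1) (by omega) (X.erase x) hX' s k _ hg
      refine ⟨fun T => if x ∈ T then c1 (T.erase x) else c0 T, ?_⟩
      intro S hS
      rw [mem_powersetCard] at hS
      by_cases hxS : x ∈ S
      · have hS' : S.erase x ∈ powersetCard (k + s) (X.erase x) := by
          rw [mem_powersetCard, card_erase_of_mem hxS, hS.2]
          exact ⟨erase_subset_erase _ hS.1, by omega⟩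
        have h4 := hc1 (S.erase x) hS'
        simp only [insert_erase hxS] at h4
        have h5 : f S = poly (s + 1) c0' S + poly s c1 (S.erase x) := by
          rw [← h4]; ring
        rw [h5]
        have hxe : x ∉ S.erase x := notMem_erase x S
        have h6 : S = insert x (S.erase x) := (insert_erase hxS).symm
        conv_lhs => rw [h6]
        conv_rhs => rw [h6]
        rw [poly_insert s _ hxe, poly_insert s _ hxe, erase_insert hxe]
        have h7 : poly (s + 1) c0' (S.erase x)
            = poly (s + 1) (fun T => if x ∈ T then c1 (T.erase x) else c0 T) (S.erase x) := by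
          unfold poly
          refine sum_congr rfl ?_
          intro T hT
          rw [mem_filter, mem_powerset] at hT
          have : x ∉ T := fun h => hxe (hT.1 h)
          rw [hc0']
          simp only [this, if_false]
        have h8 : poly s (fun T => c0' (insert x T)) (S.erase x) = 0 := by
          unfold poly
          refine sum_eq_zero ?_
          intro T _
          rw [hc0']
          simp
        have h9 : poly s c1 (S.erase x) = poly s
            (fun T => (fun T => if x ∈ T then c1 (T.erase x) else c0 T) (insert x T))
            (S.erase x) := by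
          unfold poly
          refine sum_congr rfl ?_
          intro T hT
          rw [mem_filter, mem_powerset] at hT
          have : x ∉ T := fun h => hxe (hT.1 h)
          simp only [mem_insert_self, if_true]
          rw [erase_insert this]
        rw [h7, h8, add_zero, h9]
      · rw [hc0 S (by rw [mem_powersetCard, subset_erase]; exact ⟨⟨hS.1, hxS⟩, hS.2⟩)]
        unfold poly
        refine sum_congr rfl ?_
        intro T hT
        rw [mem_filter, mem_powerset] at hT
        have : x ∉ T := fun h => hxS (hT.1 h)
        simp only [this, if_false]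

/-- Rounding a function with vanishing differences. -/
theorem van_round {s k : ℕ} : ∀ {X : Finset α} {G : Finset α → ℝ} {n : Finset α → ℤ} {δ : ℝ},
    (∀ S ∈ powersetCard (k + s) X, |G S - n S| ≤ δ) → Van s k X G → 2 ^ s * δ < 1 →
    Van s k X n := by
  induction s with
  | zero =>
    intro X G n δ h hG hδ S hS
    have h1 := h S hS
    rw [hG S hS, zero_sub, abs_neg] at h1
    rw [pow_zero, one_mul] at hδ
    have h2 : |(n S : ℝ)| < 1 := lt_of_le_of_lt h1 hδ
    have h3 : |n S| < 1 := by exact_mod_cast h2
    exact Int.abs_lt_one_iff.1 h3
  | succ s ih =>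
    intro X G n δ h hG hδ x hx y hy hxy
    refine ih (δ := 2 * δ) ?_ (hG x hx y hy hxy) (by rw [← mul_assoc, ← pow_succ]; exact hδ)
    intro S hS
    rw [mem_powersetCard] at hS
    have hxS : x ∉ S := fun h => by have := hS.1 h; simp at this
    have hyS : y ∉ S := fun h => by have := hS.1 h; simp at this
    have hSX : S ⊆ X := hS.1.trans ((erase_subset _ _).trans (erase_subset _ _))
    have h1 := h (insert x S) (by
      rw [mem_powersetCard, card_insert_of_notMem hxS, hS.2]
      exact ⟨insert_subset hx hSX, by ring⟩)
    have h2 := h (insert y S) (by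
      rw [mem_powersetCard, card_insert_of_notMem hyS, hS.2]
      exact ⟨insert_subset hy hSX, by ring⟩)
    rw [abs_le] at h1 h2 ⊢
    push_cast
    constructor <;> linarith [h1.1, h1.2, h2.1, h2.2]

end swap

end Halving
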