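import Pool.Agent.Halving.Top

/-!
# Signings depending only on the traces on consecutive parts, and a checker for them
-/

namespace Halving

open Finset

/-- Number of ways to extend a `t`-subset of an `n`-set to an `s`-subset. -/
def wt (n t s : ℕ) : ℕ := if t ≤ s then (n - t).choose (s - t) else 0

/-- The traces of `S` on consecutive parts; the head is the top part. -/
def typ : List ℕ → Finset ℕ → List ℕ
  | [], _ => []
  | n :: ns, S => (S ∩ Ico ns.sum (ns.sum + n)).card :: typ ns (S ∩ range ns.sum)

/-- Evaluation of a weighted sum over all types. -/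
def E : List ℕ → List ℕ → ℕ → (List ℕ → ℕ) → ℕ
  | [], _, k, g => if k = 0 then g [] else 0
  | n :: ns, τ, k, g => ∑ s ∈ range (n + 1), if s ≤ k then
      wt n (τ.headD 0) s * E ns τ.tail (k - s) (fun l => g (s :: l)) else 0

theorem sum_typ (ns : List ℕ) : ∀ (T : Finset ℕ) (k : ℕ) (g : List ℕ → ℕ),
    T ⊆ range ns.sum →
    ∑ S ∈ powersetCard k (range ns.sum) with T ⊆ S, g (typ ns S) = E ns (typ ns T) k g := by
  induction ns with
  | nil =>
    intro T k g hT
    have hT' : T = ∅ := by simpa using hT
    subst hT'
    simp only [List.sum_nil, range_zero, E]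
    split_ifs with hk
    · subst hk
      simp [typ]
    · rw [powersetCard_eq_empty.2 (by simpa using Nat.pos_of_ne_zero hk)]
      simp
  | cons n ns ih =>
    intro T k g hT
    have hX : range (n :: ns).sum = Ico ns.sum (ns.sum + n) ∪ range ns.sum := by
      ext x
      simp only [List.sum_cons, mem_union, mem_range, mem_Ico]
      omega
    have hd : Disjoint (Ico ns.sum (ns.sum + n)) (range ns.sum) := by
      rw [disjoint_left]
      intro x hx hx'
      simp only [mem_range, mem_Ico] at hx hx'
      omega
    rw [hX] at hT ⊢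
    have h1 := sum_part hd hT k (fun s S' => g (s :: typ ns S'))
    simp only [typ, E]
    rw [h1]
    have hc : (Ico ns.sum (ns.sum + n)).card = n := by simp
    rw [hc]
    refine sum_congr rfl ?_
    intro s _
    split_ifs with hs h2
    · rw [ih (T ∩ range ns.sum) (k - s) (fun l => g (s :: l)) inter_subset_right]
      simp only [wt, List.headD_cons, List.tail_cons, if_pos h2]
    · simp only [wt, List.headD_cons, if_neg h2, zero_mul]
    · rfl

/-- Table lookup. -/
def look : List ℕ → ℕ → List ℕ → ℕ
  | [], tab, _ => tab % 2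
  | B :: Bs, tab, l => look Bs (tab / B ^ (l.headD 0) % B) l.tail

theorem look_lt (Bs : List ℕ) : ∀ (tab : ℕ) (l : List ℕ), look Bs tab l < 2 := by
  induction Bs with
  | nil => intro tab l; exact Nat.mod_lt _ (by norm_num)
  | cons B Bs ih => intro tab l; exact ih _ _

/-- Application after evaluating the argument. -/
noncomputable def force (f : ℕ → ℕ) (n : ℕ) : ℕ :=
  Nat.rec (motive := fun _ => ℕ) (f 0) (fun m _ => f (Nat.succ m)) n

theorem force_eq (f : ℕ → ℕ) (n : ℕ) : force f n = f n := by
  cases n <;> rfl

/-- One level of the evaluation. -/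
noncomputable def lvl (child : ℕ → ℕ → ℕ) (B : ℕ) (W : List ℕ) : ℕ → ℕ → ℕ :=
  List.rec (motive := fun _ => ℕ → ℕ → ℕ) (fun _ _ => 0)
    (fun w _ ih r t => Nat.add (Nat.mul w (force (child r) (Nat.mod t B)))
      (Nat.rec (motive := fun _ => ℕ) 0 (fun r' _ => ih r' (Nat.div t B)) r)) W

/-- The last level of the evaluation. -/
noncomputable def leaf (W : List ℕ) : ℕ → ℕ → ℕ :=
  fun r i => Nat.mul (List.rec (motive := fun _ => ℕ → ℕ) (fun _ => 0)
    (fun w _ ih r => Nat.rec (motive := fun _ => ℕ) w (fun r' _ => ih r') r) W r) (Nat.mod i 2)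

/-- The list of weights of a part. -/
def wl (n t : ℕ) : List ℕ := (List.range (n + 1)).map (wt n t)

/-- The evaluation used by the checker. -/
noncomputable def ev (Bs : List ℕ) : List ℕ → List ℕ → ℕ → ℕ → ℕ :=
  List.rec (motive := fun _ => List ℕ → List ℕ → ℕ → ℕ → ℕ)
    (fun ns τ => leaf (wl (ns.headD 0) (τ.headD 0)))
    (fun B _ ih ns τ => lvl (ih ns.tail τ.tail) B (wl (ns.headD 0) (τ.headD 0))) Bs

theorem lvl_eq (child : ℕ → ℕ → ℕ) (B : ℕ) (W : List ℕ) : ∀ r t : ℕ,
    lvl child B W r t = ∑ s ∈ range W.length,
      if s ≤ r then W.getD s 0 * child (r - s) (t / B ^ s % B) else 0 := by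
  induction W with
  | nil => intro r t; rfl
  | cons w W ih =>
    intro r t
    rw [List.length_cons, sum_range_succ']
    have h0 : lvl child B (w :: W) r t = w * child r (t % B) +
        Nat.rec (motive := fun _ => ℕ) 0 (fun r' _ => lvl child B W r' (t / B)) r := by
      show Nat.add (Nat.mul w (force (child r) (Nat.mod t B))) _ = _
      rw [force_eq]
      rfl
    rw [h0]
    simp only [Nat.zero_le, if_true, List.getD_cons_zero, Nat.sub_zero, pow_zero, Nat.div_one]
    rw [add_comm]
    congr 1
    cases r with
    | zero => simp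
    | succ r =>
      show lvl child B W r (t / B) = _
      rw [ih]
      refine sum_congr rfl ?_
      intro s _
      simp only [Nat.add_le_add_iff_right, List.getD_cons_succ, Nat.add_sub_add_right]
      rw [Nat.div_div_eq_div_mul, pow_succ' B s]

theorem leaf_eq (W : List ℕ) : ∀ r i : ℕ, leaf W r i = W.getD r 0 * (i % 2) := by
  have h : ∀ (W : List ℕ) (r : ℕ), (List.rec (motive := fun _ => ℕ → ℕ) (fun _ => 0)
      (fun w _ ih r => Nat.rec (motive := fun _ => ℕ) w (fun r' _ => ih r') r) W r : ℕ)
      = W.getD r 0 := by
    intro W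
    induction W with
    | nil => intro r; rfl
    | cons w W ih =>
      intro r
      cases r with
      | zero => rfl
      | succ r => exact ih r
  intro r i
  show Nat.mul _ _ = _
  rw [h]
  rfl

theorem wl_length (n t : ℕ) : (wl n t).length = n + 1 := by simp [wl]

theorem wl_getD (n t s : ℕ) : (wl n t).getD s 0 = if s < n + 1 then wt n t s else 0 := by
  unfold wl
  split_ifs with h
  · rw [List.getD_eq_getElem _ _ (by simpa using h)]
    simp
  · rw [List.getD_eq_default _ _ (by simpa using h)]

theorem ev_eq (Bs : List ℕ) : ∀ (ns τ : List ℕ) (r tab : ℕ), ns.length = Bs.length + 1 →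
    ev Bs ns τ r tab = E ns τ r (look Bs tab) := by
  induction Bs with
  | nil =>
    intro ns τ r tab hn
    match ns, hn with
    | [n], _ =>
      show leaf (wl n (τ.headD 0)) r tab = _
      rw [leaf_eq, wl_getD]
      simp only [E, look]
      split_ifs with h
      · rw [sum_eq_single r]
        · simp
        · intro s _ hs
          split_ifs with h1 h2
          · omega
          · rw [mul_zero]
          · rfl
        · intro h3
          exact absurd (mem_range.2 h) h3
      · rw [zero_mul]
        symm
        refine sum_eq_zero ?_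
        intro s hs
        rw [mem_range] at hs
        split_ifs with h1 h2
        · omega
        · rw [mul_zero]
        · rfl
  | cons B Bs ih =>
    intro ns τ r tab hn
    match ns, hn with
    | n :: ns, hn =>
      show lvl (ev Bs ns τ.tail) B (wl n (τ.headD 0)) r tab = _
      rw [lvl_eq, wl_length]
      simp only [E]
      refine sum_congr rfl ?_
      intro s hs
      rw [mem_range] at hs
      split_ifs with h
      · rw [wl_getD, if_pos hs, ih ns τ.tail _ _ (by simpa using hn)]
        rfl
      · rfl

/-- All types of `t`-subsets. -/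
def taus : List ℕ → ℕ → List (List ℕ)
  | [], t => if t = 0 then [[]] else []
  | n :: ns, t => (List.range (n + 1)).flatMap
      (fun s => if s ≤ t then (taus ns (t - s)).map (s :: ·) else [])

theorem typ_mem_taus (ns : List ℕ) : ∀ T : Finset ℕ, T ⊆ range ns.sum →
    typ ns T ∈ taus ns T.card := by
  induction ns with
  | nil =>
    intro T hT
    have hT' : T = ∅ := by simpa using hT
    subst hT'
    simp [taus, typ]
  | cons n ns ih =>
    intro T hT
    have hX : range (n :: ns).sum = Ico ns.sum (ns.sum + n) ∪ range ns.sum := by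
      ext x
      simp only [List.sum_cons, mem_union, mem_range, mem_Ico]
      omega
    have hd : Disjoint (Ico ns.sum (ns.sum + n)) (range ns.sum) := by
      rw [disjoint_left]
      intro x hx hx'
      simp only [mem_range, mem_Ico] at hx hx'
      omega
    rw [hX] at hT
    have hu : T = (T ∩ Ico ns.sum (ns.sum + n)) ∪ (T ∩ range ns.sum) := by
      rw [← inter_union_distrib_left, inter_eq_left.2 hT]
    have hc : T.card = (T ∩ Ico ns.sum (ns.sum + n)).card + (T ∩ range ns.sum).card := by
      rw [← card_union_of_disjoint (hd.mono inter_subset_right inter_subset_right), ← hu]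
    simp only [taus, typ, List.mem_flatMap, List.mem_range]
    refine ⟨(T ∩ Ico ns.sum (ns.sum + n)).card, ?_, ?_⟩
    · have := card_le_card (inter_subset_right :
        T ∩ Ico ns.sum (ns.sum + n) ⊆ Ico ns.sum (ns.sum + n))
      rw [Nat.card_Ico] at this
      omega
    · rw [if_pos (by omega), List.mem_map]
      refine ⟨_, ?_, rfl⟩
      have := ih (T ∩ range ns.sum) inter_subset_right
      have e : T.card - (T ∩ Ico ns.sum (ns.sum + n)).card = (T ∩ range ns.sum).card := by omega
      rw [e]
      exact this

/-- The checker. -/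
noncomputable def chk (Bs ns : List ℕ) (k tab C : ℕ) (L : List (List ℕ)) : Bool :=
  L.all fun τ => Nat.beq (Nat.mul 2 (ev Bs ns τ k tab)) C

/-- A successful check gives a signing. -/
theorem bal_of_chk {Bs ns : List ℕ} {t k tab C : ℕ} {L : List (List ℕ)} {v : ℕ}
    (hlen : ns.length = Bs.length + 1) (hv : ns.sum = v) (htk : t ≤ k)
    (hC : C = (v - t).choose (k - t)) (hL : taus ns t = L)
    (h : chk Bs ns k tab C L = true) : Bal (t + 1) k v := by
  subst hv
  unfold chk at h
  rw [List.all_eq_true] at h
  refine ⟨fun S => 2 * (look Bs tab (typ ns S) : ℤ) - 1, ?_, ?_⟩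
  · intro S _
    have h0 := look_lt Bs tab (typ ns S)
    have h1 : look Bs tab (typ ns S) = 0 ∨ look Bs tab (typ ns S) = 1 := by omega
    rcases h1 with h1 | h1
    · right; simp only [h1]; norm_num
    · left; simp only [h1]; norm_num
  · refine sum_zero_of_top htk ?_
    intro T hT
    rw [mem_powersetCard] at hT
    rw [sum_sub_distrib, ← mul_sum, sum_const, nsmul_eq_mul, mul_one]
    have h1 := sum_typ ns T k (look Bs tab) hT.1
    rw [← ev_eq Bs ns (typ ns T) k tab hlen] at h1
    have h2 := h (typ ns T) (by rw [← hL, ← hT.2]; exact typ_mem_taus ns T hT.1)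
    have h3 : Nat.mul 2 (ev Bs ns (typ ns T) k tab) = C := Nat.eq_of_beq_eq_true h2
    have h4 := card_super hT.1 k
    rw [card_range, hT.2, if_pos htk, ← hC, ← h3, ← h1] at h4
    rw [h4]
    show 2 * (∑ i ∈ powersetCard k (range ns.sum) with T ⊆ i, (look Bs tab (typ ns i) : ℤ)) -
      ((2 * ∑ S ∈ powersetCard k (range ns.sum) with T ⊆ S, look Bs tab (typ ns S) : ℕ) : ℤ) = 0
    push_cast
    ring

end Halving
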