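import Pool.Agent.Halving.Spread

/-!
# A vectorised checker for signings that depend only on the type
The table is a packed number whose fields are polynomials in `2 ^ u`; one coordinate after the other
is summed out with a few operations on large numbers.
-/

namespace Halving

open Finset

/-- Number of types. -/
def len : List ℕ → ℕ
  | [] => 1
  | n :: ns => (n + 1) * len ns

theorem len_pos : ∀ ns : List ℕ, 0 < len ns
  | [] => Nat.one_pos
  | n :: ns => Nat.mul_pos (Nat.succ_pos n) (len_pos ns)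

/-- The index of a type. -/
def idx : List ℕ → List ℕ → ℕ
  | [], _ => 0
  | _ :: ns, l => len ns * l.headD 0 + idx ns l.tail

/-- The generating function of the weighted sums. -/
def SS (Y : ℕ) : List ℕ → List ℕ → (ℕ → ℕ) → ℕ
  | [], _, F => F 0
  | n :: ns, τ, F => ∑ s ∈ range (n + 1), wt n (τ.headD 0) s * Y ^ s *
      SS Y ns τ.tail (fun i => F (len ns * s + i))

theorem SS_sum {ι : Type*} (Y : ℕ) (ns : List ℕ) : ∀ (τ : List ℕ) (R : Finset ι) (c : ι → ℕ)
    (F : ι → ℕ → ℕ), SS Y ns τ (fun i => ∑ s ∈ R, c s * F s i) = ∑ s ∈ R, c s * SS Y ns τ (F s) := by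
  induction ns with
  | nil => intro τ R c F; rfl
  | cons n ns ih =>
    intro τ R c F
    simp only [SS]
    rw [sum_congr rfl (fun s _ => by
      rw [ih τ.tail R c (fun a i => F a (len ns * s + i)), mul_sum])]
    rw [sum_comm]
    refine sum_congr rfl ?_
    intro a _
    rw [mul_sum]
    refine sum_congr rfl ?_
    intro s _
    ring

theorem shift_sum (Y : ℕ) (f : ℕ → ℕ) {s N : ℕ} (hs : s ≤ N) :
    ∑ j ∈ range N, (if s ≤ j then Y ^ j * f (j - s) else 0) =
      Y ^ s * ∑ j ∈ range (N - s), Y ^ j * f j := by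
  obtain ⟨m, rfl⟩ : ∃ m, N = s + m := ⟨N - s, by omega⟩
  rw [sum_range_add, Nat.add_sub_cancel_left]
  have h1 : ∑ x ∈ range s, (if s ≤ x then Y ^ x * f (x - s) else 0) = 0 := by
    refine sum_eq_zero ?_
    intro x hx
    rw [if_neg (not_le.2 (mem_range.1 hx))]
  rw [h1, zero_add, mul_sum]
  refine sum_congr rfl ?_
  intro x _
  rw [if_pos (Nat.le_add_right _ _), Nat.add_sub_cancel_left, pow_add, mul_assoc]

theorem SS_eq (Y : ℕ) (ns : List ℕ) : ∀ (τ : List ℕ) (F : ℕ → ℕ) (N : ℕ), ns.sum < N →
    SS Y ns τ F = ∑ j ∈ range N, Y ^ j * E ns τ j (fun l => F (idx ns l)) := by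
  induction ns with
  | nil =>
    intro τ F N hN
    simp only [SS, E, idx]
    rw [sum_eq_single 0]
    · simp
    · intro j _ hj
      rw [if_neg hj, mul_zero]
    · intro h
      rw [List.sum_nil] at hN
      exact absurd (mem_range.2 hN) h
  | cons n ns ih =>
    intro τ F N hN
    rw [List.sum_cons] at hN
    simp only [SS]
    have h1 : ∀ j, E (n :: ns) τ j (fun l => F (idx (n :: ns) l)) =
        ∑ s ∈ range (n + 1), if s ≤ j then wt n (τ.headD 0) s *
          E ns τ.tail (j - s) (fun l => F (len ns * s + idx ns l)) else 0 := by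
      intro j
      simp only [E, idx, List.headD_cons, List.tail_cons]
    have h2 : ∀ j, Y ^ j * E (n :: ns) τ j (fun l => F (idx (n :: ns) l)) =
        ∑ s ∈ range (n + 1), wt n (τ.headD 0) s * (if s ≤ j then
          Y ^ j * E ns τ.tail (j - s) (fun l => F (len ns * s + idx ns l)) else 0) := by
      intro j
      rw [h1 j, mul_sum]
      refine sum_congr rfl ?_
      intro s _
      split_ifs
      · ring
      · ring
    rw [sum_congr (rfl : range N = range N) (fun j _ => h2 j), sum_comm]
    refine sum_congr rfl ?_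
    intro s hs
    rw [mem_range] at hs
    rw [← mul_sum, shift_sum Y (fun j => E ns τ.tail j (fun l => F (len ns * s + idx ns l)))
      (by omega : s ≤ N)]
    rw [ih τ.tail (fun i => F (len ns * s + i)) (N - s) (by omega)]
    ring

theorem wt_le (n t s : ℕ) (hs : s ≤ n) : wt n t s ≤ n.choose s := by
  unfold wt
  split_ifs with h
  · have e1 : (n - t).choose (s - t) = (n - t).choose (n - s) := by
      rw [← Nat.choose_symm (by omega)]
      congr 1
      omega
    rw [e1, ← Nat.choose_symm hs]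
    exact Nat.choose_le_choose _ (Nat.sub_le _ _)
  · exact Nat.zero_le _

theorem wt_sum_le (n t : ℕ) : ∑ s ∈ range (n + 1), wt n t s ≤ 2 ^ n := by
  rw [← Nat.sum_range_choose]
  refine sum_le_sum ?_
  intro s hs
  rw [mem_range] at hs
  exact wt_le n t s (by omega)

theorem E_le (ns : List ℕ) : ∀ (τ : List ℕ) (k : ℕ) (g : List ℕ → ℕ), (∀ l, g l ≤ 1) →
    E ns τ k g ≤ 2 ^ ns.sum := by
  induction ns with
  | nil =>
    intro τ k g hg
    simp only [E, List.sum_nil, pow_zero]
    split_ifs
    · exact hg _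
    · exact Nat.zero_le _
  | cons n ns ih =>
    intro τ k g hg
    simp only [E, List.sum_cons]
    calc ∑ s ∈ range (n + 1), (if s ≤ k then
          wt n (τ.headD 0) s * E ns τ.tail (k - s) (fun l => g (s :: l)) else 0)
        ≤ ∑ s ∈ range (n + 1), wt n (τ.headD 0) s * 2 ^ ns.sum := by
          refine sum_le_sum ?_
          intro s _
          split_ifs
          · exact Nat.mul_le_mul_left _ (ih _ _ _ (fun l => hg _))
          · exact Nat.zero_le _
      _ = (∑ s ∈ range (n + 1), wt n (τ.headD 0) s) * 2 ^ ns.sum := by rw [sum_mul]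
      _ ≤ 2 ^ n * 2 ^ ns.sum := Nat.mul_le_mul_right _ (wt_sum_le _ _)
      _ = 2 ^ (n + ns.sum) := by rw [pow_add]

/-- Digits of a polynomial value. -/
theorem digit {Y : ℕ} {e : ℕ → ℕ} (he : ∀ j, e j < Y) {j N : ℕ} (hj : j < N) :
    (∑ i ∈ range N, Y ^ i * e i) / Y ^ j % Y = e j := by
  have hY : 0 < Y := lt_of_le_of_lt (Nat.zero_le _) (he 0)
  obtain ⟨m, rfl⟩ : ∃ m, N = j + (1 + m) := ⟨N - j - 1, by omega⟩
  rw [sum_range_add, sum_range_add]
  have h1 : ∑ x ∈ range j, Y ^ x * e x < Y ^ j := by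
    have := pk_lt (B := Y) (F := e) (N := j) (fun i _ => he i)
    unfold pk at this
    refine lt_of_le_of_lt (le_of_eq ?_) this
    refine sum_congr rfl ?_
    intro x _
    ring
  have h2 : ∑ x ∈ range 1, Y ^ (j + x) * e (j + x) + ∑ x ∈ range m, Y ^ (j + (1 + x)) *
      e (j + (1 + x)) = Y ^ j * (e j + Y * ∑ x ∈ range m, Y ^ x * e (j + (1 + x))) := by
    rw [sum_range_one, add_zero, mul_add, mul_sum, mul_sum]
    congr 1
    refine sum_congr rfl ?_
    intro x _
    ring
  rw [h2, Nat.add_mul_div_left _ _ (by positivity), Nat.div_eq_of_lt h1, zero_add,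
    Nat.add_mul_mod_self_left, Nat.mod_eq_of_lt (he j)]

theorem pk_add (B : ℕ) (F : ℕ → ℕ) (a b : ℕ) :
    pk B F (a + b) = pk B F a + B ^ a * pk B (fun i => F (a + i)) b := by
  unfold pk
  rw [sum_range_add, mul_sum]
  congr 1
  refine sum_congr rfl ?_
  intro i _
  ring

theorem pk_chunk {B L s N : ℕ} {F : ℕ → ℕ} (hF : ∀ i < N, F i < B) (hs : L * s + L ≤ N) :
    pk B F N / B ^ (L * s) % B ^ L = pk B (fun i => F (L * s + i)) L := by
  obtain ⟨m, rfl⟩ : ∃ m, N = L * s + (L + m) := ⟨N - L * s - L, by omega⟩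
  rcases Nat.eq_zero_or_pos L with hL | hL
  · subst hL
    simp [pk, Nat.mod_one]
  have hB : 0 < B := lt_of_le_of_lt (Nat.zero_le _) (hF 0 (by omega))
  rw [pk_add, pk_add, Nat.add_mul_div_left _ _ (by positivity),
    Nat.div_eq_of_lt (pk_lt (fun i hi => hF i (by omega))), zero_add,
    Nat.add_mul_mod_self_left, Nat.mod_eq_of_lt (pk_lt (fun i hi => hF _ (by omega)))]

theorem pk_sum {ι : Type*} (B : ℕ) (R : Finset ι) (c : ι → ℕ) (F : ι → ℕ → ℕ) (L : ℕ) :
    ∑ s ∈ R, c s * pk B (F s) L = pk B (fun i => ∑ s ∈ R, c s * F s i) L := by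
  unfold pk
  simp only [mul_sum, sum_mul]
  rw [sum_comm]
  refine sum_congr rfl ?_
  intro i _
  refine sum_congr rfl ?_
  intro s _
  ring

/-- One coordinate is summed out. -/
noncomputable def rowSum (u sh mask q : ℕ) (row : List ℕ) : ℕ → ℕ → ℕ :=
  List.rec (motive := fun _ => ℕ → ℕ → ℕ) (fun _ _ => 0)
    (fun c _ ih P s => Nat.add (Nat.mul c (Nat.shiftLeft
      (Nat.land (Nat.shiftRight P (Nat.add (Nat.mul sh s) (Nat.mul 0 q))) mask)
      (Nat.mul u s))) (ih P (Nat.succ s))) row

theorem rowSum_eq (u sh q : ℕ) (row : List ℕ) : ∀ P s : ℕ,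
    rowSum u sh (2 ^ sh - 1) q row P s =
    ∑ i ∈ range row.length, row.getD i 0 *
      (P / 2 ^ (sh * (s + i)) % 2 ^ sh * 2 ^ (u * (s + i))) := by
  induction row with
  | nil => intro P s; rfl
  | cons c row ih =>
    intro P s
    have h : rowSum u sh (2 ^ sh - 1) q (c :: row) P s =
        c * (((P >>> (sh * s + 0 * q)) &&& (2 ^ sh - 1)) <<< (u * s)) +
          rowSum u sh (2 ^ sh - 1) q row P (s + 1) := rfl
    rw [h, zero_mul, add_zero, ih, List.length_cons, sum_range_succ', add_comm]
    simp only [List.getD_cons_zero, List.getD_cons_succ, add_zero]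
    rw [Nat.and_two_pow_sub_one_eq_mod, Nat.shiftRight_eq_div_pow, Nat.shiftLeft_eq]
    congr 1
    refine sum_congr rfl ?_
    intro i _
    have e : s + 1 + i = s + (i + 1) := by ring
    rw [e]

/-- Boolean function applied after evaluation. -/
noncomputable def forceB (f : ℕ → Bool) (n : ℕ) : Bool :=
  Nat.rec (motive := fun _ => Bool) (f 0) (fun m _ => f m) (Nat.add n 1)

theorem forceB_eq (f : ℕ → Bool) (n : ℕ) : forceB f n = f n := rfl

/-- The loop over the traces of the set on one part. The argument `q` is a tag without meaning. -/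
noncomputable def rowsLoop (child : ℕ → ℕ → ℕ → Bool) (S : ℕ → List ℕ → ℕ)
    (tab : List (List ℕ)) : ℕ → ℕ → Bool :=
  List.rec (motive := fun _ => ℕ → ℕ → Bool) (fun _ _ => true)
    (fun row _ ih t q => Bool.and (forceB (child t q) (S q row))
      (Nat.rec (motive := fun _ => Bool) true (fun t' _ => ih t' (Nat.succ q)) t)) tab

theorem rowsLoop_spec {child : ℕ → ℕ → ℕ → Bool} {S : ℕ → List ℕ → ℕ} :
    ∀ (tab : List (List ℕ)) (t q : ℕ),
    rowsLoop child S tab t q = true → ∀ a < tab.length, a ≤ t →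
      ∃ q', child (t - a) q' (S q' (tab.getD a [])) = true := by
  intro tab
  induction tab with
  | nil => intro t _ _ a ha; exact absurd ha (Nat.not_lt_zero _)
  | cons row tab ih =>
    intro t q h a ha hat
    have e : rowsLoop child S (row :: tab) t q = (forceB (child t q) (S q row) &&
        (Nat.rec (motive := fun _ => Bool) true
          (fun t' _ => rowsLoop child S tab t' (Nat.succ q)) t)) := rfl
    rw [e, Bool.and_eq_true, forceB_eq] at h
    obtain ⟨h1, h2⟩ := h
    cases a with
    | zero => exact ⟨q, by simpa using h1⟩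
    | succ a =>
      cases t with
      | zero => omega
      | succ t' =>
        obtain ⟨q', h3⟩ := ih t' (Nat.succ q) h2 a (by simpa using ha) (by omega)
        have e2 : t' + 1 - (a + 1) = t' - a := by omega
        refine ⟨q', ?_⟩
        rw [e2, List.getD_cons_succ]
        exact h3

/-- The recursive check. -/
noncomputable def chkN (u : ℕ) (leaf : ℕ → ℕ → ℕ → Bool) (lv : List (ℕ × List (List ℕ))) :
    ℕ → ℕ → ℕ → Bool :=
  List.rec (motive := fun _ => ℕ → ℕ → ℕ → Bool) (fun t q P => leaf t q P)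
    (fun x _ ih t q P => forceB (fun q' => rowsLoop ih
      (fun q' row => rowSum u x.1 (Nat.sub (Nat.shiftLeft 1 x.1) 1) q' row P 0) x.2 t q')
      (Nat.mul 8 q)) lv

/-- The rows of weights of a part. -/
def rowsOf (n T : ℕ) : List (List ℕ) :=
  (List.range (min n T + 1)).map (fun a => (List.range (n + 1)).map (wt n a))

theorem rowsOf_length (n T : ℕ) : (rowsOf n T).length = min n T + 1 := by simp [rowsOf]

theorem rowsOf_getD {n T a : ℕ} (ha : a < min n T + 1) :
    (rowsOf n T).getD a [] = (List.range (n + 1)).map (wt n a) := by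
  rw [List.getD_eq_getElem _ _ (by rw [rowsOf_length]; exact ha)]
  simp [rowsOf]

theorem row_getD {n a s : ℕ} (hs : s < n + 1) :
    ((List.range (n + 1)).map (wt n a)).getD s 0 = wt n a s := by
  rw [List.getD_eq_getElem _ _ (by simpa using hs)]
  simp

/-- The levels. -/
def lvOf (w T : ℕ) : List ℕ → List (ℕ × List (List ℕ))
  | [] => []
  | n :: ns => (w * len ns, rowsOf n T) :: lvOf w T ns

theorem field_bound {u n a M : ℕ} {f : ℕ → ℕ} (hf : ∀ s ≤ n, f s ≤ M) :
    ∑ s ∈ range (n + 1), wt n a s * (2 ^ u) ^ s * f s ≤ M * 2 ^ ((u + 1) * n) := by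
  calc ∑ s ∈ range (n + 1), wt n a s * (2 ^ u) ^ s * f s
      ≤ ∑ s ∈ range (n + 1), wt n a s * ((2 ^ u) ^ n * M) := by
        refine sum_le_sum ?_
        intro s hs
        rw [mem_range] at hs
        rw [mul_assoc]
        exact Nat.mul_le_mul_left _ (Nat.mul_le_mul
          (Nat.pow_le_pow_right (by positivity) (by omega)) (hf s (by omega)))
    _ = (∑ s ∈ range (n + 1), wt n a s) * ((2 ^ u) ^ n * M) := by rw [sum_mul]
    _ ≤ 2 ^ n * ((2 ^ u) ^ n * M) := Nat.mul_le_mul_right _ (wt_sum_le _ _)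
    _ = M * 2 ^ ((u + 1) * n) := by
        rw [← pow_mul, add_mul, one_mul, pow_add]; ring

theorem chkN_spec {u w T : ℕ} {leaf : ℕ → ℕ → ℕ → Bool} (ns : List ℕ) :
    ∀ (F : ℕ → ℕ) (M t q P : ℕ),
    P = pk (2 ^ w) F (len ns) → (∀ i < len ns, F i ≤ M) →
    M * 2 ^ ((u + 1) * ns.sum) < 2 ^ w → t ≤ T →
    chkN u leaf (lvOf w T ns) t q P = true → ∀ b ≤ t, ∀ τ ∈ taus ns b,
      ∃ q', leaf (t - b) q' (SS (2 ^ u) ns τ F) = true := by
  induction ns with
  | nil =>
    intro F M t q P hP _ _ _ h b hb τ hτ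
    simp only [taus] at hτ
    split_ifs at hτ with h0
    · subst h0
      have e : P = F 0 := by rw [hP]; simp [pk, len]
      have h1 : leaf t q P = true := h
      refine ⟨q, ?_⟩
      rw [Nat.sub_zero]
      simp only [SS]
      rw [← e]
      exact h1
    · exact absurd hτ List.not_mem_nil
  | cons n ns ih =>
    intro F M t q P hP hF hM htT h b hb τ hτ
    have hτ2 := hτ
    simp only [taus, List.mem_flatMap, List.mem_range] at hτ2
    obtain ⟨a, ha, hτ3⟩ := hτ2
    split_ifs at hτ3 with hab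
    swap
    · exact absurd hτ3 List.not_mem_nil
    rw [List.mem_map] at hτ3
    obtain ⟨τ', hτ', rfl⟩ := hτ3
    have hal : a < min n T + 1 := by omega
    have h0 : rowsLoop (chkN u leaf (lvOf w T ns)) (fun q row => rowSum u (w * len ns)
        ((1 <<< (w * len ns)) - 1) q row P 0) (rowsOf n T) t (8 * q) = true := h
    have h1 : rowsLoop (chkN u leaf (lvOf w T ns)) (fun q row => rowSum u (w * len ns)
        (2 ^ (w * len ns) - 1) q row P 0) (rowsOf n T) t (8 * q) = true := by
      rw [Nat.one_shiftLeft] at h0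
      exact h0
    obtain ⟨q1, h2⟩ := rowsLoop_spec _ _ _ h1 a (by rw [rowsOf_length]; exact hal) (by omega)
    rw [rowsOf_getD hal, rowSum_eq] at h2
    have hlt : ∀ i < len (n :: ns), F i < 2 ^ w := by
      intro i hi
      refine lt_of_le_of_lt ((hF i hi).trans ?_) hM
      calc M = M * 1 := (mul_one M).symm
        _ ≤ _ := Nat.mul_le_mul_left _ (Nat.one_le_two_pow)
    have hsum : (∑ i ∈ range ((List.range (n + 1)).map (wt n a)).length,
        ((List.range (n + 1)).map (wt n a)).getD i 0 *
        (P / 2 ^ (w * len ns * (0 + i)) % 2 ^ (w * len ns) * 2 ^ (u * (0 + i))))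
        = pk (2 ^ w) (fun i => ∑ s ∈ range (n + 1), wt n a s * (2 ^ u) ^ s *
            F (len ns * s + i)) (len ns) := by
      rw [← pk_sum (2 ^ w) (range (n + 1)) (fun s => wt n a s * (2 ^ u) ^ s)
        (fun s i => F (len ns * s + i)) (len ns)]
      rw [List.length_map, List.length_range]
      refine sum_congr rfl ?_
      intro s hs
      rw [mem_range] at hs
      rw [row_getD hs, zero_add]
      have e1 : w * len ns * s = w * (len ns * s) := by ring
      rw [e1, pow_mul, pow_mul 2 w (len ns), hP, pk_chunk hlt (by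
        show len ns * s + len ns ≤ (n + 1) * len ns
        calc len ns * s + len ns = (s + 1) * len ns := by ring
          _ ≤ (n + 1) * len ns := Nat.mul_le_mul_right _ hs), pow_mul]
      ring
    rw [hsum] at h2
    have hb1 : ∀ i < len ns, (∑ s ∈ range (n + 1), wt n a s * (2 ^ u) ^ s *
        F (len ns * s + i)) ≤ M * 2 ^ ((u + 1) * n) := by
      intro i hi
      refine field_bound (f := fun s => F (len ns * s + i)) ?_
      intro s hs
      refine hF _ ?_
      show len ns * s + i < (n + 1) * len ns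
      calc len ns * s + i < len ns * s + len ns := by omega
        _ = (s + 1) * len ns := by ring
        _ ≤ (n + 1) * len ns := Nat.mul_le_mul_right _ (by omega)
    have hb2 : M * 2 ^ ((u + 1) * n) * 2 ^ ((u + 1) * ns.sum) < 2 ^ w := by
      rw [List.sum_cons, mul_add, pow_add, ← mul_assoc] at hM
      exact hM
    obtain ⟨q2, h3⟩ := ih (fun i => ∑ s ∈ range (n + 1), wt n a s * (2 ^ u) ^ s *
      F (len ns * s + i)) (M * 2 ^ ((u + 1) * n)) (t - a) _ _ rfl hb1 hb2 (by omega) h2 (b - a)
      (by omega) τ' hτ'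
    refine ⟨q2, ?_⟩
    have e2 : t - a - (b - a) = t - b := by omega
    rw [e2] at h3
    rw [SS_sum (2 ^ u) ns τ' (range (n + 1)) (fun s => wt n a s * (2 ^ u) ^ s)
      (fun s i => F (len ns * s + i))] at h3
    exact h3

/-- Apply a check to the row with a given index, if there is one. -/
noncomputable def pick (rows : List (List ℕ)) : ℕ → (List ℕ → Bool) → Bool :=
  List.rec (motive := fun _ => ℕ → (List ℕ → Bool) → Bool) (fun _ _ => true)
    (fun row _ ih t f => Nat.rec (motive := fun _ => Bool) (f row) (fun t' _ => ih t' f) t) rows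

theorem pick_spec {f : List ℕ → Bool} : ∀ (rows : List (List ℕ)) (t : ℕ), pick rows t f = true →
    t < rows.length → f (rows.getD t []) = true := by
  intro rows
  induction rows with
  | nil => intro t _ h; exact absurd h (Nat.not_lt_zero _)
  | cons row rows ih =>
    intro t h ht
    cases t with
    | zero => exact h
    | succ t => exact ih t h (by simpa using ht)

/-- The final sum over the traces on the free part. -/
noncomputable def leafSum (u q R : ℕ) (row : List ℕ) : ℕ → ℕ :=
  List.rec (motive := fun _ => ℕ → ℕ) (fun _ => 0)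
    (fun c _ ih k => Nat.add (Nat.mul c (Nat.mod (Nat.shiftRight R
      (Nat.add (Nat.mul u k) (Nat.mul 0 q))) (Nat.pow 2 u)))
      (Nat.rec (motive := fun _ => ℕ) 0 (fun k' _ => ih k') k)) row

theorem leafSum_eq (u q R : ℕ) : ∀ (row : List ℕ) (k : ℕ), leafSum u q R row k =
    ∑ s ∈ range row.length, if s ≤ k then row.getD s 0 * (R / 2 ^ (u * (k - s)) % 2 ^ u) else 0 := by
  intro row
  induction row with
  | nil => intro k; rfl
  | cons c row ih =>
    intro k
    have h : leafSum u q R (c :: row) k = c * ((R >>> (u * k + 0 * q)) % 2 ^ u) +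
        (Nat.rec (motive := fun _ => ℕ) 0 (fun k' _ => leafSum u q R row k') k) := rfl
    rw [h, zero_mul, add_zero, List.length_cons, sum_range_succ', add_comm]
    simp only [List.getD_cons_zero, List.getD_cons_succ, Nat.zero_le, if_true, Nat.sub_zero]
    rw [Nat.shiftRight_eq_div_pow]
    congr 1
    cases k with
    | zero => simp
    | succ k' =>
      show leafSum u q R row k' = _
      rw [ih]
      refine sum_congr rfl ?_
      intro s _
      simp only [Nat.add_le_add_iff_right, Nat.add_sub_add_right]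

/-- The check at a leaf. -/
noncomputable def leafV (u k C : ℕ) (rows : List (List ℕ)) (t q R : ℕ) : Bool :=
  pick rows t (fun row => Nat.beq (Nat.mul 2 (leafSum u q R row k)) C)

/-- The packed tables. -/
noncomputable def buildP (w J : ℕ) (Ts : List ℕ) : List ℕ → (List ℕ → Bool) → Bool :=
  List.rec (motive := fun _ => List ℕ → (List ℕ → Bool) → Bool) (fun acc f => f acc)
    (fun T _ ih acc f => forceB (fun P => ih (P :: acc) f) (sp w J 0 T)) Ts

theorem buildP_eq (w J : ℕ) (f : List ℕ → Bool) : ∀ (Ts acc : List ℕ),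
    buildP w J Ts acc f = f ((Ts.map (sp w J 0)).reverse ++ acc) := by
  intro Ts
  induction Ts with
  | nil => intro acc; rfl
  | cons T Ts ih =>
    intro acc
    have h : buildP w J (T :: Ts) acc f = forceB (fun P => buildP w J Ts (P :: acc) f)
      (sp w J 0 T) := rfl
    rw [h, forceB_eq, ih, List.map_cons, List.reverse_cons, List.append_assoc]
    rfl

/-- The first coordinate is summed out. -/
noncomputable def sumTop (u : ℕ) (row : List ℕ) : List ℕ → ℕ → ℕ :=
  List.rec (motive := fun _ => List ℕ → ℕ → ℕ) (fun _ _ => 0)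
    (fun c _ ih Ps s => Nat.add (Nat.mul c (Nat.shiftLeft (Ps.headD 0) (Nat.mul u s)))
      (ih Ps.tail (Nat.succ s))) row

theorem sumTop_eq (u : ℕ) : ∀ (row Ps : List ℕ) (s : ℕ), sumTop u row Ps s =
    ∑ i ∈ range row.length, row.getD i 0 * (Ps.getD i 0 * 2 ^ (u * (s + i))) := by
  intro row
  induction row with
  | nil => intro Ps s; rfl
  | cons c row ih =>
    intro Ps s
    have h : sumTop u (c :: row) Ps s = c * ((Ps.headD 0) <<< (u * s)) +
      sumTop u row Ps.tail (s + 1) := rfl
    rw [h, ih, List.length_cons, sum_range_succ', add_comm]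
    simp only [List.getD_cons_zero, List.getD_cons_succ, add_zero]
    rw [Nat.shiftLeft_eq]
    have hh : Ps.headD 0 = Ps.getD 0 0 := by cases Ps <;> simp
    rw [hh]
    congr 1
    refine sum_congr rfl ?_
    intro i _
    have e : s + 1 + i = s + (i + 1) := by ring
    have ht : Ps.tail.getD i 0 = Ps.getD (i + 1) 0 := by cases Ps <;> simp
    rw [e, ht]

/-- The complete check. -/
noncomputable def chkV (u w J k C : ℕ) (rm r1 : List (List ℕ)) (lv : List (ℕ × List (List ℕ)))
    (Ts : List ℕ) (t : ℕ) : Bool :=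
  buildP w J Ts [] (fun Ps => rowsLoop (chkN u (leafV u k C rm) lv)
    (fun _ row => sumTop u row Ps 0) r1 t 1)

/-- The digits of the table. -/
def digF (L : ℕ) (Ts : List ℕ) (i : ℕ) : ℕ := ((Ts.getD (i / L) 0).testBit (i % L)).toNat

theorem digF_le (L : ℕ) (Ts : List ℕ) (i : ℕ) : digF L Ts i ≤ 1 := Bool.toNat_le _

/-- A successful check gives a signing. -/
theorem bal_of_vec {nm n1 t k C v u w J : ℕ} {ns Tr : List ℕ} {lv : List (ℕ × List (List ℕ))}
    {rm r1 : List (List ℕ)} (hv : nm + (n1 + ns.sum) = v) (htk : t ≤ k)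
    (hC : C = (v - t).choose (k - t)) (hu : n1 + ns.sum < u)
    (hw : (u + 1) * (n1 + ns.sum) < w) (hw2 : 2 ≤ w) (hJ : len ns ≤ 2 ^ J)
    (hTl : Tr.length = n1 + 1) (hT : Tr.all (fun T => Nat.blt T (2 ^ len ns)) = true)
    (hlv : lv = lvOf w t ns) (hrm : rm = rowsOf nm t) (hr1 : r1 = rowsOf n1 t)
    (h : chkV u w J k C rm r1 lv Tr t = true) : Bal (t + 1) k v := by
  subst hlv hrm hr1 hv
  obtain ⟨Ts, hTs⟩ : ∃ Ts, Ts = Tr.reverse := ⟨_, rfl⟩
  obtain ⟨F, hF⟩ : ∃ F, F = digF (len ns) Ts := ⟨_, rfl⟩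
  have hF1 : ∀ i, F i ≤ 1 := by intro i; rw [hF]; exact digF_le _ _ _
  have hL := len_pos ns
  have hTsl : Ts.length = n1 + 1 := by rw [hTs, List.length_reverse, hTl]
  have hFd : ∀ s i, i < len ns → F (len ns * s + i) = ((Ts.getD s 0).testBit i).toNat := by
    intro s i hi
    rw [hF]
    unfold digF
    rw [Nat.mul_add_div hL, Nat.div_eq_of_lt hi, add_zero, Nat.mul_add_mod, Nat.mod_eq_of_lt hi]
  obtain ⟨g, hg⟩ : ∃ g : List ℕ → ℕ, g = fun l => F (idx (n1 :: ns) l) := ⟨_, rfl⟩
  have hg1 : ∀ l, g l ≤ 1 := by intro l; rw [hg]; exact hF1 _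
  -- the tables
  have hPs : ∀ s < n1 + 1, (Ts.map (sp w J 0)).getD s 0 =
      pk (2 ^ w) (fun i => F (len ns * s + i)) (len ns) := by
    intro s hs
    rw [List.getD_eq_getElem _ _ (by rw [List.length_map, hTsl]; exact hs), List.getElem_map]
    have h1' : ∀ x ∈ Ts, x ∈ Tr := by
      intro x hx
      rw [hTs, List.mem_reverse] at hx
      exact hx
    have h1 := h1' _ (List.getElem_mem (show s < Ts.length by rw [hTsl]; exact hs))
    rw [List.all_eq_true] at hT
    have h2 := hT _ h1
    rw [Nat.blt_eq] at h2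
    rw [sp_eq hw2 hJ h2]
    unfold pk
    refine sum_congr rfl ?_
    intro i hi
    show _ = F (len ns * s + i) * _
    rw [hFd s i (mem_range.1 hi), List.getD_eq_getElem Ts 0 (by rw [hTsl]; exact hs)]
  -- the check
  unfold chkV at h
  rw [buildP_eq, List.append_nil, ← List.map_reverse, ← hTs] at h
  have hgood : ∀ τ ∈ taus (nm :: n1 :: ns) t,
      2 * E (nm :: n1 :: ns) τ k (fun l => g l.tail) = C := by
    intro τ hτ
    simp only [taus, List.mem_flatMap, List.mem_range] at hτ
    obtain ⟨τ0, h0, hτ⟩ := hτ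
    split_ifs at hτ with h0t
    swap
    · exact absurd hτ List.not_mem_nil
    rw [List.mem_map] at hτ
    obtain ⟨σ, hσ, rfl⟩ := hτ
    rw [List.mem_flatMap] at hσ
    obtain ⟨a, ha, hσ⟩ := hσ
    rw [List.mem_range] at ha
    split_ifs at hσ with hat
    swap
    · exact absurd hσ List.not_mem_nil
    rw [List.mem_map] at hσ
    obtain ⟨τ', hτ', rfl⟩ := hσ
    have hal : a < min n1 t + 1 := by omega
    obtain ⟨q1, h2⟩ := rowsLoop_spec _ _ _ h a (by rw [rowsOf_length]; exact hal) (by omega)
    rw [rowsOf_getD hal, sumTop_eq] at h2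
    have hsum : (∑ i ∈ range ((List.range (n1 + 1)).map (wt n1 a)).length,
        ((List.range (n1 + 1)).map (wt n1 a)).getD i 0 *
        ((Ts.map (sp w J 0)).getD i 0 * 2 ^ (u * (0 + i))))
        = pk (2 ^ w) (fun i => ∑ s ∈ range (n1 + 1), wt n1 a s * (2 ^ u) ^ s *
            F (len ns * s + i)) (len ns) := by
      rw [← pk_sum (2 ^ w) (range (n1 + 1)) (fun s => wt n1 a s * (2 ^ u) ^ s)
        (fun s i => F (len ns * s + i)) (len ns)]
      rw [List.length_map, List.length_range]
      refine sum_congr rfl ?_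
      intro s hs
      rw [mem_range] at hs
      rw [row_getD hs, zero_add, hPs s hs, pow_mul]
      ring
    rw [hsum] at h2
    have hb1 : ∀ i < len ns, (∑ s ∈ range (n1 + 1), wt n1 a s * (2 ^ u) ^ s *
        F (len ns * s + i)) ≤ 1 * 2 ^ ((u + 1) * n1) := by
      intro i hi
      exact field_bound (f := fun s => F (len ns * s + i)) (fun s _ => hF1 _)
    have hb2 : 1 * 2 ^ ((u + 1) * n1) * 2 ^ ((u + 1) * ns.sum) < 2 ^ w := by
      rw [one_mul, ← pow_add, ← mul_add]
      exact Nat.pow_lt_pow_right (by norm_num) hw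
    obtain ⟨q2, h3⟩ := chkN_spec ns (fun i => ∑ s ∈ range (n1 + 1), wt n1 a s * (2 ^ u) ^ s *
      F (len ns * s + i)) (1 * 2 ^ ((u + 1) * n1)) (t - a) _ _ rfl hb1 hb2 (by omega) h2
      (t - τ0 - a) (by omega) τ' hτ'
    · have e2 : t - a - (t - τ0 - a) = τ0 := by omega
      rw [e2, SS_sum (2 ^ u) ns τ' (range (n1 + 1)) (fun s => wt n1 a s * (2 ^ u) ^ s)
        (fun s i => F (len ns * s + i))] at h3
      have e3 : ∑ s ∈ range (n1 + 1), wt n1 a s * (2 ^ u) ^ s *
          SS (2 ^ u) ns τ' (fun i => F (len ns * s + i))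
          = SS (2 ^ u) (n1 :: ns) (a :: τ') F := by
        simp only [SS, List.headD_cons, List.tail_cons]
      rw [e3, SS_eq (2 ^ u) (n1 :: ns) (a :: τ') F (n1 + ns.sum + k + 1)
        (by rw [List.sum_cons]; omega)] at h3
      unfold leafV at h3
      have h4 := pick_spec _ _ h3 (by rw [rowsOf_length]; omega)
      have h5 := Nat.eq_of_beq_eq_true h4
      rw [rowsOf_getD (by omega), leafSum_eq, List.length_map, List.length_range] at h5
      rw [← h5]
      show _ = 2 * _
      congr 1
      have hEE : E (nm :: n1 :: ns) (τ0 :: a :: τ') k (fun l => g l.tail) =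
          ∑ s ∈ range (nm + 1), if s ≤ k then wt nm τ0 s *
            E (n1 :: ns) (a :: τ') (k - s) g else 0 := rfl
      rw [hEE]
      refine sum_congr rfl ?_
      intro s hs
      rw [mem_range] at hs
      split_ifs with hsk
      · rw [row_getD hs]
        congr 1
        rw [pow_mul, digit (Y := 2 ^ u) (e := fun j => E (n1 :: ns) (a :: τ') j
          (fun l => F (idx (n1 :: ns) l))) (j := k - s) ?_ (by omega)]
        · rw [hg]
        · intro j
          refine lt_of_le_of_lt (E_le _ _ _ _ (fun l => hF1 _)) ?_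
          rw [List.sum_cons]
          exact Nat.pow_lt_pow_right (by norm_num) hu
      · rfl
  refine ⟨fun S => 2 * (g (typ (nm :: n1 :: ns) S).tail : ℤ) - 1, ?_, ?_⟩
  · intro S _
    have h0 := hg1 (typ (nm :: n1 :: ns) S).tail
    have h1 : g (typ (nm :: n1 :: ns) S).tail = 0 ∨ g (typ (nm :: n1 :: ns) S).tail = 1 := by
      omega
    rcases h1 with h1 | h1
    · right; simp only [h1]; norm_num
    · left; simp only [h1]; norm_num
  · refine sum_zero_of_top htk ?_
    intro T hT'
    have hse : nm + (n1 + ns.sum) = (nm :: n1 :: ns).sum := by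
      rw [List.sum_cons, List.sum_cons]
    rw [hse] at hT' hC ⊢
    rw [mem_powersetCard] at hT'
    rw [sum_sub_distrib, ← mul_sum, sum_const, nsmul_eq_mul, mul_one]
    have h1 := sum_typ (nm :: n1 :: ns) T k (fun l => g l.tail) hT'.1
    have h3 := hgood (typ (nm :: n1 :: ns) T) (by
      rw [← hT'.2]; exact typ_mem_taus (nm :: n1 :: ns) T hT'.1)
    have h4 := card_super hT'.1 k
    rw [card_range, hT'.2, if_pos htk, ← hC, ← h3, ← h1] at h4
    rw [h4]
    push_cast
    ring

end Halving
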