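import Pool.Agent.Halving.Vec

/-!
# A second vectorised checker
Here the table must vanish on all types of the wrong size; this is checked through the moments of
the size of the blocks.
-/

namespace Halving

open Finset

/-- If the sums over the supersets of all sets with at most two elements are those of a function
that lives on the `k`-sets, then the function lives on the `k`-sets. -/
theorem supp_of_moments {m j : ℕ} (f : Finset ℕ → ℕ)
    (h : ∀ T ⊆ range (m + 2), T.card ≤ 2 →
      2 * ∑ S ∈ (range (m + 2)).powerset with T ⊆ S, f S =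
        (m + 2 - T.card).choose (j + 2 - T.card)) :
    ∀ S ⊆ range (m + 2), S.card ≠ j + 2 → f S = 0 := by
  obtain ⟨X, hX⟩ : ∃ X, X = range (m + 2) := ⟨_, rfl⟩
  have hXc : X.card = m + 2 := by rw [hX, card_range]
  rw [← hX] at h ⊢
  -- double counting
  have dc : ∀ i ≤ 2, 2 * ∑ S ∈ X.powerset, f S * S.card.choose i =
      (m + 2).choose i * (m + 2 - i).choose (j + 2 - i) := by
    intro i hi
    have h1 : ∀ S ∈ X.powerset, f S * S.card.choose i =
        ∑ T ∈ powersetCard i X, if T ⊆ S then f S else 0 := by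
      intro S hS
      rw [mem_powerset] at hS
      rw [← sum_filter, sum_const, smul_eq_mul, mul_comm]
      congr 1
      have h2 : (powersetCard i X).filter (· ⊆ S) = powersetCard i S := by
        ext T
        simp only [mem_filter, mem_powersetCard]
        constructor
        · rintro ⟨⟨_, h4⟩, h5⟩
          exact ⟨h5, h4⟩
        · rintro ⟨h4, h5⟩
          exact ⟨⟨h4.trans hS, h5⟩, h4⟩
      rw [h2, card_powersetCard]
    rw [sum_congr rfl h1, sum_comm, mul_sum]
    have h3 : ∀ T ∈ powersetCard i X, 2 * ∑ S ∈ X.powerset, (if T ⊆ S then f S else 0) =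
        (m + 2 - i).choose (j + 2 - i) := by
      intro T hT
      rw [mem_powersetCard] at hT
      rw [← sum_filter, h T hT.1 (by omega), hT.2]
    rw [sum_congr rfl h3, sum_const, smul_eq_mul, card_powersetCard, hXc]
  have d0 := dc 0 (by omega)
  have d1 := dc 1 (by omega)
  have d2 := dc 2 (by omega)
  simp only [Nat.choose_zero_right, mul_one, one_mul, Nat.sub_zero, Nat.choose_one_right] at d0 d1
  have e1 : m + 2 - 1 = m + 1 := by omega
  have e2 : j + 2 - 1 = j + 1 := by omega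
  have e3 : m + 2 - 2 = m := by omega
  have e4 : j + 2 - 2 = j := by omega
  rw [e1, e2] at d1
  rw [e3, e4] at d2
  -- binomial identities
  have b1 : (m + 2) * (m + 1).choose (j + 1) = (m + 2).choose (j + 2) * (j + 2) :=
    Nat.add_one_mul_choose_eq (m + 1) (j + 1)
  have b2 : (m + 1) * m.choose j = (m + 1).choose (j + 1) * (j + 1) :=
    Nat.add_one_mul_choose_eq m j
  have b3 : 2 * (m + 2).choose 2 = (m + 2) * (m + 1) := by
    rw [Nat.choose_two_right]
    have : m + 2 - 1 = m + 1 := by omega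
    rw [this]
    have h2 : 2 ∣ (m + 2) * (m + 1) := by
      rw [mul_comm]
      exact (Nat.even_mul_succ_self (m + 1)).two_dvd
    exact Nat.mul_div_cancel' h2
  have hc : ∀ n : ℕ, 2 * (n.choose 2 : ℤ) = (n : ℤ) * ((n : ℤ) - 1) := by
    intro n
    cases n with
    | zero => simp
    | succ n =>
      have h2 : 2 ∣ (n + 1) * n := by
        rw [mul_comm]
        exact (Nat.even_mul_succ_self n).two_dvd
      have h3 : 2 * (n + 1).choose 2 = (n + 1) * n := by
        rw [Nat.choose_two_right, Nat.add_sub_cancel]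
        exact Nat.mul_div_cancel' h2
      have h4 : 2 * ((n + 1).choose 2 : ℤ) = ((n : ℤ) + 1) * n := by exact_mod_cast h3
      rw [h4]
      push_cast
      ring
  have key : ∑ S ∈ X.powerset, (f S : ℤ) * ((S.card : ℤ) - (j + 2)) ^ 2 = 0 := by
    have h4 : ∀ S ∈ X.powerset, (f S : ℤ) * ((S.card : ℤ) - (j + 2)) ^ 2 =
        2 * ((f S * S.card.choose 2 : ℕ) : ℤ) - (2 * (j + 2) - 1) * ((f S * S.card : ℕ) : ℤ) +
          (j + 2) ^ 2 * ((f S : ℕ) : ℤ) := by
      intro S _
      push_cast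
      have := hc S.card
      linear_combination -(f S : ℤ) * this
    rw [sum_congr rfl h4, sum_add_distrib, sum_sub_distrib, ← mul_sum, ← mul_sum, ← mul_sum]
    have d0' : 2 * (∑ S ∈ X.powerset, ((f S : ℕ) : ℤ)) = ((m + 2).choose (j + 2) : ℤ) := by
      exact_mod_cast d0
    have d1' : 2 * (∑ S ∈ X.powerset, ((f S * S.card : ℕ) : ℤ)) =
        ((m : ℤ) + 2) * ((m + 1).choose (j + 1) : ℤ) := by exact_mod_cast d1
    have d2' : 2 * (∑ S ∈ X.powerset, ((f S * S.card.choose 2 : ℕ) : ℤ)) =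
        ((m + 2).choose 2 : ℤ) * (m.choose j : ℤ) := by exact_mod_cast d2
    have b1' : ((m : ℤ) + 2) * ((m + 1).choose (j + 1) : ℤ) =
        ((m + 2).choose (j + 2) : ℤ) * ((j : ℤ) + 2) := by exact_mod_cast b1
    have b2' : ((m : ℤ) + 1) * (m.choose j : ℤ) = ((m + 1).choose (j + 1) : ℤ) * ((j : ℤ) + 1) := by
      exact_mod_cast b2
    have b3' : 2 * ((m + 2).choose 2 : ℤ) = ((m : ℤ) + 2) * ((m : ℤ) + 1) := by
      exact_mod_cast b3
    obtain ⟨s0, hs0⟩ : ∃ s, s = ∑ S ∈ X.powerset, ((f S : ℕ) : ℤ) := ⟨_, rfl⟩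
    obtain ⟨s1, hs1⟩ : ∃ s, s = ∑ S ∈ X.powerset, ((f S * S.card : ℕ) : ℤ) := ⟨_, rfl⟩
    obtain ⟨s2, hs2⟩ : ∃ s, s = ∑ S ∈ X.powerset, ((f S * S.card.choose 2 : ℕ) : ℤ) := ⟨_, rfl⟩
    rw [← hs0] at d0' ⊢
    rw [← hs1] at d1' ⊢
    rw [← hs2] at d2' ⊢
    obtain ⟨c0, hc0⟩ : ∃ c, c = ((m + 2).choose (j + 2) : ℤ) := ⟨_, rfl⟩
    obtain ⟨c1, hc1⟩ : ∃ c, c = ((m + 1).choose (j + 1) : ℤ) := ⟨_, rfl⟩
    obtain ⟨c2, hc2⟩ : ∃ c, c = (m.choose j : ℤ) := ⟨_, rfl⟩
    obtain ⟨c3, hc3⟩ : ∃ c, c = ((m + 2).choose 2 : ℤ) := ⟨_, rfl⟩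
    rw [← hc0] at d0' b1'
    rw [← hc1] at d1' b1' b2'
    rw [← hc2] at d2' b2'
    rw [← hc3] at d2' b3'
    have e5 : 4 * s2 = c0 * (j + 2) * (j + 1) := by
      linear_combination 2 * d2' + c2 * b3' + (m + 2 : ℤ) * b2' + (j + 1 : ℤ) * b1'
    have e6 : 2 * s1 = c0 * (j + 2) := by linear_combination d1' + b1'
    have e7 : 2 * (2 * s2 - (2 * ((j : ℤ) + 2) - 1) * s1 + ((j : ℤ) + 2) ^ 2 * s0) = 0 := by
      linear_combination e5 - (2 * ((j : ℤ) + 2) - 1) * e6 + ((j : ℤ) + 2) ^ 2 * d0'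
    linarith
  intro S hS hSc
  have h5 := (sum_eq_zero_iff_of_nonneg (fun S _ => by positivity)).1 key S
    (mem_powerset.2 hS)
  rcases mul_eq_zero.1 h5 with h6 | h6
  · exact_mod_cast h6
  · exfalso
    have h7 := pow_eq_zero_iff (two_ne_zero) |>.1 h6
    apply hSc
    have : (S.card : ℤ) = ((j + 2 : ℕ) : ℤ) := by push_cast; linarith
    exact_mod_cast this

/-- Concatenation of chunks. -/
noncomputable def joinC (c : ℕ) (l : List ℕ) : ℕ :=
  List.rec (motive := fun _ => ℕ) 0 (fun x _ ih => Nat.lor x (Nat.shiftLeft ih c)) l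

/-- Apply a check to the entry with a given index, if there is one. -/
noncomputable def pickN (cs : List ℕ) : ℕ → (ℕ → Bool) → Bool :=
  List.rec (motive := fun _ => ℕ → (ℕ → Bool) → Bool) (fun _ _ => true)
    (fun c _ ih t f => Nat.rec (motive := fun _ => Bool) (f c) (fun t' _ => ih t' f) t) cs

theorem pickN_spec {f : ℕ → Bool} : ∀ (cs : List ℕ) (t : ℕ), pickN cs t f = true →
    t < cs.length → f (cs.getD t 0) = true := by
  intro cs
  induction cs with
  | nil => intro t _ h; exact absurd h (Nat.not_lt_zero _)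
  | cons c cs ih =>
    intro t h ht
    cases t with
    | zero => exact h
    | succ t => exact ih t h (by simpa using ht)

/-- The check at a leaf. -/
noncomputable def leaf0 (cs : List ℕ) (t q R : ℕ) : Bool :=
  pickN cs t (fun c => Nat.beq (Nat.add (Nat.mul 0 q) (Nat.mul 2 R)) c)

/-- The complete check. -/
noncomputable def chk0 (w J : ℕ) (cs : List ℕ) (lv : List (ℕ × List (List ℕ))) (T t : ℕ) : Bool :=
  forceB (fun x => forceB (fun P => chkN 0 (leaf0 cs) lv t 1 P) (sp w J 0 x)) T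

theorem sum_powerset_card (X : Finset ℕ) (T : Finset ℕ) (f : Finset ℕ → ℕ) :
    ∑ S ∈ X.powerset with T ⊆ S, f S =
      ∑ j ∈ range (X.card + 1), ∑ S ∈ powersetCard j X with T ⊆ S, f S := by
  rw [sum_filter, sum_powerset]
  refine sum_congr rfl ?_
  intro j _
  rw [sum_filter]

/-- A successful check gives a signing. -/
theorem bal_of_tab {t k v w J T : ℕ} {ns cs : List ℕ} {lv : List (ℕ × List (List ℕ))}
    (hv : ns.sum = v) (ht : 2 ≤ t) (htk : t ≤ k) (hkv : k ≤ v)
    (hcs : cs = (List.range (t + 1)).map (fun r => (v - (t - r)).choose (k - (t - r))))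
    (hw : v < w) (hw2 : 2 ≤ w) (hJ : len ns ≤ 2 ^ J) (hT : Nat.blt T (2 ^ len ns) = true)
    (hlv : lv = lvOf w t ns) (h : chk0 w J cs lv T t = true) : Bal (t + 1) k v := by
  subst hlv hcs hv
  have h1 : forceB (fun x => forceB (fun P => chkN 0 (leaf0 ((List.range (t + 1)).map
      (fun r => (ns.sum - (t - r)).choose (k - (t - r))))) (lvOf w t ns) t 1 P)
      (sp w J 0 x)) T = true := h
  rw [forceB_eq, forceB_eq] at h1
  rw [Nat.blt_eq] at hT
  obtain ⟨F, hF⟩ : ∃ F : ℕ → ℕ, F = fun i => (T.testBit i).toNat := ⟨_, rfl⟩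
  have hF1 : ∀ i, F i ≤ 1 := by intro i; rw [hF]; exact Bool.toNat_le _
  obtain ⟨g, hg⟩ : ∃ g : List ℕ → ℕ, g = fun l => F (idx ns l) := ⟨_, rfl⟩
  have hg1 : ∀ l, g l ≤ 1 := by intro l; rw [hg]; exact hF1 _
  have hPs : sp w J 0 T = pk (2 ^ w) F (len ns) := by
    rw [sp_eq hw2 hJ hT]
    unfold pk
    refine sum_congr rfl ?_
    intro i hi
    show _ = F i * _
    rw [hF]
  have hsub : ∀ T' ⊆ range ns.sum, T'.card ≤ t →
      2 * ∑ S ∈ (range ns.sum).powerset with T' ⊆ S, g (typ ns S) =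
        (ns.sum - T'.card).choose (k - T'.card) := by
    intro T' hT' hTc
    obtain ⟨q, h2⟩ := chkN_spec ns F 1 t 1 (sp w J 0 T) hPs (fun i _ => hF1 i)
      (by rw [one_mul, zero_add, one_mul]; exact Nat.pow_lt_pow_right (by norm_num) hw)
      le_rfl h1 T'.card hTc (typ ns T') (typ_mem_taus ns T' hT')
    have h3 := pickN_spec _ _ h2 (by rw [List.length_map, List.length_range]; omega)
    have h4 := Nat.eq_of_beq_eq_true h3
    rw [List.getD_eq_getElem _ _ (by rw [List.length_map, List.length_range]; omega),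
      List.getElem_map, List.getElem_range] at h4
    have e1 : t - (t - T'.card) = T'.card := by omega
    rw [e1] at h4
    rw [← h4]
    have h5 : SS (2 ^ 0) ns (typ ns T') F = ∑ j ∈ range (ns.sum + 1), E ns (typ ns T') j g := by
      rw [SS_eq (2 ^ 0) ns (typ ns T') F (ns.sum + 1) (by omega)]
      refine sum_congr rfl ?_
      intro j _
      rw [pow_zero, one_pow, one_mul, hg]
    rw [sum_powerset_card, card_range]
    have h6 : ∀ j ∈ range (ns.sum + 1), ∑ S ∈ powersetCard j (range ns.sum) with T' ⊆ S,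
        g (typ ns S) = E ns (typ ns T') j g := by
      intro j _
      exact sum_typ ns T' j g hT'
    rw [sum_congr rfl h6, ← h5]
    show 2 * _ = 0 * q + 2 * _
    ring
  obtain ⟨m, hm⟩ : ∃ m, ns.sum = m + 2 := ⟨ns.sum - 2, by omega⟩
  obtain ⟨j, hj⟩ : ∃ j, k = j + 2 := ⟨k - 2, by omega⟩
  have hsup : ∀ S ⊆ range ns.sum, S.card ≠ k → g (typ ns S) = 0 := by
    rw [hm, hj] at hsub ⊢
    exact supp_of_moments (fun S => g (typ ns S)) (fun T' hT' hc => hsub T' hT' (by omega))
  refine ⟨fun S => 2 * (g (typ ns S) : ℤ) - 1, ?_, ?_⟩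
  · intro S _
    have h0 := hg1 (typ ns S)
    have h1 : g (typ ns S) = 0 ∨ g (typ ns S) = 1 := by
      omega
    rcases h1 with h1 | h1
    · right; simp only [h1]; norm_num
    · left; simp only [h1]; norm_num
  · refine sum_zero_of_top htk ?_
    intro T' hT'
    rw [mem_powersetCard] at hT'
    rw [sum_sub_distrib, ← mul_sum, sum_const, nsmul_eq_mul, mul_one]
    have h4 := card_super hT'.1 k
    rw [card_range, hT'.2, if_pos htk] at h4
    have h5 := hsub T' hT'.1 (by omega)
    rw [hT'.2] at h5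
    have h6 : ∑ S ∈ (range ns.sum).powerset with T' ⊆ S, g (typ ns S) =
        ∑ S ∈ powersetCard k (range ns.sum) with T' ⊆ S, g (typ ns S) := by
      rw [sum_powerset_card, sum_eq_single k]
      · intro j _ hjk
        refine sum_eq_zero ?_
        intro S hS
        rw [mem_filter, mem_powersetCard] at hS
        exact hsup S hS.1.1 (by omega)
      · intro hk
        rw [mem_range, card_range] at hk
        omega
    rw [h4, ← h5, h6]
    push_cast
    ring

end Halving
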